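import Pool.Agent.K4H62.HF.Roth

/-!
The height inequality for the specializations.
-/

set_option autoImplicit false
set_option linter.overlappingInstances false
set_option linter.unusedSectionVars false

open FF Pool.Agent.W603.LV Pool.Agent.W603.PV

namespace Pool.Agent.K4H62.HF

section loc

variable {k K : Type} [Field k] [Field K] [Algebra k K]

theorem local_key (P : Place k K) {q n : ℕ} {y g : K} {a : Fin q → K} (hy0 : y ≠ 0) (hg0 : g ≠ 0)
    (hne : ∀ i, y ≠ a i) {B : ℤ} (hB : 0 ≤ B) (ha : ∀ i, |P.ord (a i)| ≤ B)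
    (haa : ∀ i j, i ≠ j → |P.ord (a i - a j)| ≤ B) (haij : ∀ i j, i ≠ j → a i ≠ a j)
    (H1 : Ge P 0 y → Ge P (-B) (g * ∏ i, (y - a i) ^ n))
    (H2 : Ge P 0 y⁻¹ → Ge P (-B) (g * ∏ i, ((y - a i) * y⁻¹) ^ n)) {μ : ℤ} (hμ0 : 0 ≤ μ)
    (hμ : ∀ i, P.ord (y - a i) ≤ μ) (hμ' : μ = 0 ∨ ∃ i, μ = P.ord (y - a i)) :
    -P.ord g ≤ n * μ + (2 * n * q + 1) * B := by
  classical
  have hne' : ∀ i, y - a i ≠ 0 := fun i => sub_ne_zero.2 (hne i)
  have hord : ∀ (f : Fin q → K), (∀ i, f i ≠ 0) →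
      P.ord (∏ i, f i ^ n) = n * ∑ i, P.ord (f i) := by
    intro f hf
    have h1 : ∀ s : Finset (Fin q), P.ord (∏ i ∈ s, f i ^ n) = n * ∑ i ∈ s, P.ord (f i) := by
      intro s
      induction s using Finset.induction_on with
      | empty => simpa using P.ord_one
      | insert a s ha ih =>
        rw [Finset.prod_insert ha, Finset.sum_insert ha, P.ord_mul (pow_ne_zero _ (hf a))
          (Finset.prod_ne_zero_iff.2 fun i _ => pow_ne_zero _ (hf i)), P.ord_pow, ih]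
        ring
    exact h1 Finset.univ
  -- the positive parts
  have hτ : ∑ i, max (P.ord (y - a i)) 0 ≤ μ + q * B := by
    rcases hμ' with h0 | ⟨i0, hi0⟩
    · have h1 : ∑ i, max (P.ord (y - a i)) 0 = 0 := by
        refine Finset.sum_eq_zero fun i _ => max_eq_right ?_
        rw [← h0]
        exact hμ i
      rw [h1, h0]
      have : 0 ≤ (q : ℤ) * B := by positivity
      linarith
    · have h1 : ∀ i, i ≠ i0 → max (P.ord (y - a i)) 0 ≤ B := by
        intro i hi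
        refine max_le ?_ hB
        by_contra hlt
        push Not at hlt
        have h2 : Ge P (P.ord (y - a i)) (a i0 - a i) := by
          have e : a i0 - a i = (y - a i) - (y - a i0) := by ring
          rw [e]
          refine Ge.sub (Or.inr le_rfl) (Or.inr ?_)
          rw [← hi0]
          exact hμ i
        have h3 := h2.resolve_left (sub_ne_zero.2 (haij i0 i hi.symm))
        have h4 := (abs_le.1 (haa i0 i hi.symm)).2
        linarith
      rw [← Finset.add_sum_erase _ _ (Finset.mem_univ i0)]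
      have h2 : ∑ i ∈ Finset.univ.erase i0, max (P.ord (y - a i)) 0 ≤
          ∑ i ∈ Finset.univ.erase i0, B :=
        Finset.sum_le_sum fun i hi => h1 i (Finset.ne_of_mem_erase hi)
      rw [Finset.sum_const, nsmul_eq_mul] at h2
      have h3 : ((Finset.univ.erase i0).card : ℤ) ≤ q := by
        have := Finset.card_le_univ (Finset.univ.erase i0)
        rw [Fintype.card_fin] at this
        exact_mod_cast this
      have h4 : ((Finset.univ.erase i0).card : ℤ) * B ≤ q * B :=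
        mul_le_mul_of_nonneg_right h3 hB
      have h5 : max (P.ord (y - a i0)) 0 ≤ μ := max_le (hμ i0) hμ0
      linarith
  have hqB : 0 ≤ (q : ℤ) * B := by positivity
  have hn0 : (0 : ℤ) ≤ n := Int.natCast_nonneg n
  rcases le_or_gt 0 (P.ord y) with hy | hy
  · have h1 := (H1 (Or.inr hy)).resolve_left (mul_ne_zero hg0
      (Finset.prod_ne_zero_iff.2 fun i _ => pow_ne_zero _ (hne' i)))
    rw [P.ord_mul hg0 (Finset.prod_ne_zero_iff.2 fun i _ => pow_ne_zero _ (hne' i)),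
      hord _ hne'] at h1
    have h2 : ∑ i, P.ord (y - a i) ≤ μ + q * B :=
      (Finset.sum_le_sum fun i _ => le_max_left _ _).trans hτ
    have h3 := mul_le_mul_of_nonneg_left h2 hn0
    have h4 : 0 ≤ (n : ℤ) * (q * B) := mul_nonneg hn0 hqB
    linarith
  · have hyi : Ge P 0 y⁻¹ := Or.inr (by rw [P.ord_inv]; omega)
    have hne2 : ∀ i, (y - a i) * y⁻¹ ≠ 0 := fun i => mul_ne_zero (hne' i) (inv_ne_zero hy0)
    have h1 := (H2 hyi).resolve_left (mul_ne_zero hg0
      (Finset.prod_ne_zero_iff.2 fun i _ => pow_ne_zero _ (hne2 i)))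
    rw [P.ord_mul hg0 (Finset.prod_ne_zero_iff.2 fun i _ => pow_ne_zero _ (hne2 i)),
      hord _ hne2] at h1
    have h2 : ∀ i, P.ord ((y - a i) * y⁻¹) ≤ max (P.ord (y - a i)) 0 + B := by
      intro i
      rw [P.ord_mul (hne' i) (inv_ne_zero hy0), P.ord_inv]
      rcases le_or_gt (P.ord (y - a i)) (P.ord y) with h | h
      · have := le_max_right (P.ord (y - a i)) 0
        linarith
      · have h3 : P.ord (a i) = P.ord y := by
          have e : a i = y + -(y - a i) := by ring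
          rw [e]
          refine (P.ord_add_eq hy0 (neg_ne_zero.2 (hne' i)) ?_).2
          rw [P.ord_neg]
          exact h
        have h4 := (abs_le.1 (ha i)).1
        rw [h3] at h4
        have h5 := le_max_left (P.ord (y - a i)) 0
        linarith
    have h3 : ∑ i, P.ord ((y - a i) * y⁻¹) ≤ μ + q * B + q * B := by
      have h4 : ∑ i, P.ord ((y - a i) * y⁻¹) ≤ ∑ i : Fin q, (max (P.ord (y - a i)) 0 + B) :=
        Finset.sum_le_sum fun i _ => h2 i
      rw [Finset.sum_add_distrib, Finset.sum_const, Finset.card_univ, Fintype.card_fin,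
        nsmul_eq_mul] at h4
      linarith
    have h4 := mul_le_mul_of_nonneg_left h3 hn0
    linarith

end loc

/-- **The height inequality.** -/
theorem core {s n n' q : ℕ} (hs : 0 < s) (hnn : n * (2 * s + 1) < n' * s) : ∃ C : ℕ,
    ∀ (k K : Type) [Field k] [Field K] [Algebra k K] [CharZero k] [IsFF k K] [IsAlgClosed k]
      (I : Type) [Fintype I] (t : I → K) (y u : K) (a : Fin q → K) (S : Finset (Place k K)),
      y ≠ 0 → u ≠ 0 → (∀ i, y ≠ a i) → (∀ i j, i ≠ j → a i ≠ a j) →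
      (∀ P : Place k K, (∀ i, |P.ord (a i)| ≤ ∑ ι, |P.ord (t ι)|) ∧
        (∀ i j, i ≠ j → |P.ord (a i - a j)| ≤ ∑ ι, |P.ord (t ι)|) ∧
        ∀ g, g = u ∨ g = u * y ^ n' →
          (Ge P 0 y → Ge P (-(∑ ι, |P.ord (t ι)|)) (g * ∏ i, (y - a i) ^ n)) ∧
          (Ge P 0 y⁻¹ → Ge P (-(∑ ι, |P.ord (t ι)|)) (g * ∏ i, ((y - a i) * y⁻¹) ^ n))) →
      (∀ P ∉ S, Ge P 0 u ∧ Ge P 0 (u * y ^ n')) →
      hgt k y ≤ C * (max (canDeg k K + S.card) 0 + ∑ i, hgt k (a i) + ∑ ι, hgt k (t ι)) := by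
  classical
  obtain ⟨C1, hC1⟩ := roth q s hs
  refine ⟨n * C1 + 2 * s * (2 * n * q + 1), ?_⟩
  intro k K _ _ _ _ _ _ I _ t y u a S hy0 hu0 hya haa hloc hS
  obtain ⟨B, hB⟩ : ∃ B : Place k K → ℤ, B = fun P => ∑ ι, |P.ord (t ι)| := ⟨_, rfl⟩
  have hBP : ∀ P, B P = ∑ ι, |P.ord (t ι)| := fun P => by rw [hB]
  have hB0 : ∀ P, 0 ≤ B P := fun P => by
    rw [hB]
    exact Finset.sum_nonneg fun _ _ => abs_nonneg _
  obtain ⟨μ, hμd⟩ : ∃ μ : Place k K → ℤ, μ = fun P =>
    ((Finset.univ.sup fun i => (P.ord (y - a i)).toNat : ℕ) : ℤ) := ⟨_, rfl⟩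
  have hμ0 : ∀ P, 0 ≤ μ P := fun P => by
    rw [hμd]
    exact Int.natCast_nonneg _
  have hμ1 : ∀ P i, P.ord (y - a i) ≤ μ P := fun P i => by
    have h1 := Finset.le_sup (f := fun i => (P.ord (y - a i)).toNat) (Finset.mem_univ i)
    have h2 : ((P.ord (y - a i)).toNat : ℤ) ≤ μ P := by
      simp only [hμd]
      exact_mod_cast h1
    exact (Int.self_le_toNat _).trans h2
  have hμ2 : ∀ P, μ P = 0 ∨ ∃ i, μ P = P.ord (y - a i) := fun P => by
    by_cases h0 : μ P = 0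
    · exact Or.inl h0
    right
    have hpos : 0 < μ P := lt_of_le_of_ne (hμ0 P) (Ne.symm h0)
    have hne : (Finset.univ : Finset (Fin q)).Nonempty := by
      by_contra hcon
      rw [Finset.not_nonempty_iff_eq_empty] at hcon
      rw [hμd] at hpos
      simp only at hpos
      rw [hcon, Finset.sup_empty] at hpos
      exact absurd hpos (by norm_num)
    obtain ⟨i, -, hi⟩ := Finset.exists_mem_eq_sup (Finset.univ : Finset (Fin q)) hne
      fun i => (P.ord (y - a i)).toNat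
    refine ⟨i, ?_⟩
    have h1 : μ P = ((P.ord (y - a i)).toNat : ℤ) := by
      simp only [hμd]
      exact_mod_cast hi
    rw [h1] at hpos ⊢
    omega
  have hkey : ∀ P, ∀ g, g = u ∨ g = u * y ^ n' → -P.ord g ≤ n * μ P + (2 * n * q + 1) * B P := by
    intro P g hg
    obtain ⟨h1, h2, h3⟩ := hloc P
    rw [← hBP] at h3
    have hg0 : g ≠ 0 := by
      rcases hg with rfl | rfl
      · exact hu0
      · exact mul_ne_zero hu0 (pow_ne_zero _ hy0)
    exact local_key P hy0 hg0 hya (hB0 P) (fun i => by rw [hBP]; exact h1 i)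
      (fun i j hij => by rw [hBP]; exact h2 i j hij) haa (h3 g hg).1 (h3 g hg).2 (hμ0 P)
      (hμ1 P) (hμ2 P)
  -- a finite set of places
  obtain ⟨T1, hT1⟩ := exists_supp (k := k) (Finset.univ : Finset I) t
  obtain ⟨T2, hT2⟩ := exists_supp (k := k) (Finset.univ : Finset (Fin 2)) ![y, u]
  obtain ⟨T, hT⟩ : ∃ T : Finset (Place k K), T = T1 ∪ T2 ∪ S := ⟨_, rfl⟩
  have hST : S ⊆ T := by
    rw [hT]
    exact Finset.subset_union_right
  have hyT : ∀ P, P.ord y ≠ 0 → P ∈ T := fun P hP => by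
    rw [hT]
    exact Finset.mem_union_left _ (Finset.mem_union_right _ (hT2 0 (Finset.mem_univ _) P hP))
  have huT : ∀ P, P.ord u ≠ 0 → P ∈ T := fun P hP => by
    rw [hT]
    exact Finset.mem_union_left _ (Finset.mem_union_right _ (hT2 1 (Finset.mem_univ _) P hP))
  have htT : ∀ ι P, P.ord (t ι) ≠ 0 → P ∈ T := fun ι P hP => by
    rw [hT]
    exact Finset.mem_union_left _ (Finset.mem_union_left _ (hT1 ι (Finset.mem_univ _) P hP))
  have h1 := sum_ord_finset (k := k) u T huT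
  have h2 : hgt k y = ∑ P ∈ T, max (-P.ord y) 0 := hgt_finset y T hyT
  have h3 : ∑ P ∈ T, B P = 2 * ∑ ι, hgt k (t ι) := by
    rw [hB, Finset.sum_comm, Finset.mul_sum]
    refine Finset.sum_congr rfl fun ι _ => ?_
    have e1 : hgt k (t ι) = ∑ P ∈ T, max (-P.ord (t ι)) 0 := hgt_finset _ T (htT ι)
    have e2 : hgt k (t ι)⁻¹ = ∑ P ∈ T, max (-P.ord (t ι)⁻¹) 0 := hgt_finset _ T fun P hP => by
      rw [P.ord_inv] at hP
      exact htT ι P fun h => hP (by rw [h, neg_zero])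
    have e3 : ∑ P ∈ T, |P.ord (t ι)| = hgt k (t ι) + hgt k (t ι)⁻¹ := by
      rw [e1, e2, ← Finset.sum_add_distrib]
      refine Finset.sum_congr rfl fun P _ => ?_
      rw [P.ord_inv, neg_neg]
      rcases le_or_gt 0 (P.ord (t ι)) with h | h
      · rw [abs_of_nonneg h, max_eq_right (by omega), max_eq_left h, zero_add]
      · rw [abs_of_neg h, max_eq_left (by omega), max_eq_right h.le, add_zero]
    rw [e3, hgt_inv]
    ring
  have h4 : n' * hgt k y ≤ ∑ P ∈ S, (n * μ P + (2 * n * q + 1) * B P) := by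
    have e1 : (n' : ℤ) * hgt k y = ∑ P ∈ T, (n' * max (-P.ord y) 0 - P.ord u) := by
      rw [Finset.sum_sub_distrib, h1, sub_zero, ← Finset.mul_sum, h2]
    rw [e1, ← Finset.sum_sdiff hST]
    have e2 : ∀ P : Place k K, (n' : ℤ) * max (-P.ord y) 0 - P.ord u =
        max (-P.ord (u * y ^ n')) (-P.ord u) := by
      intro P
      rw [P.ord_mul hu0 (pow_ne_zero _ hy0), P.ord_pow]
      have hn' : (0 : ℤ) ≤ n' := Int.natCast_nonneg _
      rcases le_or_gt 0 (P.ord y) with h | h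
      · rw [max_eq_right (by omega : -P.ord y ≤ 0), max_eq_right]
        · ring
        · have := mul_nonneg hn' h
          linarith
      · rw [max_eq_left (by omega : 0 ≤ -P.ord y), max_eq_left]
        · ring
        · have := mul_nonneg hn' (by omega : 0 ≤ -P.ord y)
          linarith
    have e3 : ∑ P ∈ T \ S, ((n' : ℤ) * max (-P.ord y) 0 - P.ord u) ≤ 0 := by
      refine Finset.sum_nonpos fun P hP => ?_
      rw [e2]
      obtain ⟨a1, a2⟩ := hS P (Finset.mem_sdiff.1 hP).2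
      have b1 := a1.resolve_left hu0
      have b2 := a2.resolve_left (mul_ne_zero hu0 (pow_ne_zero _ hy0))
      exact max_le (by omega) (by omega)
    have e4 : ∑ P ∈ S, ((n' : ℤ) * max (-P.ord y) 0 - P.ord u) ≤
        ∑ P ∈ S, (n * μ P + (2 * n * q + 1) * B P) := by
      refine Finset.sum_le_sum fun P _ => ?_
      rw [e2]
      exact max_le (hkey P _ (Or.inr rfl)) (hkey P _ (Or.inl rfl))
    linarith
  rw [Finset.sum_add_distrib, ← Finset.mul_sum, ← Finset.mul_sum] at h4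
  have h5 : ∑ P ∈ S, B P ≤ 2 * ∑ ι, hgt k (t ι) := by
    rw [← h3]
    exact Finset.sum_le_sum_of_subset_of_nonneg hST fun P _ _ => hB0 P
  have h6 := hC1 k K a y hya S μ fun P _ => by
    rcases hμ2 P with h | ⟨i, h⟩
    · exact Or.inl h.le
    · exact Or.inr ⟨i, h.le⟩
  have hχ : 0 ≤ max (canDeg k K + S.card) 0 := le_max_right _ _
  have hHa : 0 ≤ ∑ i, hgt k (a i) := Finset.sum_nonneg fun i _ => hgt_nonneg _
  have hHt : 0 ≤ ∑ ι, hgt k (t ι) := Finset.sum_nonneg fun i _ => hgt_nonneg _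
  have hyh : 0 ≤ hgt k y := hgt_nonneg _
  obtain ⟨χ, hχd⟩ : ∃ χ, χ = max (canDeg k K + S.card) 0 := ⟨_, rfl⟩
  obtain ⟨Ha, hHad⟩ : ∃ Ha, Ha = ∑ i, hgt k (a i) := ⟨_, rfl⟩
  obtain ⟨Ht, hHtd⟩ : ∃ Ht, Ht = ∑ ι, hgt k (t ι) := ⟨_, rfl⟩
  obtain ⟨m1, hm1⟩ : ∃ m1, m1 = ∑ P ∈ S, μ P := ⟨_, rfl⟩
  obtain ⟨m2, hm2⟩ : ∃ m2, m2 = ∑ P ∈ S, B P := ⟨_, rfl⟩
  obtain ⟨H, hH⟩ : ∃ H, H = hgt k y := ⟨_, rfl⟩
  rw [← hχd, ← hHad, ← hHtd, ← hH]
  rw [← hm1, ← hm2, ← hH] at h4
  rw [← hm2, ← hHtd] at h5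
  rw [← hχd, ← hHad, ← hm1, ← hH] at h6
  rw [← hχd] at hχ
  rw [← hHad] at hHa
  rw [← hHtd] at hHt
  rw [← hH] at hyh
  have hs0 : (0 : ℤ) ≤ s := Int.natCast_nonneg _
  have hn0 : (0 : ℤ) ≤ n := Int.natCast_nonneg _
  have hq0 : (0 : ℤ) ≤ 2 * n * q + 1 := by positivity
  have h7 := mul_le_mul_of_nonneg_left h4 hs0
  have h8 := mul_le_mul_of_nonneg_left h6 hn0
  have h9 : (s : ℤ) * ((2 * n * q + 1) * m2) ≤ s * ((2 * n * q + 1) * (2 * Ht)) :=
    mul_le_mul_of_nonneg_left (mul_le_mul_of_nonneg_left h5 hq0) hs0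
  have h10 : ((n : ℤ) * (2 * s + 1) + 1) * H ≤ (n' * s) * H := by
    refine mul_le_mul_of_nonneg_right ?_ hyh
    have : n * (2 * s + 1) + 1 ≤ n' * s := hnn
    exact_mod_cast this
  have h11 : H ≤ n * (C1 * (χ + Ha)) + s * ((2 * n * q + 1) * (2 * Ht)) := by
    linarith
  have h12 : 0 ≤ (n : ℤ) * C1 * Ht := by positivity
  have h13 : 0 ≤ 2 * (s : ℤ) * (2 * n * q + 1) * (χ + Ha) := by positivity
  push_cast
  linarith

end Pool.Agent.K4H62.HF
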