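import Pool.Agent.W603.PV.Ext

/-!
Fibrations of varieties in hyperbolic affine curves: the definitions.

`k` is an algebraically closed field of characteristic zero. An affine variety is given by its
coordinate ring, a finitely generated `k`-algebra which is a domain. `FF.IsFF k E` says that `E` is a
function field of one variable over `k`, `FF.Place k E` is the type of its places (the points of the
smooth projective curve with function field `E`), `canDeg k E` is `2 g - 2`, and `hgt k f` is the
degree of the divisor of the poles of `f`, that is, the degree of `f` as a map to the projective
line.
-/

set_option autoImplicit false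

open FF Pool.Agent.W603.LV

namespace Pool.Agent.K4H62.HF

section fibre

variable {k M : Type} [Field k] [Field M] [Algebra k M]

/-- A function `w` on the smooth projective curve over `Ω` with function field `M` is regular on the
affine curve `V` whose points are the places of `M` where all elements of `B` are regular. -/
def Regular (B : Type) [CommRing B] [Algebra B M] (Ω : IntermediateField k M) (w : M) : Prop :=
  ∀ Q : Place Ω M, (∀ b : B, 0 ≤ Q.ord (algebraMap B M b)) → 0 ≤ Q.ord w

/-- The function field over `Ω` generated by `B`. -/
def fieldOf (B : Type) [CommRing B] [Algebra B M] (Ω : IntermediateField k M) :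
    IntermediateField Ω M :=
  IntermediateField.adjoin Ω (Set.range (algebraMap B M))

/-- An etale covering `V → U` of affine curves, with the fields of functions `M` and `K1`, where
`Reg w` says that the function `w` is regular on `V`: there are functions `θ i` in `M` which are roots
of monic polynomials `f i` over `K1` with regular coefficients, such that each `θ i` generates `M`,
and such that the derivatives `f i' (θ i)` generate the unit ideal of the ring of the regular
functions of `V`. -/
def EtaleOver (K1 M : Type) [Field K1] [Field M] [Algebra K1 M] (Reg : M → Prop) : Prop :=
  ∃ (p : ℕ) (θ c : Fin p → M) (f : Fin p → Polynomial K1),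
    (∀ i, (f i).Monic ∧ (∀ j, Reg (algebraMap K1 M ((f i).coeff j))) ∧ Reg (c i) ∧
      Polynomial.aeval (θ i) (f i) = 0 ∧ IntermediateField.adjoin K1 {θ i} = ⊤) ∧
    ∑ i, c i * Polynomial.aeval (θ i) (Polynomial.derivative (f i)) = 1

/-- The curve `V` is a finite etale covering of (the normalization of) the curve `U = Spec (Ω B)`. -/
def Etale (B : Type) [CommRing B] [Algebra B M] (Ω : IntermediateField k M) : Prop :=
  EtaleOver (fieldOf B Ω) M (Regular B Ω)

/-- The dominant morphism `X = Spec B → Y = Spec B0` is a fibration in hyperbolic affine curves:
`Ω` is an algebraic closure of the field of functions of `Y`, and `M` is the field of functions of a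
finite etale covering `V` of a component `U` of the geometric generic fibre; `V` is an affine curve
over `Ω`, and the number of its punctures is larger than `2 d` for the degree `d` of some
nonconstant function `y` on its smooth completion.

Every affine curve over `Ω` of log general type (genus `g`, `s ≥ 1` punctures and `2 g - 2 + s > 0`)
has finite etale coverings with this property. -/
structure HyperbolicFibres (B0 B : Type) [CommRing B0] [CommRing B] [Algebra B0 B] [Algebra B0 M]
    [Algebra B M] (Ω : IntermediateField k M) : Prop where
  inj0 : Function.Injective (algebraMap B0 B)
  inj : Function.Injective (algebraMap B M)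
  base : ∀ b : B0, algebraMap B0 M b ∈ Ω
  alg : ∀ c ∈ Ω, IsAlgebraic B0 c
  closed : IsAlgClosed Ω
  ff : IsFF Ω M
  etale : Etale B Ω
  gon : ∃ y : M, y ∉ Ω ∧
    2 * hgt Ω y < {Q : Place Ω M | ∃ b : B, Q.ord (algebraMap B M b) < 0}.ncard

end fibre

end Pool.Agent.K4H62.HF
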