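import Pool.Agent.K4H62.HF.IntS
import Pool.Agent.Helper386.D5V.Helper386_FF_Riemann

/-!
Geometry of a curve over an algebraically closed field: auxiliary functions.
-/

set_option autoImplicit false
set_option linter.overlappingInstances false
set_option linter.unusedSectionVars false

open FF Pool.Agent.W603.LV Pool.Agent.W603.PV

namespace Pool.Agent.K4H62.HF

section rr

variable {Ω M : Type} [Field Ω] [Field M] [Algebra Ω M] [CharZero Ω] [IsAlgClosed Ω] [IsFF Ω M]

/-- poles at the places in `S`, of order at most `n` -/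
def Bdd (S : Finset (Place Ω M)) (n : ℕ) (g : M) : Prop :=
  ∀ Q : Place Ω M, (Q ∈ S → -(n : ℤ) ≤ Q.ord g) ∧ (Q ∉ S → 0 ≤ Q.ord g)

/-- **The auxiliary function**: few poles at the punctures, many zeros at the poles of `y`. -/
theorem exists_u (S : Finset (Place Ω M)) {y : M} (hy : Transcendental Ω y)
    (hq : 2 * hgt Ω y < S.card) : ∃ (s n n' : ℕ) (u : M), 0 < s ∧ 0 < n ∧
      n * (2 * s + 1) < n' * s ∧ u ≠ 0 ∧ Bdd S n u ∧ Bdd S n (u * y ^ n') := by
  classical
  obtain ⟨γ, -, hγ, -⟩ := riemann Ω M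
  obtain ⟨d, hd⟩ : ∃ d : ℕ, (d : ℤ) = hgt Ω y := ⟨(hgt Ω y).toNat, by
    rw [Int.toNat_of_nonneg (hgt_nonneg _)]⟩
  obtain ⟨s, hs⟩ : ∃ s : ℕ, s = d + 1 := ⟨_, rfl⟩
  obtain ⟨t, ht⟩ : ∃ t : ℕ, t = d + γ.toNat + 1 := ⟨_, rfl⟩
  obtain ⟨n, hn⟩ : ∃ n : ℕ, n = s * t := ⟨_, rfl⟩
  obtain ⟨n', hn'⟩ : ∃ n' : ℕ, n' = (2 * s + 1) * t + 1 := ⟨_, rfl⟩
  have hy0 : y ≠ 0 := by
    rintro rfl
    exact hy isAlgebraic_zero
  obtain ⟨D, hD⟩ : ∃ D : Place Ω M →₀ ℤ, D = (∑ Q ∈ S, Finsupp.single Q (n : ℤ)) -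
    n' • polar (k := Ω) y := ⟨_, rfl⟩
  have hDQ : ∀ Q, D Q = (if Q ∈ S then (n : ℤ) else 0) - n' * max (-Q.ord y) 0 := by
    intro Q
    rw [hD, Finsupp.sub_apply, Finsupp.smul_apply, polar_apply, nsmul_eq_mul,
      Finsupp.finsetSum_apply]
    congr 1
    simp [Finsupp.single_apply]
  have hdeg : ddeg D = n * S.card - n' * d := by
    rw [hD, ddeg_sub, ddeg_nsmul, ddeg_polar hy, ← hgt_eq_finrank hy, ← hd]
    congr 1
    have h1 : ∀ T : Finset (Place Ω M), ddeg (∑ Q ∈ T, Finsupp.single Q (n : ℤ)) =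
        n * T.card := by
      intro T
      induction T using Finset.induction_on with
      | empty => rw [Finset.sum_empty, ddeg_zero]; simp
      | insert a T ha ih =>
        rw [Finset.sum_insert ha, ddeg_add, ih, ddeg_single, deg_one, Finset.card_insert_of_notMem ha]
        push_cast
        ring
    exact h1 S
  have hpos : 0 < ell D := by
    have h1 := hγ D
    rw [hdeg] at h1
    have h2 : (2 * (d : ℤ) + 1) ≤ S.card := by
      rw [← hd] at hq
      omega
    have h3 : (n : ℤ) * (2 * d + 1) ≤ n * S.card :=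
      mul_le_mul_of_nonneg_left h2 (Int.natCast_nonneg n)
    have h4 : (n : ℤ) * (2 * d + 1) - n' * d = t - d := by
      rw [hn, hn', hs]
      push_cast
      ring
    have h5 : (t : ℤ) - d = γ.toNat + 1 := by
      rw [ht]
      push_cast
      ring
    have h6 := Int.self_le_toNat γ
    linarith
  obtain ⟨u, hu, hu0⟩ := exists_ne_zero_of_ell_pos hpos
  have hu' := hu.resolve_left hu0
  have huQ : ∀ Q : Place Ω M, -(if Q ∈ S then (n : ℤ) else 0) + n' * max (-Q.ord y) 0 ≤
      Q.ord u := fun Q => by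
    have h1 := hu' Q
    rw [hDQ] at h1
    linarith
  have hn'0 : (0 : ℤ) ≤ n' := Int.natCast_nonneg _
  have hbdd : ∀ g : M, (∀ Q : Place Ω M, -(if Q ∈ S then (n : ℤ) else 0) ≤ Q.ord g) →
      Bdd S n g := by
    intro g hg Q
    have h1 := hg Q
    refine ⟨fun hQ => ?_, fun hQ => ?_⟩
    · rwa [if_pos hQ] at h1
    · rwa [if_neg hQ, neg_zero] at h1
  refine ⟨s, n, n', u, by omega, ?_, ?_, hu0, hbdd _ fun Q => ?_, hbdd _ fun Q => ?_⟩
  · rw [hn]
    exact Nat.mul_pos (by omega) (by omega)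
  · rw [hn, hn']
    have h1 : ((2 * s + 1) * t + 1) * s = s * t * (2 * s + 1) + s := by ring
    omega
  · have h1 := huQ Q
    have h2 : 0 ≤ (n' : ℤ) * max (-Q.ord y) 0 := mul_nonneg hn'0 (le_max_right _ _)
    linarith
  · rw [Q.ord_mul hu0 (pow_ne_zero _ hy0), Q.ord_pow]
    have h1 := huQ Q
    have h2 : 0 ≤ (n' : ℤ) * (max (-Q.ord y) 0 + Q.ord y) :=
      mul_nonneg hn'0 (by have := le_max_left (-Q.ord y) 0; linarith)
    linarith

theorem ord_sub_const (Q : Place Ω M) {y : M} (hy : Transcendental Ω y) (c : Ω)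
    (h : Q.ord y < 0) : Q.ord (y - algebraMap Ω M c) = Q.ord y := by
  by_cases hc : c = 0
  · rw [hc, map_zero, sub_zero]
  have hy0 : y ≠ 0 := by
    rintro rfl
    exact hy isAlgebraic_zero
  rw [sub_eq_add_neg]
  refine (Q.ord_add_eq hy0 (by simpa using hc) ?_).2
  rw [Q.ord_neg, Q.ord_const hc]
  exact h

theorem max_sub_const (Q : Place Ω M) {y : M} (hy : Transcendental Ω y) (c : Ω) :
    max (-Q.ord (y - algebraMap Ω M c)) 0 = max (-Q.ord y) 0 := by
  rcases lt_or_ge (Q.ord y) 0 with h | h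
  · rw [ord_sub_const Q hy c h]
  · rw [max_eq_right (by omega : -Q.ord y ≤ 0)]
    have h0 : Ge Q 0 y := Or.inr h
    have h1 : Ge Q 0 (y - algebraMap Ω M c) := h0.sub (Ge.const c)
    rcases h1 with h1 | h1
    · rw [h1, Q.ord_zero]
      rfl
    · exact max_eq_right (by omega)

theorem hgt_sub_const {y : M} (hy : Transcendental Ω y) (c : Ω) :
    hgt Ω (y - algebraMap Ω M c) = hgt Ω y := by
  unfold hgt
  exact finsum_congr fun Q => max_sub_const Q hy c

/-- A fractional linear transformation makes `y` regular at the punctures. -/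
theorem exists_regular (S : Finset (Place Ω M)) {y : M} (hy : Transcendental Ω y)
    (hq : 2 * hgt Ω y < S.card) : ∃ y1 : M, Transcendental Ω y1 ∧ 2 * hgt Ω y1 < S.card ∧
      ∀ Q ∈ S, 0 ≤ Q.ord y1 := by
  classical
  have h1 : ∀ Q : Place Ω M, ∃ c : Ω, 0 ≤ Q.ord y → Ge Q 1 (y - algebraMap Ω M c) := by
    intro Q
    by_cases h : 0 ≤ Q.ord y
    · obtain ⟨c, hc⟩ := exists_const Q (Or.inr h : Ge Q 0 y)
      exact ⟨c, fun _ => hc⟩
    · exact ⟨0, fun h' => absurd h' h⟩
  choose c hc using h1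
  obtain ⟨l, hl⟩ := Infinite.exists_notMem_finset (S.image c)
  have hne : y - algebraMap Ω M l ≠ 0 := by
    intro h0
    rw [sub_eq_zero] at h0
    exact hy (h0 ▸ isAlgebraic_algebraMap l)
  have htr : Transcendental Ω (y - algebraMap Ω M l) := by
    intro h
    apply hy
    have := h.add (isAlgebraic_algebraMap (A := M) l)
    rwa [sub_add_cancel] at this
  refine ⟨(y - algebraMap Ω M l)⁻¹, fun h => htr (by simpa using h.inv), ?_, fun Q hQ => ?_⟩
  · rw [hgt_inv, hgt_sub_const hy]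
    exact hq
  · rw [Q.ord_inv]
    rcases lt_or_ge (Q.ord y) 0 with h | h
    · rw [ord_sub_const Q hy l h]
      omega
    · have hlc : l ≠ c Q := fun h => hl (by rw [h]; exact Finset.mem_image_of_mem c hQ)
      have h2 := hc Q h
      have h3 : y - algebraMap Ω M l = algebraMap Ω M (c Q - l) + (y - algebraMap Ω M (c Q)) := by
        rw [map_sub]
        ring
      have h4 : c Q - l ≠ 0 := sub_ne_zero.2 hlc.symm
      rcases h2 with h2 | h2
      · rw [h3, h2, add_zero, Q.ord_const h4, neg_zero]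
      · by_cases h5 : y - algebraMap Ω M (c Q) = 0
        · rw [h5, Q.ord_zero] at h2
          omega
        · have h6 : algebraMap Ω M (c Q - l) ≠ 0 := fun h => h4 ((map_eq_zero _).1 h)
          rw [h3, (Q.ord_add_eq h6 h5 (by rw [Q.ord_const h4]; omega)).2,
            Q.ord_const h4, neg_zero]

/-- the values at the punctures -/
theorem exists_values (S : Finset (Place Ω M)) {y : M} (hy : Transcendental Ω y)
    (hS : ∀ Q ∈ S, 0 ≤ Q.ord y) : ∃ (q : ℕ) (α : Fin q → Ω), Function.Injective α ∧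
      ∀ Q ∈ S, ∃ i, 1 ≤ Q.ord (y - algebraMap Ω M (α i)) := by
  classical
  have h1 : ∀ Q : Place Ω M, ∃ c : Ω, 0 ≤ Q.ord y → Ge Q 1 (y - algebraMap Ω M c) := by
    intro Q
    by_cases h : 0 ≤ Q.ord y
    · obtain ⟨c, hc⟩ := exists_const Q (Or.inr h : Ge Q 0 y)
      exact ⟨c, fun _ => hc⟩
    · exact ⟨0, fun h' => absurd h' h⟩
  choose c hc using h1
  refine ⟨(S.image c).card, fun i => ((S.image c).equivFin.symm i : Ω), ?_, fun Q hQ => ?_⟩
  · exact Subtype.val_injective.comp (S.image c).equivFin.symm.injective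
  · refine ⟨(S.image c).equivFin ⟨c Q, Finset.mem_image_of_mem c hQ⟩, ?_⟩
    simp only [Equiv.symm_apply_apply]
    have h2 := hc Q (hS Q hQ)
    refine h2.resolve_left fun h0 => ?_
    rw [sub_eq_zero] at h0
    exact hy (h0 ▸ isAlgebraic_algebraMap _)

/-- integrality of the local equations -/
theorem int_charts (S : Finset (Place Ω M)) {y : M} (hy : Transcendental Ω y)
    (hS : ∀ Q ∈ S, 0 ≤ Q.ord y) {q : ℕ} {α : Fin q → Ω}
    (hα : ∀ Q ∈ S, ∃ i, 1 ≤ Q.ord (y - algebraMap Ω M (α i))) {n : ℕ} {g : M} (hg0 : g ≠ 0)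
    (hg : Bdd S n g) :
    IsIntegral (Algebra.adjoin Ω {y}) (g * ∏ i, (y - algebraMap Ω M (α i)) ^ n) ∧
    IsIntegral (Algebra.adjoin Ω {y⁻¹}) (g * ∏ i, ((y - algebraMap Ω M (α i)) * y⁻¹) ^ n) := by
  classical
  have hy0 : y ≠ 0 := by
    rintro rfl
    exact hy isAlgebraic_zero
  have hne : ∀ i, y - algebraMap Ω M (α i) ≠ 0 := fun i h0 => by
    rw [sub_eq_zero] at h0
    exact hy (h0 ▸ isAlgebraic_algebraMap _)
  have hord : ∀ (Q : Place Ω M) (f : Fin q → M), (∀ i, f i ≠ 0) →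
      Q.ord (∏ i, f i ^ n) = n * ∑ i, Q.ord (f i) := by
    intro Q f hf
    have h1 : ∀ s : Finset (Fin q), Q.ord (∏ i ∈ s, f i ^ n) = n * ∑ i ∈ s, Q.ord (f i) := by
      intro s
      induction s using Finset.induction_on with
      | empty => simpa using Q.ord_one
      | insert a s ha ih =>
        rw [Finset.prod_insert ha, Finset.sum_insert ha, Q.ord_mul (pow_ne_zero _ (hf a))
          (Finset.prod_ne_zero_iff.2 fun i _ => pow_ne_zero _ (hf i)), Q.ord_pow, ih]
        ring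
    exact h1 Finset.univ
  constructor
  · refine Pool.Agent.W619.TW.integral_of_reg hy fun Q hQ => ?_
    have hyQ : 0 ≤ Q.ord y := (Q.reg_iff hy0).1 hQ
    right
    rw [Q.ord_mul hg0 (Finset.prod_ne_zero_iff.2 fun i _ => pow_ne_zero _ (hne i)), hord Q _ hne]
    have hyQ' : Ge Q 0 y := Or.inr hyQ
    have h0 : ∀ i, 0 ≤ Q.ord (y - algebraMap Ω M (α i)) := fun i =>
      (hyQ'.sub (Ge.const (α i))).resolve_left (hne i)
    by_cases hQS : Q ∈ S
    · have h1 := (hg Q).1 hQS
      obtain ⟨i, hi⟩ := hα Q hQS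
      have h2 := Finset.single_le_sum (f := fun i => Q.ord (y - algebraMap Ω M (α i)))
        (fun i _ => h0 i) (Finset.mem_univ i)
      have h3 : (1 : ℤ) ≤ ∑ i, Q.ord (y - algebraMap Ω M (α i)) := hi.trans h2
      have h4 : (n : ℤ) * 1 ≤ n * ∑ i, Q.ord (y - algebraMap Ω M (α i)) :=
        mul_le_mul_of_nonneg_left h3 (Int.natCast_nonneg n)
      linarith
    · have h1 := (hg Q).2 hQS
      have h2 : 0 ≤ ∑ i, Q.ord (y - algebraMap Ω M (α i)) := Finset.sum_nonneg fun i _ => h0 i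
      have h3 : 0 ≤ (n : ℤ) * ∑ i, Q.ord (y - algebraMap Ω M (α i)) :=
        mul_nonneg (Int.natCast_nonneg n) h2
      linarith
  · have hyi : Transcendental Ω y⁻¹ := fun h => hy (by simpa using h.inv)
    refine Pool.Agent.W619.TW.integral_of_reg hyi fun Q hQ => ?_
    have hyQ : Q.ord y ≤ 0 := by
      have := (Q.reg_iff (inv_ne_zero hy0)).1 hQ
      rw [Q.ord_inv] at this
      omega
    have hne' : ∀ i, (y - algebraMap Ω M (α i)) * y⁻¹ ≠ 0 := fun i =>
      mul_ne_zero (hne i) (inv_ne_zero hy0)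
    right
    rw [Q.ord_mul hg0 (Finset.prod_ne_zero_iff.2 fun i _ => pow_ne_zero _ (hne' i)),
      hord Q _ hne']
    have h0 : ∀ i, 0 ≤ Q.ord ((y - algebraMap Ω M (α i)) * y⁻¹) := fun i => by
      have e : (y - algebraMap Ω M (α i)) * y⁻¹ = 1 - algebraMap Ω M (α i) * y⁻¹ := by
        field_simp
      have h1 : Ge Q 0 (1 - algebraMap Ω M (α i) * y⁻¹) := by
        have h2 : Ge Q 0 y⁻¹ := Or.inr (by rw [Q.ord_inv]; omega)
        have h3 := (Ge.const (P := Q) (α i)).mul h2
        rw [zero_add] at h3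
        exact Ge.one.sub h3
      rw [← e] at h1
      exact h1.resolve_left (hne' i)
    by_cases hQS : Q ∈ S
    · have h1 := (hg Q).1 hQS
      have hyQ' : Q.ord y = 0 := le_antisymm hyQ (hS Q hQS)
      obtain ⟨i, hi⟩ := hα Q hQS
      have h2 := Finset.single_le_sum (f := fun i => Q.ord ((y - algebraMap Ω M (α i)) * y⁻¹))
        (fun i _ => h0 i) (Finset.mem_univ i)
      have h3 : (1 : ℤ) ≤ ∑ i, Q.ord ((y - algebraMap Ω M (α i)) * y⁻¹) := by
        refine le_trans ?_ h2
        rw [Q.ord_mul (hne i) (inv_ne_zero hy0), Q.ord_inv, hyQ']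
        linarith
      have h4 : (n : ℤ) * 1 ≤ n * ∑ i, Q.ord ((y - algebraMap Ω M (α i)) * y⁻¹) :=
        mul_le_mul_of_nonneg_left h3 (Int.natCast_nonneg n)
      linarith
    · have h1 := (hg Q).2 hQS
      have h2 : 0 ≤ ∑ i, Q.ord ((y - algebraMap Ω M (α i)) * y⁻¹) :=
        Finset.sum_nonneg fun i _ => h0 i
      have h3 : 0 ≤ (n : ℤ) * ∑ i, Q.ord ((y - algebraMap Ω M (α i)) * y⁻¹) :=
        mul_nonneg (Int.natCast_nonneg n) h2
      linarith

end rr

section lc

variable {k M : Type} [Field k] [Field M] [Algebra k M] [Infinite k] {Ω : IntermediateField k M}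

/-- a linear combination with poles at given places -/
theorem exists_comb {N : ℕ} (x : Fin N → M) (S : Finset (Place Ω M))
    (hS : ∀ Q ∈ S, ∃ i, Q.ord (x i) < 0) :
    ∃ c : Fin N → k, ∀ Q ∈ S, Q.ord (∑ i, c i • x i) < 0 := by
  classical
  let W : Place Ω M → Submodule k (Fin N → k) := fun Q =>
    { carrier := {c | Q.Reg (∑ i, c i • x i)}
      zero_mem' := by
        left
        simp
      add_mem' := by
        intro a b ha hb
        have h := Q.reg_add ha hb
        rw [← Finset.sum_add_distrib] at h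
        simpa [add_smul] using h
      smul_mem' := by
        intro l a ha
        change Q.Reg _
        have e : ∑ i, (l • a) i • x i = l • ∑ i, a i • x i := by
          rw [Finset.smul_sum]
          exact Finset.sum_congr rfl fun i _ => by rw [Pi.smul_apply, smul_eq_mul, mul_smul]
        rw [e, Algebra.smul_def]
        have h1 : algebraMap k M l = algebraMap Ω M (algebraMap k Ω l) :=
          IsScalarTower.algebraMap_apply k Ω M l
        rw [h1]
        exact Q.reg_mul (Q.reg_const _) ha }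
  have hW : (⊤ : Submodule k (Fin N → k)) ∉ S.image W := by
    intro h
    rw [Finset.mem_image] at h
    obtain ⟨Q, hQ, hQW⟩ := h
    obtain ⟨i, hi⟩ := hS Q hQ
    have h1 : (Pi.single i 1 : Fin N → k) ∈ W Q := by
      rw [hQW]
      exact Submodule.mem_top
    have h2 : Q.Reg (∑ j, (Pi.single i 1 : Fin N → k) j • x j) := h1
    rw [Finset.sum_eq_single i (fun j _ hj => by rw [Pi.single_eq_of_ne hj, zero_smul])
      (fun h => absurd (Finset.mem_univ i) h), Pi.single_eq_same, one_smul] at h2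
    rcases h2 with h2 | h2
    · rw [h2, Q.ord_zero] at hi
      omega
    · omega
  have h1 := Subspace.biUnion_ne_univ_of_top_notMem hW
  rw [Set.ne_univ_iff_exists_notMem] at h1
  obtain ⟨c, hc⟩ := h1
  refine ⟨c, fun Q hQ => ?_⟩
  by_contra hcon
  push Not at hcon
  apply hc
  rw [Set.mem_iUnion₂]
  exact ⟨W Q, Finset.mem_image_of_mem W hQ, Or.inr hcon⟩

end lc

end Pool.Agent.K4H62.HF
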