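import Pool.Agent.K4H62.HF.Defs
import Pool.Agent.K4H62.HF.Geo

/-!
The functions on the covering of the generic fibre.
-/

set_option autoImplicit false
set_option linter.overlappingInstances false
set_option linter.unusedSectionVars false

open FF Pool.Agent.W603.LV Pool.Agent.W603.PV

namespace Pool.Agent.K4H62.HF

variable {k B M : Type} [Field k] [IsAlgClosed k] [CharZero k] [CommRing B] [Field M]
  [Algebra k B] [Algebra k M] [Algebra B M] [IsScalarTower k B M] {Ω : IntermediateField k M}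

theorem reg_all {N : ℕ} {π : MvPolynomial (Fin N) k →ₐ[k] B} (hπ : Function.Surjective π)
    {ξ : Fin N → M} (hξ : ∀ G, MvPolynomial.aeval ξ G = algebraMap B M (π G)) (Q : Place Ω M)
    (hQ : ∀ i, Q.Reg (ξ i)) (b : B) : Q.Reg (algebraMap B M b) := by
  obtain ⟨G, rfl⟩ := hπ b
  rw [← hξ]
  induction G using MvPolynomial.induction_on with
  | C c =>
    rw [MvPolynomial.aeval_C]
    have h1 : algebraMap k M c = algebraMap Ω M (algebraMap k Ω c) :=
      IsScalarTower.algebraMap_apply k Ω M c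
    rw [h1]
    exact Q.reg_const _
  | add p q hp hq =>
    rw [map_add]
    exact Q.reg_add hp hq
  | mul_X p i hp =>
    rw [map_mul, MvPolynomial.aeval_X]
    exact Q.reg_mul hp (hQ i)

/-- the functions -/
theorem geo_data [IsAlgClosed Ω] [IsFF Ω M] {N : ℕ} {π : MvPolynomial (Fin N) k →ₐ[k] B}
    (hπ : Function.Surjective π) {ξ : Fin N → M}
    (hξ : ∀ G, MvPolynomial.aeval ξ G = algebraMap B M (π G))
    (hgon : ∃ y : M, y ∉ Ω ∧
      2 * hgt Ω y < {Q : Place Ω M | ∃ b : B, Q.ord (algebraMap B M b) < 0}.ncard) :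
    ∃ (q s n n' : ℕ) (y u : M) (v : Fin q → Ω) (cc : Fin N → k), 0 < s ∧
      n * (2 * s + 1) < n' * s ∧ Transcendental Ω y ∧ u ≠ 0 ∧ Function.Injective v ∧
      (∀ g, g = u ∨ g = u * y ^ n' →
        IsIntegral (Algebra.adjoin Ω {y}) (g * ∏ i, (y - algebraMap Ω M (v i)) ^ n) ∧
        IsIntegral (Algebra.adjoin Ω {y⁻¹}) (g * ∏ i, ((y - algebraMap Ω M (v i)) * y⁻¹) ^ n) ∧
        Regular B Ω g) ∧
      ∀ w, Regular B Ω w → IsIntegral (Algebra.adjoin Ω {∑ i, cc i • ξ i}) w := by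
  classical
  have hch : CharZero Ω := charZero_of_injective_algebraMap (algebraMap k Ω).injective
  have hinf : Infinite k := inferInstance
  obtain ⟨T0, hT0⟩ := exists_supp (k := Ω) (Finset.univ : Finset (Fin N)) ξ
  have hex : ∀ Q : Place Ω M, (∃ b : B, Q.ord (algebraMap B M b) < 0) → ∃ i, Q.ord (ξ i) < 0 := by
    rintro Q ⟨b, hb⟩
    by_contra hcon
    push Not at hcon
    rcases reg_all hπ hξ Q (fun i => Or.inr (hcon i)) b with h | h
    · rw [h, Q.ord_zero] at hb
      omega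
    · omega
  have hfin : {Q : Place Ω M | ∃ b : B, Q.ord (algebraMap B M b) < 0}.Finite := by
    refine (Finset.finite_toSet T0).subset ?_
    intro Q hQ
    obtain ⟨i, hi⟩ := hex Q hQ
    exact hT0 i (Finset.mem_univ _) Q hi.ne
  obtain ⟨S, hS⟩ : ∃ S : Finset (Place Ω M), S = hfin.toFinset := ⟨_, rfl⟩
  have hmem : ∀ Q, Q ∈ S ↔ ∃ b : B, Q.ord (algebraMap B M b) < 0 := fun Q => by
    rw [hS]
    simp
  obtain ⟨y0, hy0, hy0q⟩ := hgon
  rw [Set.ncard_eq_toFinset_card _ hfin, ← hS] at hy0q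
  have hy0T : Transcendental Ω y0 := by
    intro hal
    apply hy0
    have h2 := IsAlgClosed.degree_eq_one_of_irreducible Ω (minpoly.irreducible hal.isIntegral)
    obtain ⟨c, hc⟩ := minpoly.mem_range_of_degree_eq_one Ω y0 h2
    rw [← hc]
    exact c.2
  obtain ⟨y, hyT, hyq, hyr⟩ := exists_regular S hy0T hy0q
  obtain ⟨q, v, hvi, hv⟩ := exists_values S hyT hyr
  obtain ⟨s, n, n', u, hs, -, hnn, hu0, hu1, hu2⟩ := exists_u S hyT hyq
  obtain ⟨cc, hcc⟩ := exists_comb (k := k) ξ S fun Q hQ => hex Q ((hmem Q).1 hQ)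
  have hy00 : y ≠ 0 := by
    rintro rfl
    exact hyT isAlgebraic_zero
  have hreg : ∀ g, Bdd S n g → Regular B Ω g := by
    intro g hg Q hQ
    refine (hg Q).2 fun hQS => ?_
    obtain ⟨b, hb⟩ := (hmem Q).1 hQS
    have := hQ b
    omega
  have hbsT : Transcendental Ω (∑ i, cc i • ξ i) := by
    have h1 : 0 < S.card := by
      have := hgt_nonneg (k := Ω) y
      omega
    obtain ⟨Q, hQ⟩ := Finset.card_pos.1 h1
    exact Q.transcendental_of_ord_ne (hcc Q hQ).ne
  refine ⟨q, s, n, n', y, u, v, cc, hs, hnn, hyT, hu0, hvi, ?_, ?_⟩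
  · rintro g (rfl | rfl)
    · obtain ⟨h1, h2⟩ := int_charts S hyT hyr hv hu0 hu1
      exact ⟨h1, h2, hreg _ hu1⟩
    · obtain ⟨h1, h2⟩ := int_charts S hyT hyr hv (mul_ne_zero hu0 (pow_ne_zero _ hy00)) hu2
      exact ⟨h1, h2, hreg _ hu2⟩
  · intro w hw
    refine Pool.Agent.W619.TW.integral_of_reg hbsT fun Q hQ => ?_
    right
    refine hw Q fun b => ?_
    by_contra hneg
    push Not at hneg
    have h1 := hcc Q ((hmem Q).2 ⟨b, hneg⟩)
    rcases hQ with h2 | h2
    · rw [h2, Q.ord_zero] at h1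
      omega
    · omega

/-- the relation given by a monic polynomial -/
theorem monic_rel {F1 : Type} [Field F1] [Algebra F1 M] {f : Polynomial F1} (hf : f.Monic) {x : M}
    (hx : Polynomial.aeval x f = 0) :
    x ^ f.natDegree + ∑ j ∈ Finset.range f.natDegree, algebraMap F1 M (f.coeff j) * x ^ j = 0 := by
  rw [Polynomial.aeval_eq_sum_range, Finset.sum_range_succ, hf.coeff_natDegree, one_smul,
    add_comm] at hx
  rw [← hx]
  congr 1
  exact Finset.sum_congr rfl fun j _ => by rw [Algebra.smul_def]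

end Pool.Agent.K4H62.HF
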