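import Pool.Agent.K4H62.HF.Wron

/-! Polynomial growth, and the spaces spanned by monomials in given functions. -/

set_option autoImplicit false

open FF Pool.Agent.W603.LV

namespace Pool.Agent.K4H62.HF

/-- sequences of polynomial growth do not grow too fast at some place -/
theorem slow (q m : ℕ) (hm : 0 < m) : ∃ R : ℕ, ∀ d : ℕ → ℕ, 1 ≤ d 0 →
    (∀ s, d s ≤ (s + 1) ^ q) → ∃ r, r ≤ R ∧ m * d (r + 1) ≤ (m + 1) * d r := by
  have hm' : (0 : ℝ) < m := by exact_mod_cast hm
  obtain ⟨R, hR⟩ : ∃ R : ℕ, ((R + 1 : ℕ) : ℝ) ^ q < (1 + 1 / (m : ℝ)) ^ R := by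
    have h1 : (1 : ℝ) < 1 + 1 / (m : ℝ) := by
      have : (0 : ℝ) < 1 / (m : ℝ) := by positivity
      linarith
    have h2 := tendsto_pow_const_div_const_pow_of_one_lt q h1
    have h3 : ∀ᶠ n : ℕ in Filter.atTop, (n : ℝ) ^ q / (1 + 1 / (m : ℝ)) ^ n <
        (1 + 1 / (m : ℝ))⁻¹ := by
      refine h2.eventually (gt_mem_nhds ?_)
      positivity
    obtain ⟨N, hN⟩ := Filter.eventually_atTop.1 h3
    refine ⟨N, ?_⟩
    have h4 := hN (N + 1) (by omega)
    rw [div_lt_iff₀ (by positivity)] at h4
    rw [pow_succ] at h4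
    have h5 : (1 + 1 / (m : ℝ))⁻¹ * ((1 + 1 / (m : ℝ)) ^ N * (1 + 1 / (m : ℝ))) =
        (1 + 1 / (m : ℝ)) ^ N := by
      field_simp
    rw [h5] at h4
    exact h4
  refine ⟨R, fun d hd0 hd => ?_⟩
  by_contra hcon
  push Not at hcon
  have h1 : ∀ r, r ≤ R → (1 + 1 / (m : ℝ)) ^ r ≤ d r := by
    intro r
    induction r with
    | zero =>
      intro _
      rw [pow_zero]
      exact_mod_cast hd0
    | succ r ih =>
      intro hr
      have h2 := ih (by omega)
      have h3 : (((m + 1) * d r : ℕ) : ℝ) < ((m * d (r + 1) : ℕ) : ℝ) := by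
        exact_mod_cast hcon r (by omega)
      push_cast at h3
      have h4 : (1 + 1 / (m : ℝ)) * d r ≤ d (r + 1) := by
        have h5 : (1 + 1 / (m : ℝ)) * d r = ((m + 1) * d r) / m := by
          field_simp
        rw [h5, div_le_iff₀ hm']
        linarith
      calc (1 + 1 / (m : ℝ)) ^ (r + 1) = (1 + 1 / (m : ℝ)) * (1 + 1 / (m : ℝ)) ^ r := by
            rw [pow_succ]; ring
        _ ≤ (1 + 1 / (m : ℝ)) * d r := by gcongr
        _ ≤ _ := h4
  have h2 := h1 R le_rfl
  have h3 : ((d R : ℕ) : ℝ) ≤ ((R + 1 : ℕ) : ℝ) ^ q := by exact_mod_cast hd R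
  linarith

section box

variable {k K : Type} [Field k] [Field K] [Algebra k K] {q : ℕ}

/-- the space of the monomials with exponents at most `s` -/
noncomputable def box (k : Type) [Field k] {K : Type} [Field K] [Algebra k K] {q : ℕ}
    (a : Fin q → K) (s : ℕ) : Submodule k K :=
  Submodule.span k (Set.range fun ν : Fin q → Fin (s + 1) => ∏ i, a i ^ (ν i : ℕ))

instance (a : Fin q → K) (s : ℕ) : FiniteDimensional k (box k a s) := by
  unfold box
  exact FiniteDimensional.span_of_finite k (Set.finite_range _)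

theorem finrank_box (a : Fin q → K) (s : ℕ) : Module.finrank k (box k a s) ≤ (s + 1) ^ q := by
  classical
  unfold box
  refine (finrank_range_le_card _).trans ?_
  simp

theorem mem_box (a : Fin q → K) (s : ℕ) (ν : Fin q → ℕ) (hν : ∀ i, ν i ≤ s) :
    ∏ i, a i ^ ν i ∈ box k a s :=
  Submodule.subset_span ⟨fun i => ⟨ν i, Nat.lt_succ_of_le (hν i)⟩, rfl⟩

theorem one_mem_box (a : Fin q → K) (s : ℕ) : (1 : K) ∈ box k a s := by
  have h := mem_box (k := k) a s (fun _ => 0) (fun _ => Nat.zero_le _)
  simpa using h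

theorem box_mono (a : Fin q → K) (s : ℕ) : box k a s ≤ box k a (s + 1) := by
  unfold box
  rw [Submodule.span_le]
  rintro _ ⟨ν, rfl⟩
  exact mem_box a (s + 1) (fun i => (ν i : ℕ)) fun i => by
    have := (ν i).2
    omega

theorem mul_mem_box (a : Fin q → K) (s : ℕ) (i : Fin q) {x : K} (hx : x ∈ box k a s) :
    a i * x ∈ box k a (s + 1) := by
  classical
  have h1 : box k a s ≤ (box k a (s + 1)).comap (LinearMap.mulLeft k (a i)) := by
    unfold box
    rw [Submodule.span_le]
    rintro _ ⟨ν, rfl⟩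
    change a i * ∏ j, a j ^ (ν j : ℕ) ∈ box k a (s + 1)
    have h2 : a i * ∏ j, a j ^ (ν j : ℕ) = ∏ j, a j ^ ((ν j : ℕ) + if j = i then 1 else 0) := by
      simp only [pow_add]
      rw [Finset.prod_mul_distrib]
      have h3 : ∏ j, a j ^ (if j = i then 1 else 0) = a i := by
        rw [Finset.prod_eq_single i]
        · simp
        · intro j _ hj
          simp [hj]
        · intro h
          exact absurd (Finset.mem_univ i) h
      rw [h3]
      ring
    rw [h2]
    refine mem_box a (s + 1) _ fun j => ?_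
    have := (ν j).2
    split_ifs <;> omega
  exact h1 hx

/-- the poles of the elements of the box -/
theorem ge_box (P : Place k K) (a : Fin q → K) (s : ℕ) {x : K} (hx : x ∈ box k a s) :
    Ge P (-(s * ∑ i, max (-P.ord (a i)) 0)) x := by
  classical
  unfold box at hx
  induction hx using Submodule.span_induction with
  | mem x hx =>
    obtain ⟨ν, rfl⟩ := hx
    have h1 := Ge.prod (P := P) Finset.univ (fun i => a i ^ (ν i : ℕ))
      (fun i => -(s * max (-P.ord (a i)) 0)) (fun i _ => by
        have h2 : Ge P (-max (-P.ord (a i)) 0) (a i) := by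
          right
          have := le_max_left (-P.ord (a i)) 0
          linarith
        refine (h2.pow (ν i : ℕ)).mono ?_
        have h3 : ((ν i : ℕ) : ℤ) ≤ s := by
          have := (ν i).2
          omega
        have h4 : 0 ≤ max (-P.ord (a i)) 0 := le_max_right _ _
        nlinarith)
    rw [Finset.sum_neg_distrib, ← Finset.mul_sum] at h1
    exact h1
  | zero => exact Ge.zero
  | add x y _ _ hx hy => exact hx.add hy
  | smul c x _ hx =>
    rw [Algebra.smul_def]
    have := (Ge.const (P := P) c).mul hx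
    rwa [zero_add] at this

end box

end Pool.Agent.K4H62.HF
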