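import Pool.Agent.Y221.AH.Sum

/-!
Finite extensions of function fields which are generated by a root of a polynomial with an
invertible derivative are not ramified; a bound for the canonical degree.
-/

set_option autoImplicit false
set_option linter.overlappingInstances false
set_option linter.unusedSectionVars false

open FF Pool.Agent.W603.LV Pool.Agent.W603.PV Polynomial
open Pool.Agent.Y221.AH (sum_over sum_ram)

namespace Pool.Agent.K4H62.HF

variable {k : Type} [Field k] [IsAlgClosed k] [CharZero k]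
  {E : Type} [Field E] [Algebra k E] [IsFF k E] {K : Type} [Field K] [Algebra k K]
  [Algebra E K] [IsScalarTower k E K] [IsFF k K] [FiniteDimensional E K]

theorem ge_under (P : Place k K) {x : E} : Ge P 0 (algebraMap E K x) ↔ Ge (under E P) 0 x := by
  have h0 : (0 : ℤ) < ram E P := by exact_mod_cast (ram_spec (F := E) P).1
  unfold Ge
  rw [map_eq_zero, ord_under]
  constructor
  · rintro (h | h)
    · exact Or.inl h
    · right
      by_contra hneg
      push Not at hneg
      have := mul_neg_of_pos_of_neg h0 hneg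
      omega
  · rintro (h | h)
    · exact Or.inl h
    · exact Or.inr (mul_nonneg h0.le h)

/-- the derivative of the value of a polynomial -/
theorem der_aeval (D : Derivation k E E) (D' : Derivation k K K)
    (hD : ∀ x, D' (algebraMap E K x) = algebraMap E K (D x)) (θ : K) (p : E[X]) :
    ∃ q : E[X], (∀ i, q.coeff i = D (p.coeff i)) ∧
      D' (aeval θ p) = aeval θ q + aeval θ (derivative p) * D' θ := by
  induction p using Polynomial.induction_on' with
  | add p1 p2 h1 h2 =>
    obtain ⟨q1, a1, b1⟩ := h1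
    obtain ⟨q2, a2, b2⟩ := h2
    refine ⟨q1 + q2, fun i => ?_, ?_⟩
    · rw [coeff_add, coeff_add, map_add, a1, a2]
    · rw [map_add, map_add, b1, b2, derivative_add, map_add, map_add]
      ring
  | monomial n a =>
    refine ⟨monomial n (D a), fun i => ?_, ?_⟩
    · rw [coeff_monomial, coeff_monomial]
      split_ifs
      · rfl
      · rw [map_zero]
    · rw [aeval_monomial, D'.leibniz, D'.leibniz_pow, hD, derivative_monomial, aeval_monomial,
        aeval_monomial, map_mul, map_natCast]
      simp only [smul_eq_mul, nsmul_eq_mul]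
      ring

/-- a polynomial with regular coefficients and invertible derivative -/
theorem ram_one {θ : K} (hθ : IntermediateField.adjoin E {θ} = ⊤) {f : E[X]} (hf : aeval θ f = 0)
    (P : Place k K) (hco : ∀ i, Ge P 0 (algebraMap E K (f.coeff i))) (hθr : Ge P 0 θ)
    (hne : aeval θ (derivative f) ≠ 0) (hder : P.ord (aeval θ (derivative f)) = 0) :
    ram E P = 1 := by
  classical
  have hE : CharZero E := charZero_of_injective_algebraMap (algebraMap k E).injective
  obtain ⟨e, he⟩ : ∃ e : ℕ, e = ram E P := ⟨_, rfl⟩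
  have he0 : 0 < e := by
    rw [he]
    exact (ram_spec (F := E) P).1
  obtain ⟨v, hv⟩ : ∃ v, v = under E P := ⟨_, rfl⟩
  obtain ⟨τ, hτ⟩ : ∃ τ, τ = unif v := ⟨_, rfl⟩
  have hτ1 : v.ord τ = 1 := by rw [hτ]; exact ord_unif v
  have hτ0 : τ ≠ 0 := by
    rintro rfl
    rw [v.ord_zero] at hτ1
    omega
  obtain ⟨D0, hD0⟩ := exists_der (k := k) (K := E)
  have hD0τ : D0 τ ≠ 0 := der_pi_ne_zero hD0 v hτ1
  obtain ⟨D, hD⟩ : ∃ D : Derivation k E E, D = (D0 τ)⁻¹ • D0 := ⟨_, rfl⟩
  have hDτ : D τ = 1 := by
    rw [hD, Derivation.coe_smul, Pi.smul_apply, smul_eq_mul, inv_mul_cancel₀ hD0τ]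
  obtain ⟨D', hDD'⟩ := exists_ext_der (L := K) D
  have hD' : D' ≠ 0 := by
    rintro rfl
    have := hDD' τ
    rw [hDτ, map_one] at this
    exact zero_ne_one this
  have hordE : ∀ x : E, P.ord (algebraMap E K x) = e * v.ord x := fun x => by
    rw [ord_under, he, hv]
  have hvo : vo P D' = 1 - e := by
    have h1 : P.ord (algebraMap E K τ) = e := by rw [hordE, hτ1, mul_one]
    have h2 := (ord_der P hD' (f := algebraMap E K τ) (by rw [h1]; omega)).2
    rw [hDD', hDτ, map_one, P.ord_one, h1] at h2
    linarith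
  have hreg : ∀ x : E, Ge P 0 (algebraMap E K x) → Ge P 0 (algebraMap E K (D x)) := by
    intro x hx
    rw [ge_under, ← hv] at hx ⊢
    exact der_reg v hτ1 D hDτ hx
  obtain ⟨w, hw⟩ : ∃ w : K, w = (aeval θ (derivative f))⁻¹ := ⟨_, rfl⟩
  have hw1 : w * aeval θ (derivative f) = 1 := by rw [hw]; exact inv_mul_cancel₀ hne
  have hwr : Ge P 0 w := by
    right
    rw [hw, P.ord_inv, hder, neg_zero]
  -- the ring
  obtain ⟨R, hR⟩ : ∃ R : Subring K, R = Subring.closure
    ({y | ∃ x : E, Ge P 0 (algebraMap E K x) ∧ y = algebraMap E K x} ∪ {θ, w}) := ⟨_, rfl⟩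
  have hRE : ∀ x : E, Ge P 0 (algebraMap E K x) → algebraMap E K x ∈ R := fun x hx => by
    rw [hR]
    exact Subring.subset_closure (Or.inl ⟨x, hx, rfl⟩)
  have hRθ : θ ∈ R := by
    rw [hR]
    exact Subring.subset_closure (Or.inr (Or.inl rfl))
  have hRw : w ∈ R := by
    rw [hR]
    exact Subring.subset_closure (Or.inr (Or.inr rfl))
  have hRreg : ∀ y ∈ R, Ge P 0 y := by
    intro y hy
    rw [hR] at hy
    induction hy using Subring.closure_induction with
    | mem y hy =>
      rcases hy with ⟨x, hx, rfl⟩ | rfl | rfl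
      · exact hx
      · exact hθr
      · exact hwr
    | zero => exact Ge.zero
    | one => exact Ge.one
    | add x y _ _ hx hy => exact hx.add hy
    | neg x _ hx => exact hx.neg
    | mul x y _ _ hx hy => simpa using hx.mul hy
  have hpoly : ∀ p : E[X], (∀ i, Ge P 0 (algebraMap E K (p.coeff i))) → aeval θ p ∈ R := by
    intro p hp
    rw [aeval_eq_sum_range]
    refine Subring.sum_mem _ fun i _ => ?_
    rw [Algebra.smul_def]
    exact Subring.mul_mem _ (hRE _ (hp i)) (Subring.pow_mem _ hRθ i)
  have hDθ : D' θ ∈ R := by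
    obtain ⟨q, hq1, hq2⟩ := der_aeval D D' hDD' θ f
    rw [hf, map_zero] at hq2
    have h1 : D' θ = -(w * aeval θ q) := by
      have h2 : w * (aeval θ q + aeval θ (derivative f) * D' θ) = 0 := by rw [← hq2, mul_zero]
      have h3 : w * (aeval θ q + aeval θ (derivative f) * D' θ) = w * aeval θ q +
          (w * aeval θ (derivative f)) * D' θ := by ring
      rw [h3, hw1, one_mul] at h2
      linear_combination h2
    rw [h1]
    refine Subring.neg_mem _ (Subring.mul_mem _ hRw (hpoly q fun i => ?_))
    rw [hq1]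
    exact hreg _ (hco i)
  have hDpoly : ∀ p : E[X], (∀ i, Ge P 0 (algebraMap E K (p.coeff i))) →
      D' (aeval θ p) ∈ R := by
    intro p hp
    obtain ⟨q, hq1, hq2⟩ := der_aeval D D' hDD' θ p
    rw [hq2]
    refine Subring.add_mem _ (hpoly q fun i => ?_) (Subring.mul_mem _ (hpoly _ fun i => ?_) hDθ)
    · rw [hq1]
      exact hreg _ (hp i)
    · rw [coeff_derivative, map_mul]
      have h1 : Ge P 0 (algebraMap E K ((i : E) + 1)) := by
        have := Ge.natCast (P := P) (i + 1)
        rw [map_add, map_natCast, map_one]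
        push_cast at this
        exact this
      simpa using (hp (i + 1)).mul h1
  have hDR : ∀ y ∈ R, D' y ∈ R := by
    intro y hy
    rw [hR] at hy
    induction hy using Subring.closure_induction with
    | mem y hy =>
      rcases hy with ⟨x, hx, rfl⟩ | hyθ | hyw
      · rw [hDD']
        exact hRE _ (hreg x hx)
      · rw [hyθ]
        exact hDθ
      · rw [Set.mem_singleton_iff.1 hyw]
        have h1 : D' w = -(w * w * D' (aeval θ (derivative f))) := by
          have h2 := congrArg D' hw1
          rw [D'.leibniz, Derivation.map_one_eq_zero] at h2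
          simp only [smul_eq_mul] at h2
          have h3 : D' w = D' w * (w * aeval θ (derivative f)) := by rw [hw1, mul_one]
          rw [h3]
          linear_combination w * h2
        rw [h1]
        refine Subring.neg_mem _ (Subring.mul_mem _ (Subring.mul_mem _ hRw hRw)
          (hDpoly _ fun i => ?_))
        rw [coeff_derivative, map_mul]
        have h1 : Ge P 0 (algebraMap E K ((i : E) + 1)) := by
          have := Ge.natCast (P := P) (i + 1)
          rw [map_add, map_natCast, map_one]
          push_cast at this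
          exact this
        simpa using (hco (i + 1)).mul h1
    | zero => rw [map_zero]; exact Subring.zero_mem _
    | one => rw [Derivation.map_one_eq_zero]; exact Subring.zero_mem _
    | add x y _ _ hx hy => rw [map_add]; exact Subring.add_mem _ hx hy
    | neg x _ hx => rw [map_neg]; exact Subring.neg_mem _ hx
    | mul x y hx' hy' hx hy =>
      rw [D'.leibniz]
      rw [← hR] at hx' hy'
      exact Subring.add_mem _ (Subring.mul_mem _ hx' hy) (Subring.mul_mem _ hy' hx)
  -- an element of order `1` modulo `e`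
  obtain ⟨N, r, hrR, hr0, hrord⟩ : ∃ (N : ℕ) (r : K), r ∈ R ∧ r ≠ 0 ∧ P.ord r = 1 + N * e := by
    obtain ⟨x, hx0, hx⟩ := P.surj
    have hxm : x ∈ (IntermediateField.adjoin E {θ}).toSubalgebra := by
      rw [hθ]
      exact IntermediateField.mem_top
    rw [IntermediateField.adjoin_simple_toSubalgebra_of_isAlgebraic
      (Algebra.IsAlgebraic.isAlgebraic θ), Algebra.adjoin_singleton_eq_range_aeval] at hxm
    obtain ⟨p, hp⟩ := hxm
    have hp' : aeval θ p = x := hp
    obtain ⟨N, hN⟩ : ∃ N : ℕ, ∀ i, -(v.ord (p.coeff i)) ≤ N := by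
      refine ⟨∑ i ∈ p.support, (-(v.ord (p.coeff i))).toNat, fun i => ?_⟩
      by_cases hi : i ∈ p.support
      · have h1 := Finset.single_le_sum (f := fun i => (-(v.ord (p.coeff i))).toNat)
          (fun _ _ => Nat.zero_le _) hi
        have h2 : (-(v.ord (p.coeff i))).toNat ≤ ∑ i ∈ p.support, (-(v.ord (p.coeff i))).toNat := h1
        omega
      · rw [notMem_support_iff.1 hi, v.ord_zero]
        positivity
    refine ⟨N, aeval θ (C (τ ^ N) * p), hpoly _ fun i => ?_, ?_, ?_⟩
    · rw [coeff_C_mul, ge_under, ← hv]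
      by_cases hi : p.coeff i = 0
      · rw [hi, mul_zero]
        exact Ge.zero
      · right
        rw [v.ord_mul (pow_ne_zero _ hτ0) hi, v.ord_pow, hτ1]
        have := hN i
        linarith
    · rw [map_mul, aeval_C, hp']
      exact mul_ne_zero (by simpa using pow_ne_zero N hτ0) hx0
    · rw [map_mul, aeval_C, hp', P.ord_mul (by simpa using pow_ne_zero N hτ0) hx0, hordE,
        v.ord_pow, hτ1, hx]
      ring
  rw [← he]
  by_contra hne1
  have hit : ∀ j : ℕ, (⇑D')^[j] r ∈ R ∧ (⇑D')^[j] r ≠ 0 ∧
      P.ord ((⇑D')^[j] r) = 1 + (N - j) * e := by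
    intro j
    induction j with
    | zero =>
      refine ⟨hrR, hr0, ?_⟩
      rw [Function.iterate_zero, id, hrord]
      push_cast
      ring
    | succ j ih =>
      obtain ⟨h1, h2, h3⟩ := ih
      have h4 : P.ord ((⇑D')^[j] r) ≠ 0 := by
        rw [h3]
        intro h0
        apply hne1
        have h5 : (e : ℤ) * (j - N) = 1 := by linarith
        have h6 : (e : ℤ) ∣ 1 := ⟨_, h5.symm⟩
        have h7 : (e : ℤ) ≤ 1 := Int.le_of_dvd one_pos h6
        omega
      have h5 := ord_der P hD' h4
      rw [Function.iterate_succ_apply']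
      refine ⟨hDR _ h1, h5.1, ?_⟩
      rw [h5.2, h3, hvo]
      push_cast
      ring
  obtain ⟨h1, h2, h3⟩ := hit (N + 1)
  have h4 := (hRreg _ h1).resolve_left h2
  rw [h3] at h4
  push_cast at h4
  have h5 : (2 : ℤ) ≤ e := by omega
  nlinarith

theorem exists_over (T : Finset (Place k E)) :
    ∃ T' : Finset (Place k K), ∀ w, under E w ∈ T ↔ w ∈ T' := by
  classical
  choose S hS hS' using fun v : Place k E => sum_ram (L := K) v
  refine ⟨T.biUnion S, fun w => ?_⟩
  rw [Finset.mem_biUnion]
  constructor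
  · intro h
    exact ⟨_, h, (hS _ w).2 rfl⟩
  · rintro ⟨v, hv, hw⟩
    rw [(hS v w).1 hw]
    exact hv

theorem ram_le_finrank (P : Place k K) : (ram E P : ℤ) ≤ Module.finrank E K := by
  classical
  obtain ⟨S, hS, hsum⟩ := sum_ram (L := K) (under E P)
  rw [← hsum]
  exact Finset.single_le_sum (f := fun w : Place k K => (ram E w : ℤ))
    (fun _ _ => Int.natCast_nonneg _) ((hS P).2 rfl)

/-- Riemann-Hurwitz. -/
theorem canDeg_ext : canDeg k K = disc k E K + Module.finrank E K * canDeg k E := by
  classical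
  have hF : CharZero E := charZero_of_injective_algebraMap (algebraMap k E).injective
  obtain ⟨D, hD⟩ := exists_der (k := k) (K := E)
  obtain ⟨D', hDD'⟩ := exists_ext_der (L := K) D
  have hD' : D' ≠ 0 := by
    rintro rfl
    apply hD
    ext x
    have := hDD' x
    rw [Derivation.coe_zero, Pi.zero_apply, eq_comm, map_eq_zero] at this
    rw [this]; rfl
  obtain ⟨V, hV⟩ : ∃ V : Finset (Place k E), V = (vo_finite hD).toFinset := ⟨_, rfl⟩
  have hVmem : ∀ v, vo v D ≠ 0 → v ∈ V := fun v hv => by simp [hV, hv]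
  obtain ⟨T, hT⟩ : ∃ T : Finset (Place k K), T = (vo_finite hD').toFinset ∪
    (ram_finite (F := E)).toFinset ∪ (finite_over_set (L := K) (Finset.finite_toSet V)).toFinset :=
    ⟨_, rfl⟩
  have h1 := canDeg_finset hD' T fun P hP => by simp [hT, hP]
  have h2 : disc k E K = ∑ P ∈ T, ((ram E P : ℤ) - 1) := by
    unfold disc
    rw [finsum_eq_sum_of_support_subset (s := T)]
    intro P hP
    have hP' : (ram E P : ℤ) - 1 ≠ 0 := hP
    simp only [hT, Finset.coe_union, Set.Finite.coe_toFinset, Set.mem_union, Set.mem_ofPred_eq]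
    exact Or.inl (Or.inr hP')
  have h3 : canDeg k K = ∑ P ∈ T, ((ram E P : ℤ) - 1) -
      ∑ P ∈ T, (ram E P : ℤ) * vo (under E P) D := by
    rw [← Finset.sum_sub_distrib]
    have h4 : canDeg k K = - ∑ P ∈ T, vo P D' := by rw [h1, neg_neg]
    rw [h4, ← Finset.sum_neg_distrib]
    refine Finset.sum_congr rfl fun P _ => ?_
    rw [vo_under hD hD' hDD' P]
    ring
  have h4 := sum_over (L := K) (fun v => vo v D) V hVmem T fun w hw => by
    rw [hT]
    simp only [Finset.mem_union, Set.Finite.mem_toFinset]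
    exact Or.inr hw
  have h5 := canDeg_finset hD V hVmem
  rw [h3, h2, h4, h5]
  ring

/-- The Euler characteristic of a covering which is unramified off two finite sets. -/
theorem ram_bound (S : Finset (Place k E)) (B : Finset (Place k K))
    (h : ∀ P : Place k K, under E P ∉ S → P ∉ B → ram E P = 1) :
    ∃ S' : Finset (Place k K), (∀ P, P ∉ S' ↔ under E P ∉ S ∧ P ∉ B) ∧
      canDeg k K + S'.card ≤ Module.finrank E K * (canDeg k E + S.card) +
        Module.finrank E K * B.card := by
  classical
  obtain ⟨S1, hS1⟩ := exists_over (K := K) S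
  refine ⟨S1 ∪ B, fun P => ?_, ?_⟩
  · rw [Finset.mem_union, not_or, hS1]
  have h2 : disc k E K = ∑ P ∈ S1 ∪ B, ((ram E P : ℤ) - 1) := by
    unfold disc
    rw [finsum_eq_sum_of_support_subset (s := S1 ∪ B)]
    intro P hP
    have hP' : (ram E P : ℤ) - 1 ≠ 0 := hP
    by_contra hcon
    rw [Finset.mem_coe, Finset.mem_union, not_or, ← hS1] at hcon
    apply hP'
    rw [h P hcon.1 hcon.2]
    norm_num
  have h3 : ∑ P ∈ S1 ∪ B, (ram E P : ℤ) ≤ ∑ P ∈ S1, (ram E P : ℤ) + ∑ P ∈ B, (ram E P : ℤ) := by
    have h4 := Finset.sum_union_inter (s₁ := S1) (s₂ := B) (f := fun P : Place k K =>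
      (ram E P : ℤ))
    have h5 : 0 ≤ ∑ P ∈ S1 ∩ B, (ram E P : ℤ) := Finset.sum_nonneg fun _ _ => Int.natCast_nonneg _
    linarith
  have h4 : ∑ P ∈ S1, (ram E P : ℤ) = Module.finrank E K * S.card := by
    have h5 := sum_over (L := K) (fun v => if v ∈ S then (1 : ℤ) else 0) S (fun v hv => by
      by_contra h
      rw [if_neg h] at hv
      exact hv rfl) S1 fun w hw => (hS1 w).1 hw
    have h6 : ∑ v ∈ S, (if v ∈ S then (1 : ℤ) else 0) = S.card := by
      rw [Finset.sum_congr rfl fun v hv => if_pos hv, Finset.sum_const, nsmul_eq_mul, mul_one]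
    rw [h6] at h5
    rw [← h5]
    refine Finset.sum_congr rfl fun w hw => ?_
    rw [if_pos ((hS1 w).2 hw), mul_one]
  have h5 : ∑ P ∈ B, (ram E P : ℤ) ≤ Module.finrank E K * B.card := by
    have h6 : ∑ P ∈ B, (ram E P : ℤ) ≤ ∑ P ∈ B, (Module.finrank E K : ℤ) :=
      Finset.sum_le_sum fun P _ => ram_le_finrank P
    rw [Finset.sum_const, nsmul_eq_mul] at h6
    linarith
  rw [canDeg_ext (E := E), h2, Finset.sum_sub_distrib]
  have h6 : ∑ P ∈ S1 ∪ B, (1 : ℤ) = (S1 ∪ B).card := by
    rw [Finset.sum_const, nsmul_eq_mul, mul_one]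
  rw [h6]
  linarith

end Pool.Agent.K4H62.HF
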