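import Pool.Agent.K4H62.HF.Spread2
import Pool.Agent.K4H62.HF.Ram
import Pool.Agent.W603.LV.Root

/-!
Heights of the specializations of algebraic elements; primitive elements; unramified extensions.
-/

set_option autoImplicit false
set_option linter.overlappingInstances false
set_option linter.unusedSectionVars false

open FF IntermediateField Pool.Agent.W603.LV Pool.Agent.W603.PV
open Pool.Agent.TH466.QG

namespace Pool.Agent.K4H62.HF

section hg

variable {k M : Type} [Field k] [IsAlgClosed k] [CharZero k] [Field M] [Algebra k M]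

theorem alg_hgt1 {m : ℕ} (α : Fin m → M) {ϑ : M}
    (hϑ : IsAlgebraic (adjoin k (Set.range α)) ϑ) :
    ∃ (H : MvPolynomial (Fin m) k) (C : ℕ), MvPolynomial.aeval α H ≠ 0 ∧
      ∀ (K : Type) [Field K] [Algebra k K] [IsFF k K] (T : Sp k M K),
        (∃ t, T.T (MvPolynomial.aeval α H)⁻¹ t) → ∀ α' : Fin m → K, (∀ j, T.T (α j) (α' j)) →
        ∀ ϑ', T.T ϑ ϑ' → hgt k ϑ' ≤ C * ∑ j, hgt k (α' j) := by
  classical
  obtain ⟨F, hF⟩ : ∃ F : IntermediateField k M, F = adjoin k (Set.range α) := ⟨_, rfl⟩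
  rw [← hF] at hϑ
  have hαF : ∀ i, α i ∈ F := fun i => by
    rw [hF]
    exact subset_adjoin k _ ⟨i, rfl⟩
  obtain ⟨α0, hα0⟩ : ∃ α0 : Fin m → F, ∀ i, (α0 i : M) = α i :=
    ⟨fun i => ⟨α i, hαF i⟩, fun _ => rfl⟩
  have htop : adjoin k (Set.range α0) = ⊤ := by
    subst hF
    apply IntermediateField.lift_injective
    rw [IntermediateField.lift_adjoin, IntermediateField.lift_top]
    congr 1
    ext t
    constructor
    · rintro ⟨_, ⟨j, rfl⟩, rfl⟩
      exact ⟨j, (hα0 j).symm⟩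
    · rintro ⟨j, rfl⟩
      exact ⟨α0 j, ⟨j, rfl⟩, hα0 j⟩
  have hae : ∀ G : MvPolynomial (Fin m) k, ((MvPolynomial.aeval α0 G : F) : M) =
      MvPolynomial.aeval α G := by
    intro G
    have h1 := MvPolynomial.aeval_algebraMap_apply (R := k) M α0 G
    have h3 : (algebraMap F M ∘ α0) = α := funext hα0
    rw [h3] at h1
    exact h1.symm
  have hint : IsIntegral F ϑ := hϑ.isIntegral
  obtain ⟨p, hp⟩ : ∃ p, p = minpoly F ϑ := ⟨_, rfl⟩
  obtain ⟨D, hD⟩ : ∃ D, D = p.natDegree := ⟨_, rfl⟩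
  obtain ⟨H, hH, hG⟩ := exists_den htop (S := (↑p.coeffs : Set F)) (Finset.finite_toSet _)
  have hG' : ∀ j, ∃ G : MvPolynomial (Fin m) k,
      (p.coeff j : M) * MvPolynomial.aeval α H = MvPolynomial.aeval α G := by
    intro j
    by_cases h0 : p.coeff j = 0
    · exact ⟨0, by rw [h0, map_zero]; simp⟩
    · obtain ⟨G, hG⟩ := hG _ (Polynomial.coeff_mem_coeffs h0)
      refine ⟨G, ?_⟩
      rw [← hae, ← hae, ← hG]
      rfl
  choose G hGj using hG'
  have hH' : MvPolynomial.aeval α H ≠ 0 := fun h0 => hH (Subtype.ext (by rw [hae, h0]; rfl))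
  refine ⟨H, ∑ j ∈ Finset.range (D + 1), (G j).totalDegree, hH', ?_⟩
  intro K _ _ _ T hT α' hα' ϑ' hϑ'
  have hTG : ∀ G, T.T (MvPolynomial.aeval α G) (MvPolynomial.aeval α' G) := fun G =>
    Sp_aeval T hα' G
  have hlead : MvPolynomial.aeval α' (G D) ≠ 0 := by
    have h1 := hGj D
    have h2 : p.coeff D = 1 := by
      rw [hD, hp]
      exact (minpoly.monic hint).coeff_natDegree
    rw [h2] at h1
    have h3 : MvPolynomial.aeval α (G D) = MvPolynomial.aeval α H := by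
      rw [← h1]
      simp
    have h4 := hTG (G D)
    rw [h3] at h4
    exact T.ne_zero h4 hT hH'
  have hrel0 : ∑ j ∈ Finset.range (D + 1), MvPolynomial.aeval α (G j) * ϑ ^ j = 0 := by
    have h1 : Polynomial.aeval ϑ p = 0 := by rw [hp]; exact minpoly.aeval F ϑ
    rw [Polynomial.aeval_eq_sum_range, ← hD] at h1
    have h2 : ∑ j ∈ Finset.range (D + 1), MvPolynomial.aeval α (G j) * ϑ ^ j =
        MvPolynomial.aeval α H * ∑ j ∈ Finset.range (D + 1), p.coeff j • ϑ ^ j := by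
      rw [Finset.mul_sum]
      refine Finset.sum_congr rfl fun j _ => ?_
      rw [← hGj, Algebra.smul_def]
      change ((p.coeff j : M) * _) * _ = _ * ((p.coeff j : M) * _)
      ring
    rw [h2, h1, mul_zero]
  have hrel : ∑ j ∈ Finset.range (D + 1), MvPolynomial.aeval α' (G j) * ϑ' ^ j = 0 :=
    T.eq_zero (T.sum _ fun j _ => T.mul (hTG _) (T.pow hϑ' j)) hrel0
  have h1 := hgt_root (k := k) (fun j => MvPolynomial.aeval α' (G j)) hlead ϑ' hrel
  have h2 : hgt k (MvPolynomial.aeval α' (G D)) +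
      ∑ j ∈ Finset.range D, hgt k (MvPolynomial.aeval α' (G j)) =
      ∑ j ∈ Finset.range (D + 1), hgt k (MvPolynomial.aeval α' (G j)) := by
    rw [Finset.sum_range_succ, add_comm]
  rw [h2] at h1
  refine h1.trans ((Finset.sum_le_sum fun j _ => hgt_mvpoly (k := k) α' (G j)).trans ?_)
  rw [← Finset.sum_mul]
  push_cast
  exact le_rfl

/-- Heights of the specializations of algebraic elements. -/
theorem alg_hgt' {m : ℕ} (α : Fin m → M) (w : Finset M)
    (hw : ∀ ϑ ∈ w, IsAlgebraic (adjoin k (Set.range α)) ϑ) :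
    ∃ (Θ : Finset M) (C : ℕ), (∀ ϑ ∈ Θ, ϑ ∈ adjoin k (Set.range α)) ∧
      ∀ (K : Type) [Field K] [Algebra k K] [IsFF k K] (T : Sp k M K),
        (∀ ϑ ∈ Θ, ∃ t, T.T ϑ t) → ∀ α' : Fin m → K, (∀ j, T.T (α j) (α' j)) →
        ∀ ϑ ∈ w, ∀ ϑ', T.T ϑ ϑ' → hgt k ϑ' ≤ C * ∑ j, hgt k (α' j) := by
  classical
  have h1 : ∀ ϑ : M, ∃ (H : MvPolynomial (Fin m) k) (C : ℕ), ϑ ∈ w →
      ∀ (K : Type) [Field K] [Algebra k K] [IsFF k K] (T : Sp k M K),
        (∃ t, T.T (MvPolynomial.aeval α H)⁻¹ t) → ∀ α' : Fin m → K, (∀ j, T.T (α j) (α' j)) →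
        ∀ ϑ', T.T ϑ ϑ' → hgt k ϑ' ≤ C * ∑ j, hgt k (α' j) := by
    intro ϑ
    by_cases h : ϑ ∈ w
    · obtain ⟨H, C, -, hC⟩ := alg_hgt1 α (hw ϑ h)
      exact ⟨H, C, fun _ => hC⟩
    · exact ⟨0, 0, fun h' => absurd h' h⟩
  choose H C hC using h1
  refine ⟨w.image fun ϑ => (MvPolynomial.aeval α (H ϑ))⁻¹, ∑ ϑ ∈ w, C ϑ, ?_, ?_⟩
  · intro ϑ hϑ
    obtain ⟨ϑ', -, rfl⟩ := Finset.mem_image.1 hϑ
    refine inv_mem ?_
    have h3 : MvPolynomial.aeval α (H ϑ') ∈ Algebra.adjoin k (Set.range α) := by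
      rw [Algebra.adjoin_range_eq_range_aeval]
      exact ⟨H ϑ', rfl⟩
    exact IntermediateField.algebra_adjoin_le_adjoin k _ h3
  · intro K _ _ _ T hT α' hα' ϑ hϑ ϑ' hϑ'
    refine (hC ϑ hϑ K T (hT _ (Finset.mem_image_of_mem _ hϑ)) α' hα' ϑ' hϑ').trans ?_
    refine mul_le_mul_of_nonneg_right ?_ (Finset.sum_nonneg fun _ _ => hgt_nonneg _)
    exact_mod_cast Finset.single_le_sum (f := fun ϑ => C ϑ) (fun _ _ => Nat.zero_le _) hϑ

end hg

section prim

variable {k M : Type} [Field k] [CharZero k] [Field M] [Algebra k M]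

/-- primitive elements -/
theorem exists_prim (F Ω : IntermediateField k M) (hFΩ : F ≤ Ω) (C : Finset M)
    (hCΩ : ∀ c ∈ C, c ∈ Ω) (halg : ∀ c ∈ C, IsAlgebraic F c) :
    ∃ ω ∈ Ω, IsAlgebraic F ω ∧ ∀ c ∈ C, c ∈ IntermediateField.adjoin F {ω} := by
  classical
  have hF : CharZero F := charZero_of_injective_algebraMap (algebraMap k F).injective
  obtain ⟨E1, hE1⟩ : ∃ E1 : IntermediateField F M, E1 = adjoin F (C : Set M) := ⟨_, rfl⟩
  have hfin : FiniteDimensional F E1 := by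
    rw [hE1]
    exact IntermediateField.finiteDimensional_adjoin fun x hx => (halg x hx).isIntegral
  obtain ⟨ω0, hω0⟩ := Field.exists_primitive_element F E1
  have hE1Ω : ∀ x ∈ E1, x ∈ Ω := by
    intro x hx
    rw [hE1] at hx
    induction hx using IntermediateField.adjoin_induction with
    | mem x hx => exact hCΩ x hx
    | algebraMap c => exact hFΩ c.2
    | add x y _ _ hx hy => exact add_mem hx hy
    | inv x _ hx => exact inv_mem hx
    | mul x y _ _ hx hy => exact mul_mem hx hy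
  refine ⟨ω0, hE1Ω _ ω0.2, ?_, ?_⟩
  · have h1 : IsAlgebraic F ω0 := Algebra.IsAlgebraic.isAlgebraic ω0
    exact h1.algebraMap (A := M)
  · intro c hc
    have h1 : c ∈ E1 := by
      rw [hE1]
      exact subset_adjoin F _ hc
    have h2 : (⟨c, h1⟩ : E1) ∈ F⟮ω0⟯ := by
      rw [hω0]
      exact IntermediateField.mem_top
    have h3 : IntermediateField.lift F⟮ω0⟯ = adjoin F {(ω0 : M)} :=
      IntermediateField.lift_adjoin_simple F E1 ω0
    rw [← h3]
    exact (IntermediateField.mem_lift (⟨c, h1⟩ : E1)).2 h2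

/-- elements of a field generated over `Ω` involve finitely many elements of `Ω` -/
theorem adjoin_fin (Ω : IntermediateField k M) (R : Set M) {x : M}
    (hx : x ∈ IntermediateField.adjoin Ω R) :
    ∃ C : Finset M, (∀ c ∈ C, c ∈ Ω) ∧ x ∈ adjoin k ((C : Set M) ∪ R) := by
  classical
  have mono : ∀ (C1 C2 : Finset M) {x : M}, x ∈ adjoin k ((C1 : Set M) ∪ R) →
      x ∈ adjoin k (((C1 ∪ C2 : Finset M) : Set M) ∪ R) ∧
      x ∈ adjoin k (((C2 ∪ C1 : Finset M) : Set M) ∪ R) := by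
    intro C1 C2 x hx
    constructor
    · refine IntermediateField.adjoin.mono k _ _ ?_ hx
      exact Set.union_subset_union_left _ (by exact_mod_cast Finset.subset_union_left)
    · refine IntermediateField.adjoin.mono k _ _ ?_ hx
      exact Set.union_subset_union_left _ (by exact_mod_cast Finset.subset_union_right)
  have un : ∀ (C1 C2 : Finset M), (∀ c ∈ C1, c ∈ Ω) → (∀ c ∈ C2, c ∈ Ω) →
      ∀ c ∈ C1 ∪ C2, c ∈ Ω := by
    intro C1 C2 h1 h2 c hc
    rcases Finset.mem_union.1 hc with h | h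
    · exact h1 c h
    · exact h2 c h
  induction hx using IntermediateField.adjoin_induction with
  | mem x hx => exact ⟨∅, fun c hc => absurd hc (Finset.notMem_empty c),
      subset_adjoin k _ (Or.inr hx)⟩
  | algebraMap c => exact ⟨{(c : M)}, fun d hd => by rw [Finset.mem_singleton.1 hd]; exact c.2,
      subset_adjoin k _ (Or.inl (by simp))⟩
  | add x y _ _ hx hy =>
    obtain ⟨C1, a1, b1⟩ := hx
    obtain ⟨C2, a2, b2⟩ := hy
    exact ⟨C1 ∪ C2, un _ _ a1 a2, add_mem (mono C1 C2 b1).1 (mono C2 C1 b2).2⟩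
  | inv x _ hx =>
    obtain ⟨C1, a1, b1⟩ := hx
    exact ⟨C1, a1, inv_mem b1⟩
  | mul x y _ _ hx hy =>
    obtain ⟨C1, a1, b1⟩ := hx
    obtain ⟨C2, a2, b2⟩ := hy
    exact ⟨C1 ∪ C2, un _ _ a1 a2, mul_mem (mono C1 C2 b1).1 (mono C2 C1 b2).2⟩

end prim

section unr

variable {k : Type} [Field k] [IsAlgClosed k] [CharZero k]
  {E : Type} [Field E] [Algebra k E] [IsFF k E] {E' : Type} [Field E'] [Algebra k E']
  [Algebra E E'] [IsScalarTower k E E'] [IsFF k E'] [FiniteDimensional E E']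
  {K : Type} [Field K] [Algebra k K] [Algebra E' K] [IsScalarTower k E' K] [IsFF k K]
  [FiniteDimensional E' K]

/-- Two steps without ramification. -/
theorem unram (P : Place k K) {w : E'} (hw : IntermediateField.adjoin E {w} = ⊤)
    {f0 : Polynomial E} (hf0 : Polynomial.aeval w f0 = 0)
    (hco0 : ∀ i, Ge P 0 (algebraMap E' K (algebraMap E E' (f0.coeff i))))
    (hwr : Ge P 0 (algebraMap E' K w)) (hd0 : Polynomial.aeval w f0.derivative ≠ 0)
    (hd0' : P.ord (algebraMap E' K (Polynomial.aeval w f0.derivative)) = 0)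
    {θ : K} (hθ : IntermediateField.adjoin E' {θ} = ⊤)
    {f1 : Polynomial E'} (hf1 : Polynomial.aeval θ f1 = 0)
    (hco1 : ∀ i, Ge P 0 (algebraMap E' K (f1.coeff i))) (hθr : Ge P 0 θ)
    (hd1 : Polynomial.aeval θ f1.derivative ≠ 0)
    (hd1' : P.ord (Polynomial.aeval θ f1.derivative) = 0) :
    ∃ x : E, P.ord (algebraMap E' K (algebraMap E E' x)) = 1 := by
  have h1 := ram_one (E := E') hθ hf1 P hco1 hθr hd1 hd1'
  have h2 : ∀ x : E', P.ord (algebraMap E' K x) = (under E' P).ord x := fun x => by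
    rw [ord_under, h1, Nat.cast_one, one_mul]
  have h3 := ram_one (E := E) hw hf0 (under E' P) (fun i => by
    rw [← ge_under]
    exact hco0 i) (by rw [← ge_under]; exact hwr) hd0 (by rw [← h2]; exact hd0')
  refine ⟨unif (under E (under E' P)), ?_⟩
  rw [h2, ord_under, h3, ord_unif]
  norm_num

end unr

end Pool.Agent.K4H62.HF
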