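import Pool.Agent.K4H62.HF.Grow
import Pool.Agent.W603.PV.Disc

/-!
Approximation of moving targets in function fields (the method of Osgood and Steinmetz), with
constants which do not depend on the field and on the targets.
-/

set_option autoImplicit false

open FF Pool.Agent.W603.LV Pool.Agent.W603.PV

namespace Pool.Agent.K4H62.HF

section hb

variable {k K : Type} [Field k] [Field K] [Algebra k K] [CharZero k] [IsFF k K] [IsAlgClosed k]

theorem hgt_le_of_ge {q : ℕ} (a : Fin q → K) (s : ℕ) {x : K}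
    (hx : ∀ P : Place k K, Ge P (-(s * ∑ i, max (-P.ord (a i)) 0)) x) :
    hgt k x ≤ s * ∑ i, hgt k (a i) := by
  classical
  obtain ⟨T1, hT1⟩ := exists_supp (k := k) (Finset.univ : Finset (Fin q)) a
  obtain ⟨T2, hT2⟩ := exists_supp (k := k) (Finset.univ : Finset (Fin 1)) ![x]
  obtain ⟨T, hT⟩ : ∃ T : Finset (Place k K), T = T1 ∪ T2 := ⟨_, rfl⟩
  have h1 : hgt k x = ∑ P ∈ T, max (-P.ord x) 0 := hgt_finset x T fun P hP => by
    rw [hT]
    exact Finset.mem_union_right _ (hT2 0 (Finset.mem_univ _) P hP)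
  have h2 : ∀ i, hgt k (a i) = ∑ P ∈ T, max (-P.ord (a i)) 0 := fun i =>
    hgt_finset (a i) T fun P hP => by
      rw [hT]
      exact Finset.mem_union_left _ (hT1 i (Finset.mem_univ _) P hP)
  rw [h1, Finset.sum_congr rfl fun i _ => h2 i, Finset.sum_comm, Finset.mul_sum]
  refine Finset.sum_le_sum fun P _ => ?_
  have h3 : 0 ≤ ∑ i, max (-P.ord (a i)) 0 := Finset.sum_nonneg fun i _ => le_max_right _ _
  have h4 : 0 ≤ (s : ℤ) * ∑ i, max (-P.ord (a i)) 0 := mul_nonneg (Int.natCast_nonneg _) h3
  rcases hx P with h | h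
  · rw [h, P.ord_zero]
    simpa using h4
  · refine max_le (by linarith) h4

theorem hgt_sub_le (x y : K) : hgt k (x - y) ≤ hgt k x + hgt k y := by
  have h := hgt_le_of_ge (k := k) (![x, y]) 1 (x := x - y) (fun P => by
    have h0 : ∀ z : K, Ge P (-max (-P.ord z) 0) z := fun z => by
      right
      have := le_max_left (-P.ord z) 0
      linarith
    have h1 : ∑ i, max (-P.ord (![x, y] i)) 0 = max (-P.ord x) 0 + max (-P.ord y) 0 := by
      rw [Fin.sum_univ_two]; rfl
    rw [h1, Nat.cast_one, one_mul]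
    have h2 := le_max_right (-P.ord x) 0
    have h3 := le_max_right (-P.ord y) 0
    exact ((h0 x).mono (by linarith)).sub ((h0 y).mono (by linarith)))
  rw [Fin.sum_univ_two] at h
  simpa using h

end hb

section core

variable {k K : Type} [Field k] [Field K] [Algebra k K] [CharZero k] [IsFF k K] [IsAlgClosed k]

/-- the case of linear dependence -/
theorem roth_dep {q : ℕ} (a : Fin q → K) (y : K) (hy : ∀ i, y ≠ a i) (S : Finset (Place k K))
    (μ : Place k K → ℤ) (hμ : ∀ P ∈ S, μ P = 0 ∨ ∃ i, μ P ≤ P.ord (y - a i)) (r : ℕ) {β : K}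
    (hβ : β ∈ box k a r) (hβ0 : β ≠ 0) (hyβ : y * β ∈ box k a (r + 1)) :
    ∑ P ∈ S, μ P ≤ (q * (2 * r + 1) + 1) * ∑ i, hgt k (a i) := by
  classical
  have hH : 0 ≤ ∑ i, hgt k (a i) := Finset.sum_nonneg fun i _ => hgt_nonneg _
  have h1 : hgt k y ≤ (2 * r + 1) * ∑ i, hgt k (a i) := by
    by_cases hy0 : y = 0
    · have h0 : hgt k y = 0 := by
        rw [hy0]
        exact hgt_algebraic isAlgebraic_zero
      rw [h0]
      positivity
    have e : y = (y * β) * β⁻¹ := by field_simp
    have h2 := hgt_mul (k := k) (mul_ne_zero hy0 hβ0) (inv_ne_zero hβ0)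
    rw [← e, hgt_inv] at h2
    have h3 := hgt_le_of_ge (k := k) a (r + 1) (fun P => ge_box P a (r + 1) hyβ)
    have h4 := hgt_le_of_ge (k := k) a r (fun P => ge_box P a r hβ)
    push_cast at h3
    linarith
  obtain ⟨T, hT⟩ := exists_supp (k := k) (Finset.univ : Finset (Fin q)) fun i => (y - a i)⁻¹
  have h2 : ∀ i, hgt k ((y - a i)⁻¹) = ∑ P ∈ T ∪ S, max (-P.ord ((y - a i)⁻¹)) 0 := fun i =>
    hgt_finset _ _ fun P hP => Finset.mem_union_left _ (hT i (Finset.mem_univ _) P hP)
  have h3 : ∑ P ∈ S, μ P ≤ ∑ i, hgt k ((y - a i)⁻¹) := by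
    rw [Finset.sum_congr rfl fun i _ => h2 i, Finset.sum_comm]
    have h5 : ∑ P ∈ S, μ P ≤ ∑ P ∈ S, ∑ i, max (-P.ord ((y - a i)⁻¹)) 0 := by
      refine Finset.sum_le_sum fun P hP => ?_
      rcases hμ P hP with h | ⟨i, h⟩
      · rw [h]
        exact Finset.sum_nonneg fun i _ => le_max_right _ _
      · refine le_trans ?_ (Finset.single_le_sum (f := fun i => max (-P.ord ((y - a i)⁻¹)) 0)
          (fun i _ => le_max_right _ _) (Finset.mem_univ i))
        rw [P.ord_inv, neg_neg]
        exact h.trans (le_max_left _ _)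
    refine h5.trans (Finset.sum_le_sum_of_subset_of_nonneg Finset.subset_union_right ?_)
    intro P _ _
    exact Finset.sum_nonneg fun i _ => le_max_right _ _
  have h4 : ∑ i, hgt k ((y - a i)⁻¹) ≤ ∑ i : Fin q, (hgt k y + hgt k (a i)) :=
    Finset.sum_le_sum fun i _ => by
      rw [hgt_inv]
      exact hgt_sub_le y (a i)
  rw [Finset.sum_add_distrib, Finset.sum_const, Finset.card_univ, Fintype.card_fin,
    nsmul_eq_mul] at h4
  have h5 : (q : ℤ) * hgt k y ≤ q * ((2 * r + 1) * ∑ i, hgt k (a i)) :=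
    mul_le_mul_of_nonneg_left h1 (Int.natCast_nonneg _)
  nlinarith

/-- the main case -/
theorem roth_indep {q : ℕ} (a : Fin q → K) (y : K) (S : Finset (Place k K))
    (μ : Place k K → ℤ) (hμ0 : ∀ P, 0 ≤ μ P)
    (hμ : ∀ P ∈ S, μ P = 0 ∨ ∃ i, Ge P (μ P) (y - a i)) (r : ℕ)
    (hind : ∀ β ∈ box k a r, β ≠ 0 → y * β ∉ box k a (r + 1)) (N M : ℕ)
    (hN : Module.finrank k (box k a (r + 1)) = N) (hM : Module.finrank k (box k a r) = M) :
    M * ∑ P ∈ S, μ P ≤ (N + M) * hgt k y + tri (N + M) * (canDeg k K + S.card) +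
      (N + M) * (r + 1) * ∑ i, hgt k (a i) := by
  classical
  obtain ⟨D, hD⟩ := exists_der (k := k) (K := K)
  let b0 := Module.finBasisOfFinrankEq k (box k a (r + 1)) hN
  let β0 := Module.finBasisOfFinrankEq k (box k a r) hM
  obtain ⟨b, hb⟩ : ∃ b : Fin N → K, b = fun i => ((b0 i : box k a (r + 1)) : K) := ⟨_, rfl⟩
  obtain ⟨β, hβ⟩ : ∃ β : Fin M → K, β = fun i => ((β0 i : box k a r) : K) := ⟨_, rfl⟩
  have hbm : ∀ i, b i ∈ box k a (r + 1) := fun i => by rw [hb]; exact (b0 i).2
  have hβm : ∀ i, β i ∈ box k a r := fun i => by rw [hβ]; exact (β0 i).2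
  have hbi : LinearIndependent k b := by
    rw [hb]
    exact b0.linearIndependent.map' (box k a (r + 1)).subtype (Submodule.ker_subtype _)
  have hβi : LinearIndependent k β := by
    rw [hβ]
    exact β0.linearIndependent.map' (box k a r).subtype (Submodule.ker_subtype _)
  have hbs : Submodule.span k (Set.range b) = box k a (r + 1) := by
    have h1 := b0.span_eq
    have h2 := congrArg (Submodule.map (box k a (r + 1)).subtype) h1
    rw [Submodule.map_span, Submodule.map_top, Submodule.range_subtype, ← Set.range_comp] at h2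
    rw [← h2, hb]
    rfl
  have hβs : Submodule.span k (Set.range β) = box k a r := by
    have h1 := β0.span_eq
    have h2 := congrArg (Submodule.map (box k a r).subtype) h1
    rw [Submodule.map_span, Submodule.map_top, Submodule.range_subtype, ← Set.range_comp] at h2
    rw [← h2, hβ]
    rfl
  -- the families
  obtain ⟨fam, hfam⟩ : ∃ fam : K → Fin (N + M) → K, fam = fun t i =>
    Sum.elim b (fun j => t * β j) (finSumFinEquiv.symm i) := ⟨_, rfl⟩
  have hfaml : ∀ t i, fam t (finSumFinEquiv (Sum.inl i)) = b i := fun t i => by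
    rw [hfam]; simp
  have hfamr : ∀ t i, fam t (finSumFinEquiv (Sum.inr i)) = t * β i := fun t i => by
    rw [hfam]; simp
  by_cases hy0 : y = 0
  · exfalso
    refine hind 1 (one_mem_box a r) one_ne_zero ?_
    rw [hy0, zero_mul]
    exact Submodule.zero_mem _
  have hli : LinearIndependent k (fam y) := by
    have h1 : LinearIndependent k (Sum.elim b fun j => y * β j) := by
      refine LinearIndependent.sum_type hbi ?_ ?_
      · have h2 := hβi.map' (LinearMap.mulLeft k y) (by
          rw [LinearMap.ker_eq_bot]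
          intro u v huv
          exact mul_left_cancel₀ hy0 huv)
        exact h2
      · rw [hbs]
        have h3 : Submodule.span k (Set.range fun j => y * β j) =
            (box k a r).map (LinearMap.mulLeft k y) := by
          rw [← hβs, Submodule.map_span, ← Set.range_comp]
          rfl
        rw [h3, Submodule.disjoint_def]
        rintro u hu ⟨v, hv, rfl⟩
        by_contra hne
        have hv0 : v ≠ 0 := by
          rintro rfl
          exact hne (by simp)
        exact hind v hv hv0 hu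
    have h2 := h1.comp (finSumFinEquiv.symm : Fin (N + M) → Fin N ⊕ Fin M)
      finSumFinEquiv.symm.injective
    rw [hfam]
    exact h2
  have hW : wr D (fam y) ≠ 0 := wr_ne_zero hD _ hli
  -- local bounds
  obtain ⟨A, hA⟩ : ∃ A : Place k K → ℤ, A = fun P => ∑ i, max (-P.ord (a i)) 0 := ⟨_, rfl⟩
  have hA0 : ∀ P, 0 ≤ A P := fun P => by
    rw [hA]
    exact Finset.sum_nonneg fun i _ => le_max_right _ _
  have hbg : ∀ P i, Ge P (-((r + 1) * A P)) (b i) := fun P i => by
    have := ge_box P a (r + 1) (hbm i)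
    rw [hA]
    push_cast at this
    exact this
  have hβg : ∀ P i, Ge P (-(r * A P)) (β i) := fun P i => by
    have := ge_box P a r (hβm i)
    rw [hA]
    exact this
  have hloc1 : ∀ P : Place k K, tri (N + M) * vo P D +
      (N + M) * (-((r + 1) * A P) - max (-P.ord y) 0) ≤ P.ord (wr D (fam y)) := by
    intro P
    have h1 := (wr_lower P hD (fam y) (-((r + 1) * A P) - max (-P.ord y) 0) (fun _ => 0)
      (fun i => by
        obtain ⟨j, rfl⟩ := finSumFinEquiv.surjective i
        rw [Nat.cast_zero, add_zero]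
        have hm := le_max_right (-P.ord y) 0
        have hl := le_max_left (-P.ord y) 0
        rcases j with j | j
        · rw [hfaml]
          exact (hbg P j).mono (by linarith)
        · rw [hfamr]
          have h2 : Ge P (-max (-P.ord y) 0) y := Or.inr (by linarith)
          exact (h2.mul (hβg P j)).mono (by nlinarith [hA0 P])) hW).1
    push_cast at h1
    exact h1
  have hloc2 : ∀ P ∈ S, tri (N + M) * vo P D +
      (N + M) * (-((r + 1) * A P) - max (-P.ord y) 0) + M * μ P - tri (N + M) ≤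
        P.ord (wr D (fam y)) := by
    intro P hP
    have htri : 0 ≤ tri (N + M) := by
      unfold tri
      exact Finset.sum_nonneg fun i _ => Int.natCast_nonneg _
    rcases hμ P hP with h0 | ⟨i0, hi0⟩
    · rw [h0, mul_zero, add_zero]
      linarith [hloc1 P]
    · have hspan : ∀ i, fam y i ∈ Submodule.span k (Set.range (fam (y - a i0))) := by
        intro i
        obtain ⟨j, rfl⟩ := finSumFinEquiv.surjective i
        have hbsub : box k a (r + 1) ≤ Submodule.span k (Set.range (fam (y - a i0))) := by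
          rw [← hbs, Submodule.span_le]
          rintro _ ⟨l, rfl⟩
          exact Submodule.subset_span ⟨finSumFinEquiv (Sum.inl l), hfaml _ l⟩
        rcases j with j | j
        · rw [hfaml]
          exact hbsub (hbm j)
        · rw [hfamr]
          have e : y * β j = (y - a i0) * β j + a i0 * β j := by ring
          rw [e]
          refine Submodule.add_mem _ ?_ (hbsub (mul_mem_box a r i0 (hβm j)))
          exact Submodule.subset_span ⟨finSumFinEquiv (Sum.inr j), hfamr _ j⟩
      obtain ⟨c, hc⟩ := wr_of_span D (fam y) (fam (y - a i0)) hspan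
      have hc0 : c ≠ 0 := by
        rintro rfl
        rw [map_zero, zero_mul] at hc
        exact hW hc
      have hW' : wr D (fam (y - a i0)) ≠ 0 := by
        intro h0
        rw [h0, mul_zero] at hc
        exact hW hc
      have hordW : P.ord (wr D (fam y)) = P.ord (wr D (fam (y - a i0))) := by
        rw [hc, P.ord_mul (by simpa using hc0) hW', P.ord_const hc0, zero_add]
      rw [hordW]
      have h1 := (wr_lower P hD (fam (y - a i0)) (-((r + 1) * A P))
        (fun i => Sum.elim (fun _ => 0) (fun _ => (μ P).toNat) (finSumFinEquiv.symm i))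
        (fun i => by
          obtain ⟨j, rfl⟩ := finSumFinEquiv.surjective i
          rw [Equiv.symm_apply_apply]
          rcases j with j | j
          · rw [hfaml]
            simpa using hbg P j
          · rw [hfamr]
            have h2 : (((Sum.elim (fun _ : Fin N => 0) (fun _ : Fin M => (μ P).toNat)
                (Sum.inr j)) : ℕ) : ℤ) = μ P := by
              simp [Int.toNat_of_nonneg (hμ0 P)]
            rw [h2]
            exact (hi0.mul (hβg P j)).mono (by nlinarith [hA0 P])) hW').2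
      have h3 : ∑ i, (((Sum.elim (fun _ : Fin N => 0) (fun _ : Fin M => (μ P).toNat)
          (finSumFinEquiv.symm i)) : ℕ) : ℤ) = M * μ P := by
        rw [← finSumFinEquiv.sum_comp]
        simp [Int.toNat_of_nonneg (hμ0 P)]
      rw [h3] at h1
      push_cast at h1
      have h4 : 0 ≤ ((N : ℤ) + M) * max (-P.ord y) 0 :=
        mul_nonneg (by positivity) (le_max_right _ _)
      linarith
  -- the sum
  obtain ⟨T1, hT1⟩ := exists_supp (k := k) (Finset.univ : Finset (Fin q)) a
  obtain ⟨T2, hT2⟩ := exists_supp (k := k) (Finset.univ : Finset (Fin 2)) ![y, wr D (fam y)]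
  obtain ⟨T, hT⟩ : ∃ T : Finset (Place k K), T = T1 ∪ T2 ∪ S ∪ (vo_finite hD).toFinset :=
    ⟨_, rfl⟩
  have hST : S ⊆ T := by
    intro P hP
    rw [hT]
    simp [hP]
  have h1 := sum_ord_finset (k := k) (wr D (fam y)) T fun P hP => by
    rw [hT]
    simp only [Finset.mem_union]
    exact Or.inl (Or.inl (Or.inr (hT2 1 (Finset.mem_univ _) P hP)))
  have h2 : hgt k y = ∑ P ∈ T, max (-P.ord y) 0 := hgt_finset y T fun P hP => by
    rw [hT]
    simp only [Finset.mem_union]
    exact Or.inl (Or.inl (Or.inr (hT2 0 (Finset.mem_univ _) P hP)))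
  have h3 : ∑ i, hgt k (a i) = ∑ P ∈ T, A P := by
    rw [hA, Finset.sum_comm]
    refine Finset.sum_congr rfl fun i _ => hgt_finset (a i) T fun P hP => ?_
    rw [hT]
    simp only [Finset.mem_union]
    exact Or.inl (Or.inl (Or.inl (hT1 i (Finset.mem_univ _) P hP)))
  have h4 : ∑ P ∈ T, vo P D = - canDeg k K := canDeg_finset hD T fun P hP => by
    rw [hT]
    simp [hP]
  have h5 : ∑ P ∈ T, (tri (N + M) * vo P D +
      (N + M) * (-((r + 1) * A P) - max (-P.ord y) 0)) +
      ∑ P ∈ S, (M * μ P - tri (N + M)) ≤ ∑ P ∈ T, P.ord (wr D (fam y)) := by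
    rw [← Finset.sum_sdiff hST, ← Finset.sum_sdiff (f := fun P => P.ord (wr D (fam y))) hST,
      add_assoc, ← Finset.sum_add_distrib]
    refine add_le_add (Finset.sum_le_sum fun P _ => hloc1 P) (Finset.sum_le_sum fun P hP => ?_)
    have := hloc2 P hP
    linarith
  rw [h1] at h5
  rw [Finset.sum_add_distrib, ← Finset.mul_sum, ← Finset.mul_sum, Finset.sum_sub_distrib,
    Finset.sum_neg_distrib, ← Finset.mul_sum, Finset.sum_sub_distrib, ← Finset.mul_sum,
    Finset.sum_const, nsmul_eq_mul, ← h3, ← h2, h4] at h5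
  linarith

end core

/-- **Approximation of moving targets** in function fields. -/
theorem roth (q m : ℕ) (hm : 0 < m) : ∃ C : ℕ, ∀ (k K : Type) [Field k] [Field K] [Algebra k K]
    [CharZero k] [IsFF k K] [IsAlgClosed k] (a : Fin q → K) (y : K), (∀ i, y ≠ a i) →
    ∀ (S : Finset (Place k K)) (μ : Place k K → ℤ),
      (∀ P ∈ S, μ P ≤ 0 ∨ ∃ i, μ P ≤ P.ord (y - a i)) →
      m * ∑ P ∈ S, μ P ≤ (2 * m + 1) * hgt k y +
        C * (max (canDeg k K + S.card) 0 + ∑ i, hgt k (a i)) := by
  classical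
  obtain ⟨R, hR⟩ := slow q m hm
  obtain ⟨n0, hn0⟩ : ∃ n0 : ℕ, n0 = 2 * (R + 2) ^ q := ⟨_, rfl⟩
  obtain ⟨t0, ht0⟩ : ∃ t0 : ℕ, t0 = n0 * n0 := ⟨_, rfl⟩
  obtain ⟨C, hC⟩ : ∃ C : ℕ, C = m * (t0 + n0 * (R + 1) + (q * (2 * R + 1) + 1)) := ⟨_, rfl⟩
  refine ⟨C, ?_⟩
  intro k K _ _ _ _ _ _ a y hy S μ hμ
  obtain ⟨r, hr, hrd⟩ := hR (fun s => Module.finrank k (box k a s)) (by
    have : Nontrivial (box k a 0) := ⟨⟨⟨1, one_mem_box a 0⟩, 0, fun h => by
      have := congrArg Subtype.val h
      exact one_ne_zero this⟩⟩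
    exact Module.finrank_pos) (fun s => finrank_box a s)
  obtain ⟨N, hN⟩ : ∃ N, Module.finrank k (box k a (r + 1)) = N := ⟨_, rfl⟩
  obtain ⟨M, hM⟩ : ∃ M, Module.finrank k (box k a r) = M := ⟨_, rfl⟩
  rw [hN, hM] at hrd
  have hM0 : 0 < M := by
    rw [← hM]
    have : Nontrivial (box k a r) := ⟨⟨⟨1, one_mem_box a r⟩, 0, fun h => by
      have := congrArg Subtype.val h
      exact one_ne_zero this⟩⟩
    exact Module.finrank_pos
  have hH : 0 ≤ ∑ i, hgt k (a i) := Finset.sum_nonneg fun i _ => hgt_nonneg _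
  have hχ : 0 ≤ max (canDeg k K + S.card) 0 := le_max_right _ _
  have hyh : 0 ≤ hgt k y := hgt_nonneg _
  obtain ⟨H, hHd⟩ : ∃ H, H = ∑ i, hgt k (a i) := ⟨_, rfl⟩
  obtain ⟨χ, hχd⟩ : ∃ χ, χ = max (canDeg k K + S.card) 0 := ⟨_, rfl⟩
  rw [← hHd, ← hχd]
  rw [← hHd] at hH
  rw [← hχd] at hχ
  -- the positive part
  have hle : ∑ P ∈ S, μ P ≤ ∑ P ∈ S, max (μ P) 0 :=
    Finset.sum_le_sum fun P _ => le_max_left _ _
  refine (mul_le_mul_of_nonneg_left hle (Int.natCast_nonneg m)).trans ?_
  by_cases hdep : ∃ β ∈ box k a r, β ≠ 0 ∧ y * β ∈ box k a (r + 1)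
  · obtain ⟨β, h1, h2, h3⟩ := hdep
    have h4 := roth_dep a y hy S (fun P => max (μ P) 0) (fun P hP => by
      rcases le_or_gt (μ P) 0 with h | h
      · left
        exact max_eq_right h
      · right
        obtain ⟨i, hi⟩ := (hμ P hP).resolve_left (by omega)
        exact ⟨i, by rw [max_eq_left h.le]; exact hi⟩) r h1 h2 h3
    rw [← hHd] at h4
    have h5 : ((q : ℤ) * (2 * r + 1) + 1) * H ≤ (q * (2 * R + 1) + 1) * H := by
      refine mul_le_mul_of_nonneg_right ?_ hH
      have : (r : ℤ) ≤ R := by exact_mod_cast hr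
      have : (q : ℤ) * (2 * r + 1) ≤ q * (2 * R + 1) :=
        mul_le_mul_of_nonneg_left (by linarith) (Int.natCast_nonneg q)
      linarith
    have h6 := mul_le_mul_of_nonneg_left (h4.trans h5) (Int.natCast_nonneg m)
    have h7 : (m : ℤ) * ((q * (2 * R + 1) + 1) * H) ≤ C * (χ + H) := by
      rw [hC]
      push_cast
      have e1 : 0 ≤ (m : ℤ) * ((t0 : ℤ) + n0 * (R + 1) + (q * (2 * R + 1) + 1)) * χ := by
        positivity
      have e2 : 0 ≤ (m : ℤ) * ((t0 : ℤ) + n0 * (R + 1)) * H := by positivity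
      linarith
    have h8 : 0 ≤ (2 * (m : ℤ) + 1) * hgt k y := by positivity
    linarith
  · push Not at hdep
    have h4 := roth_indep a y S (fun P => max (μ P) 0) (fun P => le_max_right _ _)
      (fun P hP => by
        rcases le_or_gt (μ P) 0 with h | h
        · left
          exact max_eq_right h
        · right
          obtain ⟨i, hi⟩ := (hμ P hP).resolve_left (by omega)
          exact ⟨i, Or.inr (by rw [max_eq_left h.le]; exact hi)⟩) r hdep N M hN hM
    rw [← hHd] at h4
    have hNle : N ≤ (R + 2) ^ q := by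
      rw [← hN]
      refine (finrank_box a (r + 1)).trans ?_
      exact Nat.pow_le_pow_left (by omega) q
    have hMle : M ≤ (R + 2) ^ q := by
      rw [← hM]
      refine (finrank_box a r).trans ?_
      exact Nat.pow_le_pow_left (by omega) q
    have hNM : N + M ≤ n0 := by omega
    have htri : tri (N + M) ≤ t0 := by
      unfold tri
      have h5 : ∑ i : Fin (N + M), ((i : ℕ) : ℤ) ≤ ∑ i : Fin (N + M), ((N + M : ℕ) : ℤ) :=
        Finset.sum_le_sum fun i _ => by exact_mod_cast i.2.le
      rw [Finset.sum_const, Finset.card_univ, Fintype.card_fin, nsmul_eq_mul] at h5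
      refine h5.trans ?_
      rw [ht0]
      exact_mod_cast Nat.mul_le_mul hNM hNM
    have htri0 : 0 ≤ tri (N + M) := by
      unfold tri
      exact Finset.sum_nonneg fun i _ => Int.natCast_nonneg _
    have h5 : tri (N + M) * (canDeg k K + S.card) ≤ t0 * χ := by
      have e1 : tri (N + M) * (canDeg k K + S.card) ≤ tri (N + M) * χ :=
        mul_le_mul_of_nonneg_left (by rw [hχd]; exact le_max_left _ _) htri0
      exact e1.trans (mul_le_mul_of_nonneg_right htri hχ)
    have h6 : ((N : ℤ) + M) * (r + 1) * H ≤ n0 * (R + 1) * H := by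
      refine mul_le_mul_of_nonneg_right ?_ hH
      have e1 : ((N : ℤ) + M) ≤ n0 := by exact_mod_cast hNM
      have e2 : (r : ℤ) + 1 ≤ R + 1 := by exact_mod_cast Nat.succ_le_succ hr
      exact mul_le_mul e1 e2 (by positivity) (by positivity)
    have h7 : (M : ℤ) * ∑ P ∈ S, max (μ P) 0 ≤ (N + M) * hgt k y + t0 * χ +
        n0 * (R + 1) * H := by linarith
    have h8 : (m : ℤ) * ((N + M) * hgt k y) ≤ M * ((2 * m + 1) * hgt k y) := by
      have e1 : (m : ℤ) * N ≤ (m + 1) * M := by exact_mod_cast hrd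
      have e2 : (m : ℤ) * (N + M) ≤ M * (2 * m + 1) := by linarith
      have e3 := mul_le_mul_of_nonneg_right e2 hyh
      linarith
    have h9 := mul_le_mul_of_nonneg_left h7 (Int.natCast_nonneg m)
    have hM1 : (1 : ℤ) ≤ M := by exact_mod_cast hM0
    have h10 : (m : ℤ) * (t0 * χ + n0 * (R + 1) * H) ≤ M * (C * (χ + H)) := by
      have e1 : (m : ℤ) * (t0 * χ + n0 * (R + 1) * H) ≤ C * (χ + H) := by
        rw [hC]
        push_cast
        have a1 : 0 ≤ (m : ℤ) * (n0 * (R + 1) + (q * (2 * R + 1) + 1)) * χ := by positivity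
        have a2 : 0 ≤ (m : ℤ) * (t0 + (q * (2 * R + 1) + 1)) * H := by positivity
        linarith
      have e2 : 0 ≤ (C : ℤ) * (χ + H) := by positivity
      nlinarith
    have h11 : (M : ℤ) * (m * ∑ P ∈ S, max (μ P) 0) ≤
        M * ((2 * m + 1) * hgt k y + C * (χ + H)) := by linarith
    exact le_of_mul_le_mul_left h11 (by linarith)

end Pool.Agent.K4H62.HF
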