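import Pool.Agent.TH466.QG.Spz
import Pool.Agent.W619.TW.Loc
import Pool.Agent.K4H62.HF.Roth

/-!
Specializations of integral elements.
-/

set_option autoImplicit false
set_option linter.overlappingInstances false
set_option linter.unusedSectionVars false

open FF Pool.Agent.W603.LV Pool.Agent.W603.PV
open Pool.Agent.TH466.QG (Sp)

namespace Pool.Agent.K4H62.HF

/-- the roots of monic polynomials -/
theorem ge_of_monic {k K : Type} [Field k] [Field K] [Algebra k K] (P : Place k K) {n : ℕ}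
    (c : ℕ → K) {B : ℤ} (hB : 0 ≤ B) (hc : ∀ j < n, Ge P (-B) (c j)) {w : K}
    (hw : w ^ n + ∑ j ∈ Finset.range n, c j * w ^ j = 0) : Ge P (-B) w := by
  classical
  by_cases hw0 : w = 0
  · exact Or.inl hw0
  right
  by_contra hlt
  push Not at hlt
  have h1 : Ge P (-B + (n - 1) * P.ord w) (w ^ n) := by
    have h2 : w ^ n = -∑ j ∈ Finset.range n, c j * w ^ j := by linear_combination hw
    rw [h2]
    refine Ge.neg (Ge.sum _ _ fun j hj => ?_)
    have hj' := Finset.mem_range.1 hj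
    have h0 : Ge P (P.ord w) w := Or.inr (le_refl _)
    have h3 : Ge P (j * P.ord w) (w ^ j) := h0.pow j
    refine ((hc j hj').mul h3).mono ?_
    have h4 : (j : ℤ) ≤ n - 1 := by omega
    nlinarith
  have h2 := h1.resolve_left (pow_ne_zero _ hw0)
  rw [P.ord_pow] at h2
  linarith

variable {k M : Type} [Field k] [Field M] [Algebra k M] {Ω : IntermediateField k M}

/-- **Specializations of integral elements.** -/
theorem int_bound {s w : M} (hw : IsIntegral (Algebra.adjoin Ω {s}) w) :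
    ∃ Θ : Finset M, (∀ ϑ ∈ Θ, ϑ ∈ Ω ∧ ϑ ≠ 0) ∧
      ∀ (K : Type) [Field K] [Algebra k K] (T : Sp k M K) (t : M → K),
        (∀ ϑ ∈ Θ, T.T ϑ (t ϑ)) → ∀ (s' w' : K), T.T s s' → T.T w w' → ∀ P : Place k K,
          Ge P 0 s' → Ge P (-(∑ ϑ ∈ Θ, |P.ord (t ϑ)|)) w' := by
  classical
  obtain ⟨p, hpm, hp⟩ := hw
  have hco : ∀ j, ∃ q : Polynomial Ω, Polynomial.aeval s q = (p.coeff j : M) := by
    have key : ∀ a : M, a ∈ Algebra.adjoin Ω {s} → ∃ q : Polynomial Ω,
        Polynomial.aeval s q = a := fun a ha => by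
      rw [Algebra.adjoin_singleton_eq_range_aeval] at ha
      exact ha
    exact fun j => key _ (p.coeff j).2
  choose q hq using hco
  obtain ⟨n, hn⟩ : ∃ n, n = p.natDegree := ⟨_, rfl⟩
  have hrel : w ^ n + ∑ j ∈ Finset.range n, Polynomial.aeval s (q j) * w ^ j = 0 := by
    have h1 : Polynomial.aeval w p = 0 := hp
    rw [Polynomial.aeval_eq_sum_range, Finset.sum_range_succ, ← hn] at h1
    have h2 : p.coeff n = 1 := by
      rw [hn]
      exact hpm.coeff_natDegree
    rw [h2, one_smul, add_comm] at h1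
    rw [← h1]
    congr 1
    refine Finset.sum_congr rfl fun j _ => ?_
    rw [hq, Algebra.smul_def]
    rfl
  refine ⟨((Finset.range n).biUnion fun j => (q j).support.image
    fun i => (((q j).coeff i : Ω) : M)), ?_, ?_⟩
  · intro ϑ hϑ
    rw [Finset.mem_biUnion] at hϑ
    obtain ⟨j, -, hj⟩ := hϑ
    rw [Finset.mem_image] at hj
    obtain ⟨i, hi, rfl⟩ := hj
    refine ⟨((q j).coeff i).2, fun h0 => ?_⟩
    rw [Polynomial.mem_support_iff] at hi
    exact hi (Subtype.ext h0)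
  intro K _ _ T t ht s' w' hs hw' P hs'
  obtain ⟨Θ, hΘ⟩ : ∃ Θ : Finset M, Θ = ((Finset.range n).biUnion fun j => (q j).support.image
    fun i => (((q j).coeff i : Ω) : M)) := ⟨_, rfl⟩
  rw [← hΘ] at ht ⊢
  have hmem : ∀ j < n, ∀ i ∈ (q j).support, (((q j).coeff i : Ω) : M) ∈ Θ := by
    intro j hj i hi
    rw [hΘ]
    exact Finset.mem_biUnion.2 ⟨j, Finset.mem_range.2 hj, Finset.mem_image.2 ⟨i, hi, rfl⟩⟩
  obtain ⟨B, hB⟩ : ∃ B : ℤ, B = ∑ ϑ ∈ Θ, |P.ord (t ϑ)| := ⟨_, rfl⟩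
  rw [← hB]
  have hB0 : 0 ≤ B := by
    rw [hB]
    exact Finset.sum_nonneg fun _ _ => abs_nonneg _
  have hle : ∀ ϑ ∈ Θ, Ge P (-B) (t ϑ) := by
    intro ϑ hϑ
    right
    have h1 := Finset.single_le_sum (f := fun ϑ => |P.ord (t ϑ)|) (fun _ _ => abs_nonneg _) hϑ
    rw [← hB] at h1
    have h2 : |P.ord (t ϑ)| ≤ B := h1
    have h3 := (abs_le.1 h2).1
    exact h3
  -- the coefficients
  have hT : ∀ j < n, T.T (Polynomial.aeval s (q j))
      (∑ i ∈ (q j).support, t (((q j).coeff i : Ω) : M) * s' ^ i) := by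
    intro j hj
    have h1 : Polynomial.aeval s (q j) =
        ∑ i ∈ (q j).support, (((q j).coeff i : Ω) : M) * s ^ i := by
      rw [Polynomial.aeval_def, Polynomial.eval₂_eq_sum, Polynomial.sum]
      rfl
    rw [h1]
    exact T.sum _ fun i hi => T.mul (ht _ (hmem j hj i hi)) (T.pow hs i)
  have hrel' : w' ^ n + ∑ j ∈ Finset.range n,
      (∑ i ∈ (q j).support, t (((q j).coeff i : Ω) : M) * s' ^ i) * w' ^ j = 0 := by
    refine T.eq_zero ?_ hrel
    exact T.add (T.pow hw' n) (T.sum _ fun j hj =>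
      T.mul (hT j (Finset.mem_range.1 hj)) (T.pow hw' j))
  refine ge_of_monic P _ hB0 (fun j hj => ?_) hrel'
  refine Ge.sum _ _ fun i hi => ?_
  have h1 := (hle _ (hmem j hj i hi)).mul (hs'.pow i)
  rw [mul_zero, add_zero] at h1
  exact h1

end Pool.Agent.K4H62.HF
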