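import Pool.Agent.K4H62.HF.Spread3
import Pool.Agent.K4H62.HF.GeoData
import Pool.Agent.K4H62.HF.Core

/-!
The specialization of an etale covering is not ramified; finitely many integral elements.
-/

set_option autoImplicit false
set_option linter.overlappingInstances false
set_option linter.unusedSectionVars false

open FF Pool.Agent.W603.LV Pool.Agent.W603.PV Polynomial
open Pool.Agent.TH466.QG (Sp)

namespace Pool.Agent.K4H62.HF

section unr

variable {k : Type} [Field k] [IsAlgClosed k] [CharZero k] {M : Type} [Field M] [Algebra k M]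
  {E : Type} [Field E] [Algebra k E] [IsFF k E] {E' : Type} [Field E'] [Algebra k E']
  [Algebra E E'] [IsScalarTower k E E'] [IsFF k E'] [FiniteDimensional E E']
  {K : Type} [Field K] [Algebra k K] [Algebra E' K] [IsScalarTower k E' K] [IsFF k K]
  [FiniteDimensional E' K] {F2 : Type} [Field F2] [Algebra F2 M]

/-- **No ramification.** -/
theorem cover_one (T : Sp k M K) (P : Place k K) (h1 : ram E (under E' P) = 1)
    {p : ℕ} {θ c : Fin p → M} {f r : Fin p → F2[X]} {i0 : Fin p} (hf : ∀ i, aeval (θ i) (f i) = 0)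
    (hr : ∀ i, aeval (θ i) (r i) = θ i0)
    (hsum : ∑ i, c i * aeval (θ i) (derivative (f i)) = 1) {θ' c' : Fin p → K}
    (hθ' : ∀ i, T.T (θ i) (θ' i)) (hc' : ∀ i, T.T (c i) (c' i))
    (htop : IntermediateField.adjoin E' {θ' i0} = ⊤)
    (hcf : ∀ i j, ∃ t : E', T.T (algebraMap F2 M ((f i).coeff j)) (algebraMap E' K t))
    (hcr : ∀ i j, ∃ t : E', T.T (algebraMap F2 M ((r i).coeff j)) (algebraMap E' K t))
    (hfr : ∀ i j t, T.T (algebraMap F2 M ((f i).coeff j)) t → Ge P 0 t)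
    (hθr : ∀ i, Ge P 0 (θ' i)) (hcr' : ∀ i, Ge P 0 (c' i)) :
    ∃ x : E, P.ord (algebraMap E' K (algebraMap E E' x)) = 1 := by
  classical
  choose q hq1 hq2 hq3 using fun i => Sp_lift T (E1 := E') (f i) (hcf i)
  choose s hs1 hs2 hs3 using fun i => Sp_lift T (E1 := E') (r i) (hcr i)
  have hq0' : ∀ i, aeval (θ' i) (q i) = 0 := fun i => T.eq_zero (hq2 i _ _ (hθ' i)) (hf i)
  have hgen : ∀ i, IntermediateField.adjoin E' {θ' i} = ⊤ := by
    intro i
    have h4 : θ' i0 = aeval (θ' i) (s i) := by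
      have h5 := hs2 i _ _ (hθ' i)
      rw [hr] at h5
      exact T.ext (hθ' i0) h5
    rw [eq_top_iff, ← htop, IntermediateField.adjoin_simple_le_iff, h4]
    have h5 : aeval (θ' i) (s i) ∈ Algebra.adjoin E' {θ' i} := by
      rw [Algebra.adjoin_singleton_eq_range_aeval]
      exact ⟨s i, rfl⟩
    exact IntermediateField.algebra_adjoin_le_adjoin E' _ h5
  have hreg : ∀ i j, Ge P 0 (algebraMap E' K ((q i).coeff j)) := fun i j => hfr i j _ (hq1 i j)
  have hdreg : ∀ i, Ge P 0 (aeval (θ' i) (derivative (q i))) := by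
    intro i
    rw [aeval_eq_sum_range]
    refine Ge.sum _ _ fun j _ => ?_
    rw [Algebra.smul_def, coeff_derivative, map_mul]
    have h4 : Ge P 0 (algebraMap E' K ((j : E') + 1)) := by
      have := Ge.natCast (P := P) (j + 1)
      rw [map_add, map_natCast, map_one]
      push_cast at this
      exact this
    have h5 := ((hreg i (j + 1)).mul h4).mul ((hθr i).pow j)
    simpa using h5
  have hsum' : ∑ i, c' i * aeval (θ' i) (derivative (q i)) = 1 := by
    have h4 := T.sum (Finset.univ : Finset (Fin p)) fun i _ =>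
      T.mul (hc' i) (hq3 i _ _ (hθ' i))
    rw [hsum] at h4
    exact T.ext h4 T.one
  obtain ⟨i, hi⟩ : ∃ i, ¬ Ge P 1 (aeval (θ' i) (derivative (q i))) := by
    by_contra hcon
    push Not at hcon
    have h4 : Ge P 1 (∑ i, c' i * aeval (θ' i) (derivative (q i))) :=
      Ge.sum _ _ fun i _ => by
        have := (hcr' i).mul (hcon i)
        rwa [zero_add] at this
    rw [hsum'] at h4
    rcases h4 with h4 | h4
    · exact one_ne_zero h4
    · rw [P.ord_one] at h4
      omega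
  unfold Ge at hi
  push Not at hi
  have h4 := (hdreg i).resolve_left hi.1
  have h5 : ram E' P = 1 :=
    ram_one (E := E') (hgen i) (hq0' i) P (hreg i) (hθr i) hi.1 (by omega)
  refine ⟨unif (under E (under E' P)), ?_⟩
  rw [ord_under (F := E') P, h5, ord_under (F := E) (under E' P), h1, ord_unif]
  norm_num

end unr

section intb

variable {k M : Type} [Field k] [Field M] [Algebra k M] {Ω : IntermediateField k M}

/-- **Specializations of integral elements.** -/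
theorem int_bounds {s : M} (W : Finset M)
    (hW : ∀ w ∈ W, IsIntegral (Algebra.adjoin Ω {s}) w) :
    ∃ Θ : Finset M, (∀ ϑ ∈ Θ, ϑ ∈ Ω ∧ ϑ ≠ 0) ∧
      ∀ (K : Type) [Field K] [Algebra k K] (T : Sp k M K) (t : M → K) (Θ' : Finset M), Θ ⊆ Θ' →
        (∀ ϑ ∈ Θ', T.T ϑ (t ϑ)) → ∀ w ∈ W, ∀ (s' w' : K), T.T s s' → T.T w w' →
          ∀ P : Place k K, Ge P 0 s' → Ge P (-(∑ ϑ ∈ Θ', |P.ord (t ϑ)|)) w' := by
  classical
  have h1 : ∀ w : M, ∃ Θ : Finset M, w ∈ W → (∀ ϑ ∈ Θ, ϑ ∈ Ω ∧ ϑ ≠ 0) ∧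
      ∀ (K : Type) [Field K] [Algebra k K] (T : Sp k M K) (t : M → K),
        (∀ ϑ ∈ Θ, T.T ϑ (t ϑ)) → ∀ (s' w' : K), T.T s s' → T.T w w' → ∀ P : Place k K,
          Ge P 0 s' → Ge P (-(∑ ϑ ∈ Θ, |P.ord (t ϑ)|)) w' := by
    intro w
    by_cases h : w ∈ W
    · obtain ⟨Θ, h2⟩ := int_bound (hW w h)
      exact ⟨Θ, fun _ => h2⟩
    · exact ⟨∅, fun h' => absurd h' h⟩
  choose Θ hΘ using h1
  refine ⟨W.biUnion Θ, ?_, ?_⟩
  · intro ϑ hϑ
    obtain ⟨w, hw, h2⟩ := Finset.mem_biUnion.1 hϑ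
    exact (hΘ w hw).1 ϑ h2
  · intro K _ _ T t Θ' hsub hT w hw s' w' hs' hw' P hP
    have h3 : Θ w ⊆ Θ' := (Finset.subset_biUnion_of_mem Θ hw).trans hsub
    refine ((hΘ w hw).2 K T t (fun ϑ hϑ => hT ϑ (h3 hϑ)) s' w' hs' hw' P hP).mono ?_
    exact neg_le_neg (Finset.sum_le_sum_of_subset_of_nonneg h3 fun _ _ _ => abs_nonneg _)

end intb

section bad

variable {k K : Type} [Field k] [Field K] [Algebra k K] [CharZero k] [IsFF k K] [IsAlgClosed k]

/-- the places where some of the functions have zeros or poles -/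
theorem exists_bad {M : Type} (Θ : Finset M) (t : M → K) : ∃ Bd : Finset (Place k K),
    (∀ P, P ∉ Bd → ∀ ϑ ∈ Θ, P.ord (t ϑ) = 0) ∧ (Bd.card : ℤ) ≤ 2 * ∑ ϑ ∈ Θ, hgt k (t ϑ) := by
  classical
  choose T hT1 hT2 using fun ϑ => supp_card (k := k) (t ϑ)
  refine ⟨Θ.biUnion T, ?_, ?_⟩
  · intro P hP ϑ hϑ
    by_contra h0
    exact hP (Finset.mem_biUnion.2 ⟨ϑ, hϑ, (hT1 ϑ P).1 h0⟩)
  · have h1 : ((Θ.biUnion T).card : ℤ) ≤ ∑ ϑ ∈ Θ, ((T ϑ).card : ℤ) := by
      exact_mod_cast Finset.card_biUnion_le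
    refine h1.trans ?_
    rw [Finset.mul_sum]
    exact Finset.sum_le_sum fun ϑ _ => hT2 ϑ

end bad

end Pool.Agent.K4H62.HF
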