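import Pool.Agent.K4H62.HF.Main1

/-!
Algebraic preparations.
-/

set_option autoImplicit false
set_option linter.overlappingInstances false
set_option linter.unusedSectionVars false

open FF Pool.Agent.W603.LV Pool.Agent.W603.PV Polynomial
open Pool.Agent.TH466.QG (Sp)

namespace Pool.Agent.K4H62.HF

section setup

variable {k B0 B M : Type} [Field k] [CommRing B0] [CommRing B] [Field M] [Algebra k M]
  [Algebra B0 M] [Algebra B M]

theorem alg_of_ring (hinj : Function.Injective (algebraMap B0 M)) (F : IntermediateField k M)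
    (hF : ∀ b, algebraMap B0 M b ∈ F) {c : M} (hc : IsAlgebraic B0 c) : IsAlgebraic F c := by
  obtain ⟨p, hp0, hp⟩ := hc
  let φ : B0 →+* F := (algebraMap B0 M).codRestrict F.toSubfield hF
  have hφ : Function.Injective φ := by
    intro x y hxy
    apply hinj
    exact congrArg (fun z : F => (z : M)) hxy
  refine ⟨p.map φ, ?_, ?_⟩
  · rw [Ne, Polynomial.map_eq_zero_iff hφ]
    exact hp0
  · rw [Polynomial.aeval_def, Polynomial.eval₂_map]
    exact hp

theorem exists_r {F2 : Type} [Field F2] [Algebra F2 M] {θ : M} {f : F2[X]} (hf : f.Monic)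
    (hθ : aeval θ f = 0) (htop : IntermediateField.adjoin F2 {θ} = ⊤) (x : M) :
    ∃ r : F2[X], aeval θ r = x := by
  have h1 : IsIntegral F2 θ := ⟨f, hf, hθ⟩
  have h2 : x ∈ (IntermediateField.adjoin F2 {θ}).toSubalgebra := by
    rw [htop]
    exact IntermediateField.mem_top
  rw [IntermediateField.adjoin_simple_toSubalgebra_of_isAlgebraic h1.isAlgebraic,
    Algebra.adjoin_singleton_eq_range_aeval] at h2
  exact h2

theorem mem_fieldOf (Ω : IntermediateField k M) {N : ℕ} {ξ : Fin N → M}
    (hξ : ∀ b : B, algebraMap B M b ∈ IntermediateField.adjoin k (Set.range ξ)) {x : M}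
    (hx : x ∈ fieldOf B Ω) : x ∈ IntermediateField.adjoin Ω (Set.range ξ) := by
  have hk : ∀ x ∈ IntermediateField.adjoin k (Set.range ξ),
      x ∈ IntermediateField.adjoin Ω (Set.range ξ) := by
    intro x hx
    induction hx using IntermediateField.adjoin_induction with
    | mem x hx => exact IntermediateField.subset_adjoin Ω _ hx
    | algebraMap c =>
      rw [IsScalarTower.algebraMap_apply k Ω M]
      exact algebraMap_mem _ _
    | add x y _ _ hx hy => exact add_mem hx hy
    | inv x _ hx => exact inv_mem hx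
    | mul x y _ _ hx hy => exact mul_mem hx hy
  have h1 : fieldOf B Ω ≤ IntermediateField.adjoin Ω (Set.range ξ) := by
    unfold fieldOf
    rw [IntermediateField.adjoin_le_iff]
    rintro _ ⟨b, rfl⟩
    exact hk _ (hξ b)
  exact h1 hx

theorem mem_all (Ω : IntermediateField k M) {N : ℕ} {ξ : Fin N → M}
    (hξ : ∀ b : B, algebraMap B M b ∈ IntermediateField.adjoin k (Set.range ξ)) {θ : M}
    (htop : IntermediateField.adjoin (fieldOf B Ω) {θ} = ⊤) (x : M) :
    x ∈ IntermediateField.adjoin Ω (insert θ (Set.range ξ)) := by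
  have hx : x ∈ IntermediateField.adjoin (fieldOf B Ω) {θ} := by
    rw [htop]
    exact IntermediateField.mem_top
  induction hx using IntermediateField.adjoin_induction with
  | mem x hx =>
    rw [Set.mem_singleton_iff] at hx
    rw [hx]
    exact IntermediateField.subset_adjoin Ω _ (Set.mem_insert _ _)
  | algebraMap c =>
    have h1 := mem_fieldOf Ω hξ c.2
    have h2 : IntermediateField.adjoin Ω (Set.range ξ) ≤
        IntermediateField.adjoin Ω (insert θ (Set.range ξ)) :=
      IntermediateField.adjoin.mono Ω _ _ (Set.subset_insert _ _)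
    exact h2 h1
  | add x y _ _ hx hy => exact add_mem hx hy
  | inv x _ hx => exact inv_mem hx
  | mul x y _ _ hx hy => exact mul_mem hx hy

theorem alg_cons [CharZero k] (Ω : IntermediateField k M) [IsFF Ω M] {m : ℕ} {α : Fin m → M}
    (hΩ : ∀ c ∈ Ω, IsAlgebraic (IntermediateField.adjoin k (Set.range α)) c) {y : M}
    (hy : Transcendental Ω y) (x : M) :
    IsAlgebraic (IntermediateField.adjoin k (Set.range (Fin.cons y α : Fin (m + 1) → M))) x := by
  obtain ⟨F', hF'⟩ : ∃ F' : IntermediateField k M,
    F' = IntermediateField.adjoin k (Set.range (Fin.cons y α : Fin (m + 1) → M)) := ⟨_, rfl⟩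
  rw [← hF']
  have hch : CharZero Ω := charZero_of_injective_algebraMap (algebraMap k Ω).injective
  have h1 : IntermediateField.adjoin k (Set.range α) ≤ F' := by
    rw [hF']
    refine IntermediateField.adjoin.mono k _ _ ?_
    rintro _ ⟨i, rfl⟩
    exact ⟨i.succ, by simp⟩
  have h2 : y ∈ F' := by
    rw [hF']
    exact IntermediateField.subset_adjoin k _ ⟨0, by simp⟩
  refine alg_trans' F' Ω {y} (fun c hc => alg_mono h1 (hΩ c hc)) ?_ ?_
  · intro r hr
    rw [Set.mem_singleton_iff] at hr
    rw [hr]
    exact isAlgebraic_algebraMap (R := F') (A := M) ⟨y, h2⟩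
  · exact (IsFF.isAlgebraic hy).isAlgebraic x

/-- regular functions -/
theorem regular_of_monic {F2 : Type} [Field F2] [Algebra F2 M] {Ω : IntermediateField k M} {θ : M}
    {f : F2[X]} (hf : f.Monic) (hco : ∀ j, Regular B Ω (algebraMap F2 M (f.coeff j)))
    (hθ : aeval θ f = 0) : Regular B Ω θ := by
  intro Q hQ
  have h1 := ge_of_monic Q (fun j => algebraMap F2 M (f.coeff j)) (le_refl 0)
    (fun j _ => by
      rw [neg_zero]
      exact Or.inr (hco j Q hQ)) (monic_rel hf hθ)
  rw [neg_zero] at h1
  rcases h1 with h1 | h1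
  · rw [h1, Q.ord_zero]
  · exact h1

end setup

end Pool.Agent.K4H62.HF
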