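import Pool.Agent.K4H62.HF.Main2

/-!
The height inequality for fibrations in hyperbolic affine curves.
-/

set_option autoImplicit false
set_option linter.overlappingInstances false
set_option linter.unusedSectionVars false

open FF Pool.Agent.W603.LV Pool.Agent.W603.PV Polynomial
open Pool.Agent.TH466.QG (Sp)

namespace Pool.Agent.K4H62.HF

theorem book {χ Hφ fr Ha Ht χK Y Z R : ℤ} {N0 Θc C C1 q C2 N dg : ℕ} (hχ : 0 ≤ χ) (hHφ : 0 ≤ Hφ)
    (h1 : 1 ≤ fr) (h2 : fr ≤ N0) (hHa : Ha = fr * Hφ) (hHt0 : 0 ≤ Ht) (hHt : Ht ≤ Θc * (C * Ha))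
    (hχK : χK ≤ N0 * χ + N0 * (2 * Ht)) (hY : Y ≤ C1 * (χK + q * Ht + Ht))
    (hZ : Z ≤ N * (C2 * (Y + Ha))) (hR : R ≤ dg * Z) :
    R ≤ ((dg * N * C2 * (C1 * N0 + C1 * (2 * N0 + q + 1) * (Θc * C * N0) + N0) : ℕ) : ℤ) *
      (χ + Hφ) := by
  have hHa' : Ha ≤ N0 * Hφ := by
    rw [hHa]
    exact mul_le_mul_of_nonneg_right h2 hHφ
  have e1 : Ht ≤ Θc * C * N0 * Hφ := by
    refine hHt.trans ?_
    have : (Θc : ℤ) * (C * Ha) ≤ Θc * (C * (N0 * Hφ)) :=
      mul_le_mul_of_nonneg_left (mul_le_mul_of_nonneg_left hHa' (by positivity)) (by positivity)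
    linarith
  obtain ⟨X, hX⟩ : ∃ X : ℤ, X = Θc * C * N0 := ⟨_, rfl⟩
  have hX0 : 0 ≤ X := by rw [hX]; positivity
  rw [← hX] at e1
  have e2 : χK + q * Ht + Ht ≤ N0 * χ + (2 * N0 + q + 1) * (X * Hφ) := by
    have : ((2 * N0 + q + 1 : ℕ) : ℤ) * Ht ≤ ((2 * N0 + q + 1 : ℕ) : ℤ) * (X * Hφ) :=
      mul_le_mul_of_nonneg_left e1 (by positivity)
    push_cast at this
    linarith
  have e3 : Y + Ha ≤ (C1 * N0 + C1 * (2 * N0 + q + 1) * X + N0) * (χ + Hφ) := by
    have a1 : (C1 : ℤ) * (χK + q * Ht + Ht) ≤ C1 * (N0 * χ + (2 * N0 + q + 1) * (X * Hφ)) :=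
      mul_le_mul_of_nonneg_left e2 (by positivity)
    have a2 : 0 ≤ (C1 : ℤ) * N0 * Hφ := by positivity
    have a3 : 0 ≤ (C1 : ℤ) * (2 * N0 + q + 1) * X * χ := by positivity
    have a4 : 0 ≤ (N0 : ℤ) * χ := by positivity
    linarith
  have e4 : (N : ℤ) * (C2 * (Y + Ha)) ≤
      N * (C2 * ((C1 * N0 + C1 * (2 * N0 + q + 1) * X + N0) * (χ + Hφ))) :=
    mul_le_mul_of_nonneg_left (mul_le_mul_of_nonneg_left e3 (by positivity)) (by positivity)
  have e5 : (dg : ℤ) * Z ≤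
      dg * (N * (C2 * ((C1 * N0 + C1 * (2 * N0 + q + 1) * X + N0) * (χ + Hφ)))) :=
    mul_le_mul_of_nonneg_left (hZ.trans e4) (by positivity)
  push_cast
  rw [← hX]
  linarith

/-- **The relative height inequality.** -/
theorem relative {k B0 B M : Type} [Field k] [IsAlgClosed k] [CharZero k] [CommRing B0]
    [CommRing B] [Field M] [Algebra k B0] [Algebra k B] [Algebra.FiniteType k B] [Algebra k M]
    [Algebra B0 B] [Algebra B0 M] [Algebra B M] [IsScalarTower k B0 B] [IsScalarTower k B M]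
    [IsScalarTower B0 B M] {Ω : IntermediateField k M} (h : HyperbolicFibres B0 B Ω) {m : ℕ}
    (a : Fin m → B0) (ha : Algebra.adjoin k (Set.range a) = ⊤) :
    ∃ g : B, g ≠ 0 ∧ ∀ b : B, ∃ A : ℕ, ∀ (E : Type) [Field E] [Algebra k E] [IsFF k E]
      (S : Finset (Place k E)) (φ : B →ₐ[k] E), (∀ b, ∀ P ∉ S, 0 ≤ P.ord (φ b)) → φ g ≠ 0 →
        hgt k (φ b) ≤ A * (max (canDeg k E + S.card) 0 +
          ∑ j, hgt k (φ (algebraMap B0 B (a j)))) := by
  classical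
  have hff := h.ff
  have hcl := h.closed
  have hchΩ : CharZero Ω := charZero_of_injective_algebraMap (algebraMap k Ω).injective
  obtain ⟨N, π, hπ⟩ := Algebra.FiniteType.iff_quotient_mvPolynomial''.1
    (inferInstance : Algebra.FiniteType k B)
  obtain ⟨ξ, hξd⟩ : ∃ ξ : Fin N → M, ∀ i, ξ i = algebraMap B M (π (MvPolynomial.X i)) :=
    ⟨_, fun _ => rfl⟩
  have hξ : ∀ G, MvPolynomial.aeval ξ G = algebraMap B M (π G) := by
    intro G
    have e : MvPolynomial.aeval ξ = (IsScalarTower.toAlgHom k B M).comp π := by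
      apply MvPolynomial.algHom_ext
      intro i
      rw [MvPolynomial.aeval_X, hξd]
      rfl
    rw [e]
    rfl
  obtain ⟨α, hαd⟩ : ∃ α : Fin m → M, ∀ j, α j = algebraMap B0 M (a j) := ⟨_, fun _ => rfl⟩
  obtain ⟨F, hF⟩ : ∃ F : IntermediateField k M, F = IntermediateField.adjoin k (Set.range α) :=
    ⟨_, rfl⟩
  have hst0 : IsScalarTower k B0 M := by
    refine IsScalarTower.of_algebraMap_eq fun c => ?_
    rw [IsScalarTower.algebraMap_apply k B M, IsScalarTower.algebraMap_apply k B0 B,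
      ← IsScalarTower.algebraMap_apply B0 B M]
  have hB0F : ∀ b : B0, algebraMap B0 M b ∈ F := by
    intro b
    have hb : b ∈ Algebra.adjoin k (Set.range a) := by
      rw [ha]
      exact Algebra.mem_top
    rw [Algebra.adjoin_range_eq_range_aeval] at hb
    obtain ⟨G, rfl⟩ := hb
    have e : MvPolynomial.aeval α = (IsScalarTower.toAlgHom k B0 M).comp (MvPolynomial.aeval a) := by
      apply MvPolynomial.algHom_ext
      intro i
      rw [MvPolynomial.aeval_X, hαd, AlgHom.comp_apply, MvPolynomial.aeval_X]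
      rfl
    have e2 : algebraMap B0 M (MvPolynomial.aeval a G) = MvPolynomial.aeval α G := by
      rw [e]
      rfl
    change algebraMap B0 M (MvPolynomial.aeval a G) ∈ F
    rw [e2, hF]
    exact mem_adjoin_aeval α G
  have hFΩ : F ≤ Ω := by
    rw [hF, IntermediateField.adjoin_le_iff]
    rintro _ ⟨j, rfl⟩
    rw [hαd]
    exact h.base _
  have hBL : ∀ b : B, algebraMap B M b ∈ IntermediateField.adjoin k (Set.range ξ) := by
    intro b
    obtain ⟨G, rfl⟩ := hπ b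
    rw [← hξ]
    exact mem_adjoin_aeval ξ G
  have hFL : F ≤ IntermediateField.adjoin k (Set.range ξ) := by
    rw [hF, IntermediateField.adjoin_le_iff]
    rintro _ ⟨j, rfl⟩
    rw [hαd, IsScalarTower.algebraMap_apply B0 B M]
    exact hBL _
  have hinj0 : Function.Injective (algebraMap B0 M) := by
    rw [IsScalarTower.algebraMap_eq B0 B M]
    exact h.inj.comp h.inj0
  have hΩF : ∀ c ∈ Ω, IsAlgebraic F c := fun c hc => alg_of_ring hinj0 F hB0F (h.alg c hc)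
  -- the covering
  obtain ⟨p, θ, c, f, hf, hsum⟩ := h.etale
  obtain ⟨i0⟩ : Nonempty (Fin p) := by
    by_contra hcon
    rw [not_nonempty_iff] at hcon
    rw [Finset.univ_eq_empty, Finset.sum_empty] at hsum
    exact zero_ne_one hsum
  choose r hr using fun i => exists_r (hf i).1 (hf i).2.2.2.1 (hf i).2.2.2.2 (θ i0)
  have hall : ∀ x, x ∈ IntermediateField.adjoin Ω (insert (θ i0) (Set.range ξ)) :=
    mem_all Ω hBL (hf i0).2.2.2.2
  have hθ0 : IsAlgebraic (IntermediateField.adjoin k (Set.range ξ)) (θ i0) := by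
    refine alg_trans' _ Ω (Set.range (algebraMap B M)) (fun c hc => alg_mono hFL (hΩF c hc)) ?_ ?_
    · rintro _ ⟨b, rfl⟩
      exact isAlgebraic_algebraMap (R := IntermediateField.adjoin k (Set.range ξ)) (A := M)
        ⟨_, hBL b⟩
    · have h1 : IsIntegral (fieldOf B Ω) (θ i0) := ⟨f i0, (hf i0).1, (hf i0).2.2.2.1⟩
      exact h1.isAlgebraic
  -- the functions
  obtain ⟨q, s, n, n', y, u, v, cc, hs, hnn, hyT, hu0, hvi, hg, hint⟩ := geo_data hπ hξ h.gon
  obtain ⟨bs, hbs⟩ : ∃ bs, bs = ∑ i, cc i • ξ i := ⟨_, rfl⟩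
  rw [← hbs] at hint
  have hy0 : y ≠ 0 := by
    rintro rfl
    exact hyT isAlgebraic_zero
  have hyv : ∀ i, y - (v i : M) ≠ 0 := by
    intro i h0
    apply hyT
    rw [sub_eq_zero.1 h0]
    exact isAlgebraic_algebraMap (v i)
  obtain ⟨W, hW⟩ : ∃ W : Finset M, W = {u, u * y ^ n'} ∪ (Finset.univ.image θ ∪
    (Finset.univ.image c ∪ Finset.univ.biUnion fun i =>
      (Finset.range ((f i).natDegree + 1)).image fun j => (((f i).coeff j : fieldOf B Ω) : M))) :=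
    ⟨_, rfl⟩
  have hWu : u ∈ W := by rw [hW]; simp
  have hWy : u * y ^ n' ∈ W := by rw [hW]; simp
  have hWθ : ∀ i, θ i ∈ W := fun i => by
    rw [hW]
    exact Finset.mem_union_right _ (Finset.mem_union_left _
      (Finset.mem_image_of_mem _ (Finset.mem_univ i)))
  have hWc : ∀ i, c i ∈ W := fun i => by
    rw [hW]
    exact Finset.mem_union_right _ (Finset.mem_union_right _ (Finset.mem_union_left _
      (Finset.mem_image_of_mem _ (Finset.mem_univ i))))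
  have hWf : ∀ i, ∀ j ∈ Finset.range ((f i).natDegree + 1),
      (((f i).coeff j : fieldOf B Ω) : M) ∈ W := fun i j hj => by
    rw [hW]
    exact Finset.mem_union_right _ (Finset.mem_union_right _ (Finset.mem_union_right _
      (Finset.mem_biUnion.2 ⟨i, Finset.mem_univ i, Finset.mem_image_of_mem _ hj⟩)))
  have hWint : ∀ w ∈ W, IsIntegral (Algebra.adjoin Ω {bs}) w := by
    intro w hw
    apply hint
    rw [hW] at hw
    rcases Finset.mem_union.1 hw with hw | hw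
    · rcases Finset.mem_insert.1 hw with rfl | hw
      · exact (hg _ (Or.inl rfl)).2.2
      · rw [Finset.mem_singleton.1 hw]
        exact (hg _ (Or.inr rfl)).2.2
    rcases Finset.mem_union.1 hw with hw | hw
    · obtain ⟨i, -, rfl⟩ := Finset.mem_image.1 hw
      exact regular_of_monic (hf i).1 (hf i).2.1 (hf i).2.2.2.1
    rcases Finset.mem_union.1 hw with hw | hw
    · obtain ⟨i, -, rfl⟩ := Finset.mem_image.1 hw
      exact (hf i).2.2.1
    · obtain ⟨i, -, hw⟩ := Finset.mem_biUnion.1 hw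
      obtain ⟨j, -, rfl⟩ := Finset.mem_image.1 hw
      exact (hf i).2.1 j
  obtain ⟨Θ1, hΘ1, hb1⟩ := int_bounds W hWint
  obtain ⟨G1, hG1⟩ : ∃ G1 : M → M, G1 = fun g => g * ∏ i, (y - algebraMap Ω M (v i)) ^ n := ⟨_, rfl⟩
  obtain ⟨G2, hG2⟩ : ∃ G2 : M → M, G2 = fun g => g * ∏ i, ((y - algebraMap Ω M (v i)) * y⁻¹) ^ n :=
    ⟨_, rfl⟩
  obtain ⟨Θ2, hΘ2, hb2⟩ := int_bounds (s := y) ({G1 u, G1 (u * y ^ n')} : Finset M) (by
    intro w hw
    rw [hG1] at hw
    rcases Finset.mem_insert.1 hw with rfl | hw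
    · exact (hg _ (Or.inl rfl)).1
    · rw [Finset.mem_singleton.1 hw]
      exact (hg _ (Or.inr rfl)).1)
  obtain ⟨Θ3, hΘ3, hb3⟩ := int_bounds (s := y⁻¹) ({G2 u, G2 (u * y ^ n')} : Finset M) (by
    intro w hw
    rw [hG2] at hw
    rcases Finset.mem_insert.1 hw with rfl | hw
    · exact (hg _ (Or.inl rfl)).2.1
    · rw [Finset.mem_singleton.1 hw]
      exact (hg _ (Or.inr rfl)).2.1)
  obtain ⟨Θ4, hΘ4⟩ : ∃ Θ4 : Finset M, Θ4 = (Finset.univ.image (fun i => (v i : M)) ∪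
    Finset.univ.image (fun ij : Fin q × Fin q => (v ij.1 : M) - (v ij.2 : M))).filter
      (fun x => x ≠ 0) := ⟨_, rfl⟩
  have hΘ4' : ∀ ϑ ∈ Θ4, ϑ ∈ Ω ∧ ϑ ≠ 0 := by
    intro ϑ hϑ
    rw [hΘ4, Finset.mem_filter] at hϑ
    refine ⟨?_, hϑ.2⟩
    rcases Finset.mem_union.1 hϑ.1 with h1 | h1
    · obtain ⟨i, -, rfl⟩ := Finset.mem_image.1 h1
      exact (v i).2
    · obtain ⟨ij, -, rfl⟩ := Finset.mem_image.1 h1
      exact sub_mem (v ij.1).2 (v ij.2).2
  obtain ⟨Θc, hΘc⟩ : ∃ Θc : Finset M, Θc = Θ1 ∪ (Θ2 ∪ (Θ3 ∪ Θ4)) := ⟨_, rfl⟩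
  have hΘcΩ : ∀ ϑ ∈ Θc, ϑ ∈ Ω ∧ ϑ ≠ 0 := by
    intro ϑ hϑ
    rw [hΘc] at hϑ
    rcases Finset.mem_union.1 hϑ with hϑ | hϑ
    · exact hΘ1 ϑ hϑ
    rcases Finset.mem_union.1 hϑ with hϑ | hϑ
    · exact hΘ2 ϑ hϑ
    rcases Finset.mem_union.1 hϑ with hϑ | hϑ
    · exact hΘ3 ϑ hϑ
    · exact hΘ4' ϑ hϑ
  -- the heights of the coordinates
  obtain ⟨Θh, C2, hΘh, hC2⟩ := alg_hgt' (Fin.cons y α : Fin (m + 1) → M) (Finset.univ.image ξ)
    fun ϑ _ => alg_cons Ω (fun c hc => by rw [← hF]; exact hΩF c hc) hyT ϑ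
  -- spreading out
  obtain ⟨Ξ1, hΞ1⟩ : ∃ Ξ1 : Finset M, Ξ1 = Finset.univ.biUnion fun i =>
    ((Finset.range ((f i).natDegree + 1)).image fun j => (((f i).coeff j : fieldOf B Ω) : M)) ∪
    ((Finset.range ((r i).natDegree + 1)).image fun j => (((r i).coeff j : fieldOf B Ω) : M)) :=
    ⟨_, rfl⟩
  obtain ⟨Ξ2, hΞ2⟩ : ∃ Ξ2 : Finset M, Ξ2 = {u, u⁻¹, y, y⁻¹} ∪ (Finset.univ.image (fun i => (v i : M)) ∪
    (Finset.univ.image (fun i => (y - (v i : M))⁻¹) ∪ (Finset.univ.image θ ∪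
      (Finset.univ.image c ∪ Θh)))) := ⟨_, rfl⟩
  have hΞ2v : ∀ i, (v i : M) ∈ Ξ2 := fun i => by
    rw [hΞ2]
    exact Finset.mem_union_right _ (Finset.mem_union_left _
      (Finset.mem_image_of_mem _ (Finset.mem_univ i)))
  have hΞ2yv : ∀ i, (y - (v i : M))⁻¹ ∈ Ξ2 := fun i => by
    rw [hΞ2]
    exact Finset.mem_union_right _ (Finset.mem_union_right _ (Finset.mem_union_left _
      (Finset.mem_image_of_mem _ (Finset.mem_univ i))))
  have hΞ2θ : ∀ i, θ i ∈ Ξ2 := fun i => by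
    rw [hΞ2]
    exact Finset.mem_union_right _ (Finset.mem_union_right _ (Finset.mem_union_right _
      (Finset.mem_union_left _ (Finset.mem_image_of_mem _ (Finset.mem_univ i)))))
  have hΞ2c : ∀ i, c i ∈ Ξ2 := fun i => by
    rw [hΞ2]
    exact Finset.mem_union_right _ (Finset.mem_union_right _ (Finset.mem_union_right _
      (Finset.mem_union_right _ (Finset.mem_union_left _
        (Finset.mem_image_of_mem _ (Finset.mem_univ i))))))
  have hΞ2h : ∀ x ∈ Θh, x ∈ Ξ2 := fun x hx => by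
    rw [hΞ2]
    exact Finset.mem_union_right _ (Finset.mem_union_right _ (Finset.mem_union_right _
      (Finset.mem_union_right _ (Finset.mem_union_right _ hx))))
  obtain ⟨Θ, N0, C, H, hΘ, hH, hsp⟩ := spread3 hF hFΩ hFL hΩF hθ0 Ξ1 Ξ2 Θc (by
    intro x hx
    rw [hΞ1] at hx
    obtain ⟨i, -, hx⟩ := Finset.mem_biUnion.1 hx
    rcases Finset.mem_union.1 hx with hx | hx
    · obtain ⟨j, -, rfl⟩ := Finset.mem_image.1 hx
      exact mem_fieldOf Ω hBL ((f i).coeff j).2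
    · obtain ⟨j, -, rfl⟩ := Finset.mem_image.1 hx
      exact mem_fieldOf Ω hBL ((r i).coeff j).2) (fun x _ => hall x) hΘcΩ
  have hΘs1 : Θ1 ⊆ Θ := fun x hx => hΘ (by rw [hΘc]; exact Finset.mem_union_left _ hx)
  have hΘs2 : Θ2 ⊆ Θ := fun x hx => hΘ (by
    rw [hΘc]; exact Finset.mem_union_right _ (Finset.mem_union_left _ hx))
  have hΘs3 : Θ3 ⊆ Θ := fun x hx => hΘ (by
    rw [hΘc]
    exact Finset.mem_union_right _ (Finset.mem_union_right _ (Finset.mem_union_left _ hx)))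
  have hΘs4 : ∀ i, (v i : M) = 0 ∨ (v i : M) ∈ Θ := by
    intro i
    by_cases h0 : (v i : M) = 0
    · exact Or.inl h0
    right
    refine hΘ ?_
    rw [hΘc, hΘ4]
    exact Finset.mem_union_right _ (Finset.mem_union_right _ (Finset.mem_union_right _
      (Finset.mem_filter.2 ⟨Finset.mem_union_left _
        (Finset.mem_image_of_mem _ (Finset.mem_univ i)), h0⟩)))
  have hΘs5 : ∀ i j, i ≠ j → (v i : M) - (v j : M) ∈ Θ := by
    intro i j hij
    refine hΘ ?_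
    rw [hΘc, hΘ4]
    refine Finset.mem_union_right _ (Finset.mem_union_right _ (Finset.mem_union_right _
      (Finset.mem_filter.2 ⟨Finset.mem_union_right _
        (Finset.mem_image.2 ⟨(i, j), Finset.mem_univ _, rfl⟩), ?_⟩)))
    rw [sub_ne_zero]
    intro h0
    exact hij (hvi (Subtype.ext h0))
  obtain ⟨C1, hC1⟩ := core (q := q) hs hnn
  have hg0 : π H ≠ 0 := by
    intro h0
    apply hH
    rw [hξ, h0, map_zero]
  refine ⟨π H, hg0, ?_⟩
  intro b
  obtain ⟨G, rfl⟩ := hπ b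
  refine ⟨G.totalDegree * N * C2 * (C1 * N0 + C1 * (2 * N0 + q + 1) * (Θ.card * C * N0) + N0), ?_⟩
  intro E _ _ _ S φ hφ hφg
  obtain ⟨z, hzd⟩ : ∃ z : Fin N → E, ∀ i, z i = φ (π (MvPolynomial.X i)) := ⟨_, fun _ => rfl⟩
  have hz : ∀ G, MvPolynomial.aeval z G = φ (π G) := by
    intro G
    have e : MvPolynomial.aeval z = φ.comp π := by
      apply MvPolynomial.algHom_ext
      intro i
      rw [MvPolynomial.aeval_X, hzd]
      rfl
    rw [e]
    rfl
  obtain ⟨E', i1, i2, i3, i4, i5, hffE', K, j1, j2, j3, j4, j5, hffK, hrk, T, t, hTξ, hT1, hT2,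
    hTΘ, ⟨θ0', hθ0', htop⟩, hram⟩ := hsp E z (by
      intro G hG
      rw [hξ] at hG
      have h1 := h.inj (hG.trans (map_zero _).symm)
      rw [hz, h1, map_zero]) (by
      rw [hz]
      exact hφg)
  let _ : Algebra E K := ((algebraMap E' K).comp (algebraMap E E')).toAlgebra
  have hst : IsScalarTower E E' K := IsScalarTower.of_algebraMap_eq fun _ => rfl
  have hstk : IsScalarTower k E K := IsScalarTower.of_algebraMap_eq fun c => by
    change algebraMap k K c = algebraMap E' K (algebraMap E E' (algebraMap k E c))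
    rw [← IsScalarTower.algebraMap_apply k E E', ← IsScalarTower.algebraMap_apply k E' K]
  have hfd : FiniteDimensional E K := FiniteDimensional.trans E E' K
  have hTG : ∀ G, T.T (MvPolynomial.aeval ξ G) (algebraMap E K (φ (π G))) := by
    intro G
    have h1 := Sp_aeval T hTξ G
    have h2 := MvPolynomial.aeval_algebraMap_apply (R := k) K z G
    have h3 : (fun i => algebraMap E' K (algebraMap E E' (z i))) = (algebraMap E K ∘ z) := rfl
    rw [h3, h2, hz] at h1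
    exact h1
  obtain ⟨α', hα'd⟩ : ∃ α' : Fin m → K, ∀ j, α' j = algebraMap E K (φ (algebraMap B0 B (a j))) :=
    ⟨_, fun _ => rfl⟩
  have hα' : ∀ j, T.T (α j) (α' j) := by
    intro j
    obtain ⟨Gj, hGj⟩ := hπ (algebraMap B0 B (a j))
    have h1 := hTG Gj
    rw [hξ, hGj, ← IsScalarTower.algebraMap_apply B0 B M] at h1
    rw [hαd, hα'd]
    exact h1
  -- the specializations
  obtain ⟨y', hy'⟩ := hT2 y (by rw [hΞ2]; simp)
  obtain ⟨u', hu'⟩ := hT2 u (by rw [hΞ2]; simp)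
  have hyinv := hT2 y⁻¹ (by rw [hΞ2]; simp)
  have hy'0 : y' ≠ 0 := T.ne_zero hy' hyinv hy0
  have hu'0 : u' ≠ 0 := T.ne_zero hu' (hT2 u⁻¹ (by rw [hΞ2]; simp)) hu0
  have hyi : T.T y⁻¹ y'⁻¹ := by
    obtain ⟨e, he⟩ := hyinv
    have h1 := T.mul hy' he
    rw [mul_inv_cancel₀ hy0] at h1
    have h2 := T.ext h1 T.one
    have h3 : e = y'⁻¹ := by
      field_simp
      rw [mul_comm]
      exact h2
    rw [← h3]
    exact he
  choose v' hv' using fun i => hT2 (v i : M) (hΞ2v i)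
  choose θ' hθ' using fun i => hT2 (θ i) (hΞ2θ i)
  choose c' hc' using fun i => hT2 (c i) (hΞ2c i)
  have hTt : ∀ ϑ ∈ Θ, T.T ϑ (t ϑ) := fun ϑ hϑ => (hTΘ ϑ hϑ).1
  have hyv' : ∀ i, y' ≠ v' i := fun i =>
    sub_ne_zero.1 (T.ne_zero (T.sub hy' (hv' i)) (hT2 _ (hΞ2yv i)) (hyv i))
  have hvv' : ∀ i j, i ≠ j → v' i - v' j = t ((v i : M) - (v j : M)) := fun i j hij =>
    T.ext (T.sub (hv' i) (hv' j)) (hTt _ (hΘs5 i j hij))
  have hvv0 : ∀ i j, i ≠ j → v' i ≠ v' j := fun i j hij => sub_ne_zero.1 (by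
    rw [hvv' i j hij]
    exact (hTΘ _ (hΘs5 i j hij)).2.1)
  have hσ0 : ∀ P : Place k K, 0 ≤ ∑ ϑ ∈ Θ, |P.ord (t ϑ)| := fun P =>
    Finset.sum_nonneg fun _ _ => abs_nonneg _
  have hle : ∀ P : Place k K, ∀ ϑ ∈ Θ, |P.ord (t ϑ)| ≤ ∑ ϑ ∈ Θ, |P.ord (t ϑ)| := fun P ϑ hϑ =>
    Finset.single_le_sum (f := fun ϑ => |P.ord (t ϑ)|) (fun _ _ => abs_nonneg _) hϑ
  have hva : ∀ (P : Place k K) i, |P.ord (v' i)| ≤ ∑ ϑ ∈ Θ, |P.ord (t ϑ)| := by
    intro P i
    rcases hΘs4 i with h0 | h0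
    · rw [T.eq_zero (hv' i) h0, P.ord_zero, abs_zero]
      exact hσ0 P
    · rw [T.ext (hv' i) (hTt _ h0)]
      exact hle P _ h0
  have hHt0 : 0 ≤ ∑ ϑ ∈ Θ, hgt k (t ϑ) := Finset.sum_nonneg fun _ _ => hgt_nonneg _
  have hvh : ∀ i, hgt k (v' i) ≤ ∑ ϑ ∈ Θ, hgt k (t ϑ) := by
    intro i
    rcases hΘs4 i with h0 | h0
    · rw [T.eq_zero (hv' i) h0, hgt_algebraic isAlgebraic_zero]
      exact hHt0
    · rw [T.ext (hv' i) (hTt _ h0)]
      exact Finset.single_le_sum (f := fun ϑ => hgt k (t ϑ)) (fun _ _ => hgt_nonneg _) h0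
  obtain ⟨Gs, hGs⟩ : ∃ Gs : MvPolynomial (Fin N) k,
    Gs = ∑ i, MvPolynomial.C (cc i) * MvPolynomial.X i := ⟨_, rfl⟩
  have hbs' : T.T bs (algebraMap E K (φ (π Gs))) := by
    have h1 := hTG Gs
    have h2 : MvPolynomial.aeval ξ Gs = bs := by
      rw [hGs, hbs, map_sum]
      refine Finset.sum_congr rfl fun i _ => ?_
      rw [map_mul, MvPolynomial.aeval_C, MvPolynomial.aeval_X, Algebra.smul_def]
    rwa [h2] at h1
  obtain ⟨Bd, hBd1, hBd2⟩ := exists_bad (k := k) Θ t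
  have hreg : ∀ P : Place k K, under E P ∉ S → P ∉ Bd → ∀ w ∈ W, ∀ w', T.T w w' → Ge P 0 w' := by
    intro P hPS hPB w hw w' hw'
    have h1 := hb1 K T t Θ hΘs1 hTt w hw _ w' hbs' hw' P ((ge_under P).2 (Or.inr (hφ _ _ hPS)))
    have h2 : ∑ ϑ ∈ Θ, |P.ord (t ϑ)| = 0 := Finset.sum_eq_zero fun ϑ hϑ => by
      rw [hBd1 P hPB ϑ hϑ, abs_zero]
    rw [h2, neg_zero] at h1
    exact h1
  have hco : ∀ (g : Fin p → Polynomial (fieldOf B Ω)),
      (∀ i, ∀ j ∈ Finset.range ((g i).natDegree + 1),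
        (((g i).coeff j : fieldOf B Ω) : M) ∈ Ξ1) → ∀ i j, ∃ t : E',
        T.T (algebraMap (fieldOf B Ω) M ((g i).coeff j)) (algebraMap E' K t) := by
    intro g hg i j
    by_cases hj : j ∈ Finset.range ((g i).natDegree + 1)
    · exact hT1 _ (hg i j hj)
    · refine ⟨0, ?_⟩
      rw [Finset.mem_range] at hj
      rw [coeff_eq_zero_of_natDegree_lt (by omega), map_zero, map_zero]
      exact T.zero
  have hunr : ∀ P : Place k K, under E P ∉ S → P ∉ Bd → ram E P = 1 := by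
    intro P hPS hPB
    obtain ⟨x, hx⟩ := cover_one (E := E) (E' := E') (i0 := i0) T P (hram P (hBd1 P hPB))
      (fun i => (hf i).2.2.2.1) hr hsum hθ' hc' (by
        rw [T.ext (hθ' i0) hθ0']
        exact htop) (hco f fun i j hj => by
        rw [hΞ1]
        exact Finset.mem_biUnion.2 ⟨i, Finset.mem_univ i, Finset.mem_union_left _
          (Finset.mem_image_of_mem _ hj)⟩) (hco r fun i j hj => by
        rw [hΞ1]
        exact Finset.mem_biUnion.2 ⟨i, Finset.mem_univ i, Finset.mem_union_right _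
          (Finset.mem_image_of_mem _ hj)⟩) (by
        intro i j w' hw'
        by_cases hj : j ∈ Finset.range ((f i).natDegree + 1)
        · exact hreg P hPS hPB _ (hWf i j hj) _ hw'
        · left
          rw [Finset.mem_range] at hj
          rw [coeff_eq_zero_of_natDegree_lt (by omega), map_zero] at hw'
          exact T.uniq hw')
      (fun i => hreg P hPS hPB _ (hWθ i) _ (hθ' i)) (fun i => hreg P hPS hPB _ (hWc i) _ (hc' i))
    have h3 := ord_under (F := E) P x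
    change P.ord (algebraMap E K x) = 1 at hx
    rw [hx] at h3
    have h5 : (ram E P : ℤ) ∣ 1 := ⟨_, h3⟩
    exact_mod_cast Int.eq_one_of_dvd_one (Int.natCast_nonneg _) h5
  obtain ⟨S'', hS1, hS2⟩ := ram_bound (E := E) (K := K) S Bd hunr
  have hcs : ∀ P : Place k K, ∑ ι : (Θ : Finset M), |P.ord (t ι)| = ∑ ϑ ∈ Θ, |P.ord (t ϑ)| :=
    fun P => Finset.sum_coe_sort Θ fun ϑ => |P.ord (t ϑ)|
  have hcs' : ∑ ι : (Θ : Finset M), hgt k (t ι) = ∑ ϑ ∈ Θ, hgt k (t ϑ) :=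
    Finset.sum_coe_sort Θ fun ϑ => hgt k (t ϑ)
  have hTuy : T.T (u * y ^ n') (u' * y' ^ n') := T.mul hu' (T.pow hy' n')
  have hcore := hC1 k K (Θ : Finset M) (fun ι => t ι) y' u' v' S'' hy'0 hu'0 hyv' hvv0 (by
    intro P
    rw [hcs]
    refine ⟨hva P, fun i j hij => ?_, ?_⟩
    · rw [hvv' i j hij]
      exact hle P _ (hΘs5 i j hij)
    have key : ∀ g g', T.T g g' → (g = u ∨ g = u * y ^ n') →
        (Ge P 0 y' → Ge P (-(∑ ϑ ∈ Θ, |P.ord (t ϑ)|)) (g' * ∏ i, (y' - v' i) ^ n)) ∧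
        (Ge P 0 y'⁻¹ → Ge P (-(∑ ϑ ∈ Θ, |P.ord (t ϑ)|)) (g' * ∏ i, ((y' - v' i) * y'⁻¹) ^ n)) := by
      intro g g' hgg hgu
      constructor
      · intro hP
        refine hb2 K T t Θ hΘs2 hTt (G1 g) ?_ y' _ hy' ?_ P hP
        · rcases hgu with rfl | rfl <;> simp
        · rw [hG1]
          exact T.mul hgg (T.prod _ fun i _ => T.pow (T.sub hy' (hv' i)) n)
      · intro hP
        refine hb3 K T t Θ hΘs3 hTt (G2 g) ?_ y'⁻¹ _ hyi ?_ P hP
        · rcases hgu with rfl | rfl <;> simp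
        · rw [hG2]
          exact T.mul hgg (T.prod _ fun i _ => T.pow (T.mul (T.sub hy' (hv' i)) hyi) n)
    rintro g' (rfl | rfl)
    · exact key u _ hu' (Or.inl rfl)
    · exact key _ _ hTuy (Or.inr rfl)) (by
    intro P hP
    obtain ⟨h1, h2⟩ := (hS1 P).1 hP
    exact ⟨hreg P h1 h2 _ hWu _ hu', hreg P h1 h2 _ hWy _ hTuy⟩)
  rw [hcs'] at hcore
  -- the heights
  have hfr : Module.finrank E K = Module.finrank E E' * Module.finrank E' K :=
    (Module.finrank_mul_finrank E E' K).symm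
  rw [← hfr] at hrk
  have hfr1 : 1 ≤ Module.finrank E K := Module.finrank_pos
  have hξh : ∀ i, hgt k (algebraMap E K (z i)) ≤ C2 * (hgt k y' + ∑ j, hgt k (α' j)) := by
    intro i
    have h1 := hC2 K T (fun ϑ hϑ => hT2 ϑ (hΞ2h ϑ hϑ)) (Fin.cons y' α') (fun j => by
      refine Fin.cases ?_ (fun j => ?_) j
      · simpa using hy'
      · simpa using hα' j) (ξ i) (Finset.mem_image_of_mem _ (Finset.mem_univ i)) _ (hTξ i)
    rw [Fin.sum_univ_succ] at h1
    simp only [Fin.cons_zero, Fin.cons_succ] at h1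
    exact h1
  have hmv := hgt_mvpoly (k := k) z G
  rw [hz] at hmv
  have hαh : ∀ j, hgt k (α' j) = Module.finrank E K * hgt k (φ (algebraMap B0 B (a j))) := fun j => by
    rw [hα'd]
    exact hgt_algebraMap _
  have hzh : ∀ i, hgt k (z i) ≤ hgt k (algebraMap E K (z i)) := by
    intro i
    rw [hgt_algebraMap]
    have h1 : (1 : ℤ) ≤ Module.finrank E K := by exact_mod_cast hfr1
    have := hgt_nonneg (k := k) (z i)
    nlinarith
  have hth : ∀ ϑ ∈ Θ, hgt k (t ϑ) ≤ C * ∑ j, hgt k (α' j) := fun ϑ hϑ => (hTΘ ϑ hϑ).2.2 α' hα'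
  have hHa : ∑ j, hgt k (α' j) = Module.finrank E K * ∑ j, hgt k (φ (algebraMap B0 B (a j))) := by
    rw [Finset.mul_sum]
    exact Finset.sum_congr rfl fun j _ => hαh j
  have hHt : ∑ ϑ ∈ Θ, hgt k (t ϑ) ≤ Θ.card * (C * ∑ j, hgt k (α' j)) := by
    refine (Finset.sum_le_sum hth).trans ?_
    rw [Finset.sum_const, nsmul_eq_mul]
  have hHv : ∑ i, hgt k (v' i) ≤ q * ∑ ϑ ∈ Θ, hgt k (t ϑ) := by
    refine (Finset.sum_le_sum fun i _ => hvh i).trans ?_
    rw [Finset.sum_const, nsmul_eq_mul, Finset.card_univ, Fintype.card_fin]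
  have hHz : ∑ i, hgt k (z i) ≤ N * (C2 * (hgt k y' + ∑ j, hgt k (α' j))) := by
    refine (Finset.sum_le_sum fun i _ => (hzh i).trans (hξh i)).trans ?_
    rw [Finset.sum_const, nsmul_eq_mul, Finset.card_univ, Fintype.card_fin]
  have hχ0 : 0 ≤ max (canDeg k E + (S.card : ℤ)) 0 := le_max_right _ _
  have hHφ0 : 0 ≤ ∑ j, hgt k (φ (algebraMap B0 B (a j))) :=
    Finset.sum_nonneg fun _ _ => hgt_nonneg _
  have hfr1' : (1 : ℤ) ≤ Module.finrank E K := by exact_mod_cast hfr1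
  have hrk' : (Module.finrank E K : ℤ) ≤ N0 := by exact_mod_cast hrk
  have hχK : max (canDeg k K + (S''.card : ℤ)) 0 ≤
      N0 * max (canDeg k E + (S.card : ℤ)) 0 + N0 * (2 * ∑ ϑ ∈ Θ, hgt k (t ϑ)) := by
    have hfr0 : (0 : ℤ) ≤ Module.finrank E K := by linarith
    have hN0 : (0 : ℤ) ≤ N0 := by linarith
    refine max_le ?_ ?_
    · refine hS2.trans (add_le_add ?_ ?_)
      · exact (mul_le_mul_of_nonneg_left (le_max_left _ _) hfr0).trans
          (mul_le_mul_of_nonneg_right hrk' hχ0)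
      · exact (mul_le_mul_of_nonneg_left hBd2 hfr0).trans
          (mul_le_mul_of_nonneg_right hrk' (by linarith))
    · have h1 := mul_nonneg hN0 hχ0
      have h2 := mul_nonneg hN0 (by linarith : 0 ≤ 2 * ∑ ϑ ∈ Θ, hgt k (t ϑ))
      linarith
  exact book hχ0 hHφ0 hfr1' hrk' hHa hHt0 hHt hχK (hcore.trans (mul_le_mul_of_nonneg_left
    (by linarith) (Int.natCast_nonneg _))) hHz hmv

end Pool.Agent.K4H62.HF
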