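import Pool.Agent.TH466.QG.Spread

/-!
Spreading out in two steps: the constants of the generic fibre, and a covering.
-/

set_option autoImplicit false
set_option linter.overlappingInstances false
set_option linter.unusedSectionVars false

open IntermediateField Polynomial
open Pool.Agent.TH466.QG

namespace Pool.Agent.K4H62.HF

/-- extension of a specialization to a finite extension, with the generator -/
theorem ext_step' {k L E K' B : Type} [Field k] [Field L] [Field E] [Field K'] [CommRing B]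
    [Algebra k L] [Algebra k E] [Algebra k K'] [Algebra k B] [Algebra L K']
    [IsScalarTower k L K'] (α : B →ₐ[k] L) (β : B →ₐ[k] E) (hker : ∀ b, α b = 0 → β b = 0)
    {θ : K'} (hθ : IsIntegral L θ) (hco : ∀ i, (minpoly L θ).coeff i ∈ Set.range α) :
    ∃ (K'' : Type) (_ : Field K'') (_ : Algebra k K'') (_ : Algebra E K'')
      (_ : IsScalarTower k E K'') (_ : FiniteDimensional E K''),
      Module.finrank E K'' ≤ (minpoly L θ).natDegree ∧ ∃ S : Sp k K' K'',
        (∀ b, S.T (algebraMap L K' (α b)) (algebraMap E K'' (β b))) ∧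
        ∃ t, S.T θ t ∧ IntermediateField.adjoin E {t} = ⊤ := by
  have hBnt : Nontrivial B := α.toRingHom.domain_nontrivial
  obtain ⟨f, hf, hfd, hfm⟩ := Polynomial.lifts_and_natDegree_eq_and_monic (f := (α : B →+* L))
    ((Polynomial.lifts_iff_coeff_lifts _).2 hco) (minpoly.monic hθ)
  have hdeg : (f.map (β : B →+* E)).natDegree = (minpoly L θ).natDegree := by
    rw [hfm.natDegree_map, hfd]
  obtain ⟨g, hg, hgf⟩ := Polynomial.exists_irreducible_of_natDegree_ne_zero
    (f := f.map (β : B →+* E)) (by rw [hdeg]; exact (minpoly.natDegree_pos hθ).ne')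
  have hfact : Fact (Irreducible g) := ⟨hg⟩
  have hfin : FiniteDimensional E (AdjoinRoot g) := (AdjoinRoot.powerBasis hg.ne_zero).finite
  have hrank : Module.finrank E (AdjoinRoot g) = g.natDegree := by
    rw [(AdjoinRoot.powerBasis hg.ne_zero).finrank, AdjoinRoot.powerBasis_dim]
  have hroot : Polynomial.aeval (AdjoinRoot.root g) (f.map (β : B →+* E)) = 0 := by
    obtain ⟨q, hq⟩ := hgf
    rw [hq, map_mul, AdjoinRoot.aeval_eq, AdjoinRoot.mk_self, zero_mul]
  let j : B[X] →ₐ[k] K' := Polynomial.eval₂AlgHom ((IsScalarTower.toAlgHom k L K').comp α) θ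
    (fun _ => Commute.all _ _)
  let ψ : B[X] →ₐ[k] AdjoinRoot g := Polynomial.eval₂AlgHom
    ((IsScalarTower.toAlgHom k E (AdjoinRoot g)).comp β) (AdjoinRoot.root g)
    (fun _ => Commute.all _ _)
  have hj : ∀ P : B[X], j P = Polynomial.aeval θ (P.map (α : B →+* L)) := by
    intro P
    rw [Polynomial.aeval_def, Polynomial.eval₂_map]
    rfl
  have hψ : ∀ P : B[X], ψ P = Polynomial.aeval (AdjoinRoot.root g) (P.map (β : B →+* E)) := by
    intro P
    rw [Polynomial.aeval_def, Polynomial.eval₂_map]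
    rfl
  have hkerj : ∀ P, j P = 0 → ψ P = 0 := by
    intro P hP
    have h1 := Polynomial.modByMonic_add_div P f
    rw [← h1, map_add, map_mul] at hP ⊢
    have h2 : j f = 0 := by
      rw [hj, hf, minpoly.aeval]
    have h3 : ψ f = 0 := by rw [hψ]; exact hroot
    rw [h2, zero_mul, add_zero, hj] at hP
    rw [h3, zero_mul, add_zero, hψ]
    have h4 : (P %ₘ f).map (α : B →+* L) = 0 := by
      by_contra h0
      have h5 := minpoly.degree_le_of_ne_zero L θ h0 hP
      have h6 : ((P %ₘ f).map (α : B →+* L)).degree < (minpoly L θ).degree := by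
        refine lt_of_le_of_lt Polynomial.degree_map_le ?_
        refine lt_of_lt_of_le (Polynomial.degree_modByMonic_lt P hfm) ?_
        rw [Polynomial.degree_eq_natDegree hfm.ne_zero,
          Polynomial.degree_eq_natDegree (minpoly.monic hθ).ne_zero, hfd]
      exact absurd h5 (not_le_of_gt h6)
    have h5 : (P %ₘ f).map (β : B →+* E) = 0 := by
      ext i
      rw [Polynomial.coeff_map, Polynomial.coeff_zero]
      apply hker
      have := congrArg (fun p => Polynomial.coeff p i) h4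
      simpa using this
    rw [h5, map_zero]
  refine ⟨AdjoinRoot g, inferInstance, inferInstance, inferInstance, inferInstance, hfin, ?_,
    Sp.ofHom j ψ hkerj, ?_, ?_⟩
  · rw [hrank, ← hdeg]
    refine Polynomial.natDegree_le_of_dvd hgf ?_
    exact (hfm.map _).ne_zero
  · intro b
    refine ⟨Polynomial.C b, ?_, ?_⟩
    · rw [hj, Polynomial.map_C, Polynomial.aeval_C]
      rfl
    · rw [hψ, Polynomial.map_C, Polynomial.aeval_C]
      rfl
  · refine ⟨AdjoinRoot.root g, ⟨Polynomial.X, ?_, ?_⟩, ?_⟩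
    · rw [hj, Polynomial.map_X, Polynomial.aeval_X]
    · rw [hψ, Polynomial.map_X, Polynomial.aeval_X]
    · exact IntermediateField.adjoin_eq_top_of_algebra _ _ (AdjoinRoot.adjoinRoot_eq_top (f := g))

theorem Sp_aeval {k K K'' : Type} [Field k] [Field K] [Field K''] [Algebra k K] [Algebra k K'']
    (S : Sp k K K'') {σ : Type} {x : σ → K} {z : σ → K''} (h : ∀ i, S.T (x i) (z i))
    (G : MvPolynomial σ k) : S.T (MvPolynomial.aeval x G) (MvPolynomial.aeval z G) := by
  induction G using MvPolynomial.induction_on with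
  | C c =>
    rw [MvPolynomial.aeval_C, MvPolynomial.aeval_C]
    exact S.const c
  | add p q hp hq =>
    rw [map_add, map_add]
    exact S.add hp hq
  | mul_X p i hp =>
    rw [map_mul, map_mul, MvPolynomial.aeval_X, MvPolynomial.aeval_X]
    exact S.mul hp (h i)

theorem alg_mono {k M : Type} [Field k] [Field M] [Algebra k M] {K1 K2 : IntermediateField k M}
    (h : K1 ≤ K2) {θ : M} (hθ : IsAlgebraic K1 θ) : IsAlgebraic K2 θ := by
  obtain ⟨p, hp0, hp⟩ := hθ
  refine ⟨p.map (IntermediateField.inclusion h).toRingHom, ?_, ?_⟩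
  · rw [Ne, Polynomial.map_eq_zero]
    exact hp0
  · rw [Polynomial.aeval_def, Polynomial.eval₂_map]
    exact hp

/-- One step, inside a big field. -/
theorem step {k M : Type} [Field k] [Field M] [Algebra k M] {σ : Type}
    (x : σ → M) {θ : M} (hθ : IsAlgebraic (adjoin k (Set.range x)) θ) {Θ : Set M}
    (hΘ : Θ.Finite) (hΘθ : ∀ ϑ ∈ Θ, ϑ ∈ adjoin k (insert θ (Set.range x))) :
    ∃ (N : ℕ) (H : MvPolynomial σ k), MvPolynomial.aeval x H ≠ 0 ∧
      ∀ (E : Type) [Field E] [Algebra k E] (z : σ → E),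
        (∀ G : MvPolynomial σ k, MvPolynomial.aeval x G = 0 → MvPolynomial.aeval z G = 0) →
        MvPolynomial.aeval z H ≠ 0 →
        ∃ (K'' : Type) (_ : Field K'') (_ : Algebra k K'') (_ : Algebra E K'')
          (_ : IsScalarTower k E K'') (_ : FiniteDimensional E K''),
          Module.finrank E K'' ≤ N ∧ ∃ S : Sp k M K'',
            (∀ G H' : MvPolynomial σ k, MvPolynomial.aeval x H' ≠ 0 →
              MvPolynomial.aeval z H' ≠ 0 →
              S.T (MvPolynomial.aeval x G / MvPolynomial.aeval x H')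
                (algebraMap E K'' (MvPolynomial.aeval z G / MvPolynomial.aeval z H'))) ∧
            (∀ ϑ ∈ Θ, ∃ t, S.T ϑ t) ∧ ∃ t, S.T θ t ∧ IntermediateField.adjoin E {t} = ⊤ := by
  classical
  obtain ⟨L, hL⟩ : ∃ L : IntermediateField k M, L = adjoin k (Set.range x) := ⟨_, rfl⟩
  rw [← hL] at hθ
  have hxL : ∀ i, x i ∈ L := fun i => by
    rw [hL]
    exact subset_adjoin k _ ⟨i, rfl⟩
  obtain ⟨x0, hx0⟩ : ∃ x0 : σ → L, ∀ i, (x0 i : M) = x i := ⟨fun i => ⟨x i, hxL i⟩, fun _ => rfl⟩
  have hxtop : adjoin k (Set.range x0) = ⊤ := by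
    subst hL
    apply IntermediateField.lift_injective
    rw [IntermediateField.lift_adjoin, IntermediateField.lift_top]
    congr 1
    ext t
    constructor
    · rintro ⟨_, ⟨j, rfl⟩, rfl⟩
      exact ⟨j, (hx0 j).symm⟩
    · rintro ⟨j, rfl⟩
      exact ⟨x0 j, ⟨j, rfl⟩, hx0 j⟩
  have hxae : ∀ G : MvPolynomial σ k, ((MvPolynomial.aeval x0 G : L) : M) =
      MvPolynomial.aeval x G := by
    intro G
    have h1 := MvPolynomial.aeval_algebraMap_apply (R := k) M x0 G
    have h2 : (fun j => algebraMap L M (x0 j)) = x := funext hx0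
    have h3 : (algebraMap L M ∘ x0) = x := h2
    rw [h3] at h1
    exact h1.symm
  have hθi : IsIntegral L θ := hθ.isIntegral
  have hrep : ∀ ϑ : M, ∃ p : L[X], ϑ ∈ Θ → Polynomial.aeval θ p = ϑ := by
    intro ϑ
    by_cases hϑ : ϑ ∈ Θ
    · have h1 : ϑ ∈ (L⟮θ⟯).toSubalgebra := by
        have h2 : adjoin k (insert θ (Set.range x)) ≤ (L⟮θ⟯).restrictScalars k := by
          rw [IntermediateField.adjoin_le_iff]
          rintro y (rfl | ⟨i, rfl⟩)
          · exact IntermediateField.mem_adjoin_simple_self L y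
          · have h3 := (L⟮θ⟯).algebraMap_mem (x0 i)
            have h4 : algebraMap L M (x0 i) = x i := hx0 i
            rw [h4] at h3
            exact h3
        exact h2 (hΘθ ϑ hϑ)
      rw [IntermediateField.adjoin_simple_toSubalgebra_of_isAlgebraic hθ,
        Algebra.adjoin_singleton_eq_range_aeval] at h1
      obtain ⟨p, hp⟩ := h1
      exact ⟨p, fun _ => hp⟩
    · exact ⟨0, fun h => absurd h hϑ⟩
  choose p hp using hrep
  have hfinS : ((↑(minpoly L θ).coeffs : Set L) ∪ ⋃ ϑ ∈ Θ, (↑(p ϑ).coeffs : Set L)).Finite := by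
    refine (Finset.finite_toSet _).union (hΘ.biUnion fun ϑ _ => Finset.finite_toSet _)
  obtain ⟨H, hH, hG⟩ := exists_den hxtop hfinS
  refine ⟨(minpoly L θ).natDegree, H, fun h0 => hH (Subtype.ext (by rw [hxae, h0]; rfl)),
    fun E _ _ z hz hzH => ?_⟩
  have hz0 : ∀ G : MvPolynomial σ k, MvPolynomial.aeval x0 G = 0 → MvPolynomial.aeval z G = 0 :=
    fun G hG => hz G (by rw [← hxae, hG]; rfl)
  let α : graph k x0 z →ₐ[k] L := (AlgHom.fst k L E).comp (graph k x0 z).val
  let β : graph k x0 z →ₐ[k] E := (AlgHom.snd k L E).comp (graph k x0 z).val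
  have hker : ∀ b, α b = 0 → β b = 0 := by
    rintro ⟨⟨a, a'⟩, G, H', h1, h2, h3, h4⟩ h0
    change a = 0 at h0
    change a' = 0
    simp only at h3 h4
    rw [h0, zero_mul] at h3
    rw [hz0 G h3.symm] at h4
    exact (mul_eq_zero.1 h4).resolve_right h2
  have hr0 : ∀ G : MvPolynomial σ k, ∀ a : L,
      a * MvPolynomial.aeval x0 H = MvPolynomial.aeval x0 G → a ∈ Set.range α := by
    intro G a ha
    refine ⟨⟨(a, MvPolynomial.aeval z G / MvPolynomial.aeval z H), G, H, hH, hzH, ha, ?_⟩, rfl⟩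
    exact div_mul_cancel₀ _ hzH
  have hrange : ∀ q : L[X], (∀ c ∈ q.coeffs, ∃ G : MvPolynomial σ k,
      c * MvPolynomial.aeval x0 H = MvPolynomial.aeval x0 G) →
      ∀ i, q.coeff i ∈ Set.range α := by
    intro q hq i
    by_cases h0 : q.coeff i = 0
    · rw [h0]
      exact ⟨0, map_zero α⟩
    · obtain ⟨G, hG'⟩ := hq _ (Polynomial.coeff_mem_coeffs h0)
      exact hr0 G _ hG'
  obtain ⟨K'', i1, i2, i3, i4, i5, hrk, S, hS1, t, ht, httop⟩ := ext_step' (K' := M) α β hker hθi
    (hrange _ fun c hc => hG c (Or.inl hc))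
  refine ⟨K'', i1, i2, i3, i4, i5, hrk, S, ?_, ?_, t, ht, httop⟩
  · intro G H' hH' hzH'
    have hH0 : MvPolynomial.aeval x0 H' ≠ 0 := fun h0 => hH' (by rw [← hxae, h0]; rfl)
    have h2 := hS1 ⟨(MvPolynomial.aeval x0 G / MvPolynomial.aeval x0 H',
      MvPolynomial.aeval z G / MvPolynomial.aeval z H'), G, H', hH0, hzH',
      div_mul_cancel₀ _ hH0, div_mul_cancel₀ _ hzH'⟩
    have h3 : algebraMap L M (α ⟨(MvPolynomial.aeval x0 G / MvPolynomial.aeval x0 H',
      MvPolynomial.aeval z G / MvPolynomial.aeval z H'), G, H', hH0, hzH',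
      div_mul_cancel₀ _ hH0, div_mul_cancel₀ _ hzH'⟩) =
        MvPolynomial.aeval x G / MvPolynomial.aeval x H' := by
      rw [← hxae, ← hxae]
      exact map_div₀ (algebraMap L M) _ _
    rw [h3] at h2
    exact h2
  · intro ϑ hϑ
    have h1 : ∀ i, ∃ u, S.T (algebraMap L M ((p ϑ).coeff i)) u := by
      intro i
      obtain ⟨b, hb⟩ := hrange (p ϑ) (fun c hc => hG c (Or.inr (Set.mem_biUnion hϑ hc))) i
      exact ⟨_, by rw [← hb]; exact hS1 b⟩
    choose u hu using h1
    refine ⟨∑ i ∈ Finset.range ((p ϑ).natDegree + 1), u i * t ^ i, ?_⟩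
    have h2 : ϑ = ∑ i ∈ Finset.range ((p ϑ).natDegree + 1),
        algebraMap L M ((p ϑ).coeff i) * θ ^ i := by
      conv_lhs => rw [← hp ϑ hϑ, Polynomial.aeval_eq_sum_range]
      simp only [Algebra.smul_def]
    have h3 := S.sum (Finset.range ((p ϑ).natDegree + 1)) (fun i _ => S.mul (hu i) (S.pow ht i))
    rw [← h2] at h3
    exact h3

/-- Two steps. -/
theorem spread2 {k M : Type} [Field k] [Field M] [Algebra k M] {σ : Type}
    (x : σ → M) {ω θ : M} (hω : IsAlgebraic (adjoin k (Set.range x)) ω)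
    (hθ : IsAlgebraic (adjoin k (Set.range x)) θ) {Θ1 Θ2 : Set M}
    (hf1 : Θ1.Finite) (hf2 : Θ2.Finite) (h1 : ∀ ϑ ∈ Θ1, ϑ ∈ adjoin k (insert ω (Set.range x)))
    (h2 : ∀ ϑ ∈ Θ2, ϑ ∈ adjoin k (insert θ (insert ω (Set.range x)))) :
    ∃ (N : ℕ) (H : MvPolynomial σ k), MvPolynomial.aeval x H ≠ 0 ∧
      ∀ (E : Type) [Field E] [Algebra k E] (z : σ → E),
        (∀ G : MvPolynomial σ k, MvPolynomial.aeval x G = 0 → MvPolynomial.aeval z G = 0) →
        MvPolynomial.aeval z H ≠ 0 →
        ∃ (E' : Type) (_ : Field E') (_ : Algebra k E') (_ : Algebra E E')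
          (_ : IsScalarTower k E E') (_ : FiniteDimensional E E')
          (K'' : Type) (_ : Field K'') (_ : Algebra k K'') (_ : Algebra E' K'')
          (_ : IsScalarTower k E' K'') (_ : FiniteDimensional E' K''),
          Module.finrank E E' * Module.finrank E' K'' ≤ N ∧ ∃ T : Sp k M K'',
            (∀ i, T.T (x i) (algebraMap E' K'' (algebraMap E E' (z i)))) ∧
            (∀ G H' : MvPolynomial σ k, MvPolynomial.aeval x H' ≠ 0 →
              MvPolynomial.aeval z H' ≠ 0 →
              T.T (MvPolynomial.aeval x G / MvPolynomial.aeval x H')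
                (algebraMap E' K'' (algebraMap E E'
                  (MvPolynomial.aeval z G / MvPolynomial.aeval z H')))) ∧
            (∀ ϑ ∈ Θ1, ∃ t : E', T.T ϑ (algebraMap E' K'' t)) ∧
            (∀ ϑ ∈ Θ2, ∃ t, T.T ϑ t) ∧
            (∃ w : E', T.T ω (algebraMap E' K'' w) ∧ IntermediateField.adjoin E {w} = ⊤) ∧
            ∃ t : K'', T.T θ t ∧ IntermediateField.adjoin E' {t} = ⊤ := by
  classical
  obtain ⟨y, hy⟩ : ∃ y : Option σ → M, y = fun o => o.elim ω x := ⟨_, rfl⟩
  have hyr : Set.range y = insert ω (Set.range x) := by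
    ext t
    constructor
    · rintro ⟨o, rfl⟩
      rw [hy]
      cases o with
      | none => exact Or.inl rfl
      | some i => exact Or.inr ⟨i, rfl⟩
    · rintro (rfl | ⟨i, rfl⟩)
      · exact ⟨none, by rw [hy]; rfl⟩
      · exact ⟨some i, by rw [hy]; rfl⟩
  have hle : adjoin k (Set.range x) ≤ adjoin k (Set.range y) := by
    rw [hyr]
    exact IntermediateField.adjoin.mono k _ _ (Set.subset_insert _ _)
  have hθy : IsAlgebraic (adjoin k (Set.range y)) θ := alg_mono hle hθ
  obtain ⟨N2, H2, hH2, hstep2⟩ := step y hθy hf2 (by rw [hyr]; exact h2)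
  -- representations of the elements of `Θ1`
  have hrep : ∀ ϑ ∈ Θ1, ∃ G H' : MvPolynomial (Option σ) k, MvPolynomial.aeval y H' ≠ 0 ∧
      ϑ = MvPolynomial.aeval y G / MvPolynomial.aeval y H' := by
    intro ϑ hϑ
    have h3 := h1 ϑ hϑ
    rw [← hyr] at h3
    obtain ⟨G, H', h4⟩ := (IntermediateField.mem_adjoin_range_iff k y ϑ).1 h3
    by_cases h5 : MvPolynomial.aeval y H' = 0
    · refine ⟨0, 1, by rw [map_one]; exact one_ne_zero, ?_⟩
      rw [h4, h5, div_zero, map_zero, zero_div]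
    · exact ⟨G, H', h5, h4⟩
  choose! G1 H1 hH1 hG1 using hrep
  obtain ⟨N1, H, hH, hstep1⟩ := step x hω
    (Θ := insert (MvPolynomial.aeval y H2)⁻¹ ((fun ϑ => (MvPolynomial.aeval y (H1 ϑ))⁻¹) '' Θ1))
    ((hf1.image _).insert _) (by
      have hmem : ∀ G : MvPolynomial (Option σ) k, (MvPolynomial.aeval y G)⁻¹ ∈
          adjoin k (insert ω (Set.range x)) := by
        intro G
        rw [← hyr]
        refine inv_mem ?_
        have h3 : MvPolynomial.aeval y G ∈ Algebra.adjoin k (Set.range y) := by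
          rw [Algebra.adjoin_range_eq_range_aeval]
          exact ⟨G, rfl⟩
        exact IntermediateField.algebra_adjoin_le_adjoin k _ h3
      rintro ϑ (rfl | ⟨ϑ', -, rfl⟩)
      · exact hmem _
      · exact hmem _)
  refine ⟨N1 * N2, H, hH, fun E _ _ z hz hzH => ?_⟩
  obtain ⟨E', i1, i2, i3, i4, i5, hrk1, S1, hS1, hS1Θ, w, hw, hwtop⟩ := hstep1 E z hz hzH
  have hS1x : ∀ i, S1.T (x i) (algebraMap E E' (z i)) := by
    intro i
    have h3 := hS1 (MvPolynomial.X i) 1 (by rw [map_one]; exact one_ne_zero)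
      (by rw [map_one]; exact one_ne_zero)
    simpa using h3
  obtain ⟨z', hz'⟩ : ∃ z' : Option σ → E', z' = fun o => o.elim w fun i => algebraMap E E' (z i) :=
    ⟨_, rfl⟩
  have hyz : ∀ o, S1.T (y o) (z' o) := by
    intro o
    rw [hy, hz']
    cases o with
    | none => exact hw
    | some i => exact hS1x i
  have hzz' : ∀ G : MvPolynomial (Option σ) k, MvPolynomial.aeval y G = 0 →
      MvPolynomial.aeval z' G = 0 := fun G hG => S1.eq_zero (Sp_aeval S1 hyz G) hG
  have hne : ∀ G : MvPolynomial (Option σ) k, MvPolynomial.aeval y G ≠ 0 →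
      (∃ t, S1.T (MvPolynomial.aeval y G)⁻¹ t) → MvPolynomial.aeval z' G ≠ 0 :=
    fun G hG ht => S1.ne_zero (Sp_aeval S1 hyz G) ht hG
  obtain ⟨K'', j1, j2, j3, j4, j5, hrk2, T, hT, hTΘ, t, ht, httop⟩ := hstep2 E' z' hzz'
    (hne H2 hH2 (hS1Θ _ (Or.inl rfl)))
  have hTy : ∀ o, T.T (y o) (algebraMap E' K'' (z' o)) := by
    intro o
    have h3 := hT (MvPolynomial.X o) 1 (by rw [map_one]; exact one_ne_zero)
      (by rw [map_one]; exact one_ne_zero)
    simpa using h3
  refine ⟨E', i1, i2, i3, i4, i5, K'', j1, j2, j3, j4, j5, Nat.mul_le_mul hrk1 hrk2, T, ?_, ?_,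
    ?_, hTΘ, ⟨w, ?_, hwtop⟩, t, ht, httop⟩
  · intro i
    have h3 := hTy (some i)
    rw [hy, hz'] at h3
    exact h3
  · intro G H' hH' hzH'
    have hys : (y ∘ some) = x := by
      rw [hy]
      rfl
    have hys' : ∀ G : MvPolynomial σ k, MvPolynomial.aeval y (MvPolynomial.rename some G) =
        MvPolynomial.aeval x G := fun G => by
      rw [MvPolynomial.aeval_rename, hys]
    have hzs : ∀ G : MvPolynomial σ k, MvPolynomial.aeval z' (MvPolynomial.rename some G) =
        algebraMap E E' (MvPolynomial.aeval z G) := fun G => by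
      rw [MvPolynomial.aeval_rename, ← MvPolynomial.aeval_algebraMap_apply]
      have h4 : (z' ∘ some) = (algebraMap E E' ∘ z) := by
        rw [hz']
        rfl
      rw [h4]
    have h3 := hT (MvPolynomial.rename some G) (MvPolynomial.rename some H')
      (by rw [hys']; exact hH') (by
        rw [hzs]
        intro h0
        exact hzH' ((map_eq_zero _).1 h0))
    rw [hys', hys', hzs, hzs] at h3
    rw [map_div₀ (algebraMap E E')]
    exact h3
  · intro ϑ hϑ
    have h3 := hT (G1 ϑ) (H1 ϑ) (hH1 ϑ hϑ) (hne (H1 ϑ) (hH1 ϑ hϑ)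
      (hS1Θ _ (Or.inr ⟨ϑ, hϑ, rfl⟩)))
    rw [← hG1 ϑ hϑ] at h3
    exact ⟨_, h3⟩
  · have h3 := hTy none
    rw [hy, hz'] at h3
    exact h3

end Pool.Agent.K4H62.HF
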