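import Pool.Agent.K4H62.HF.Unr

/-!
Spreading out a covering of the generic fibre.
-/

set_option autoImplicit false
set_option linter.overlappingInstances false
set_option linter.unusedSectionVars false

open FF Pool.Agent.W603.LV Pool.Agent.W603.PV Polynomial
open Pool.Agent.TH466.QG (Sp)

namespace Pool.Agent.K4H62.HF

theorem mem_adjoin_aeval {k M : Type} [Field k] [Field M] [Algebra k M] {σ : Type} (x : σ → M)
    (G : MvPolynomial σ k) : MvPolynomial.aeval x G ∈ IntermediateField.adjoin k (Set.range x) := by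
  have h3 : MvPolynomial.aeval x G ∈ Algebra.adjoin k (Set.range x) := by
    rw [Algebra.adjoin_range_eq_range_aeval]
    exact ⟨G, rfl⟩
  exact IntermediateField.algebra_adjoin_le_adjoin k _ h3

/-- **Spreading out.** -/
theorem spread3 {k M : Type} [Field k] [IsAlgClosed k] [CharZero k] [Field M] [Algebra k M]
    {m N : ℕ} {α : Fin m → M} {ξ : Fin N → M} {F Ω : IntermediateField k M}
    (hF : F = IntermediateField.adjoin k (Set.range α)) (hFΩ : F ≤ Ω)
    (hFL : F ≤ IntermediateField.adjoin k (Set.range ξ)) (hΩF : ∀ c ∈ Ω, IsAlgebraic F c)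
    {θ0 : M} (hθ0 : IsAlgebraic (IntermediateField.adjoin k (Set.range ξ)) θ0)
    (Ξ1 Ξ2 Θc : Finset M) (h1 : ∀ x ∈ Ξ1, x ∈ IntermediateField.adjoin Ω (Set.range ξ))
    (h2 : ∀ x ∈ Ξ2, x ∈ IntermediateField.adjoin Ω (insert θ0 (Set.range ξ)))
    (hΘc : ∀ ϑ ∈ Θc, ϑ ∈ Ω ∧ ϑ ≠ 0) :
    ∃ (Θ : Finset M) (N0 C : ℕ) (H : MvPolynomial (Fin N) k), Θc ⊆ Θ ∧
      MvPolynomial.aeval ξ H ≠ 0 ∧
      ∀ (E : Type) [Field E] [Algebra k E] [IsFF k E] (z : Fin N → E),
        (∀ G : MvPolynomial (Fin N) k, MvPolynomial.aeval ξ G = 0 → MvPolynomial.aeval z G = 0) →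
        MvPolynomial.aeval z H ≠ 0 →
        ∃ (E' : Type) (_ : Field E') (_ : Algebra k E') (_ : Algebra E E')
          (_ : IsScalarTower k E E') (_ : FiniteDimensional E E') (_ : IsFF k E')
          (K : Type) (_ : Field K) (_ : Algebra k K) (_ : Algebra E' K)
          (_ : IsScalarTower k E' K) (_ : FiniteDimensional E' K) (_ : IsFF k K),
          Module.finrank E E' * Module.finrank E' K ≤ N0 ∧ ∃ (T : Sp k M K) (t : M → K),
            (∀ i, T.T (ξ i) (algebraMap E' K (algebraMap E E' (z i)))) ∧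
            (∀ x ∈ Ξ1, ∃ e : E', T.T x (algebraMap E' K e)) ∧
            (∀ x ∈ Ξ2, ∃ e, T.T x e) ∧
            (∀ ϑ ∈ Θ, T.T ϑ (t ϑ) ∧ t ϑ ≠ 0 ∧ ∀ α' : Fin m → K, (∀ j, T.T (α j) (α' j)) →
              hgt k (t ϑ) ≤ C * ∑ j, hgt k (α' j)) ∧
            (∃ θ' : K, T.T θ0 θ' ∧ IntermediateField.adjoin E' {θ'} = ⊤) ∧
            ∀ P : Place k K, (∀ ϑ ∈ Θ, P.ord (t ϑ) = 0) → ram E (under E' P) = 1 := by
  classical
  have hFch : CharZero F := charZero_of_injective_algebraMap (algebraMap k F).injective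
  -- the constants
  have hC1 : ∀ x : M, ∃ C : Finset M, x ∈ Ξ1 → (∀ c ∈ C, c ∈ Ω) ∧
      x ∈ IntermediateField.adjoin k ((C : Set M) ∪ Set.range ξ) := by
    intro x
    by_cases hx : x ∈ Ξ1
    · obtain ⟨C, h⟩ := adjoin_fin Ω (Set.range ξ) (h1 x hx)
      exact ⟨C, fun _ => h⟩
    · exact ⟨∅, fun h => absurd h hx⟩
  choose C1 hC1 using hC1
  have hC2 : ∀ x : M, ∃ C : Finset M, x ∈ Ξ2 → (∀ c ∈ C, c ∈ Ω) ∧
      x ∈ IntermediateField.adjoin k ((C : Set M) ∪ insert θ0 (Set.range ξ)) := by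
    intro x
    by_cases hx : x ∈ Ξ2
    · obtain ⟨C, h⟩ := adjoin_fin Ω (insert θ0 (Set.range ξ)) (h2 x hx)
      exact ⟨C, fun _ => h⟩
    · exact ⟨∅, fun h => absurd h hx⟩
  choose C2 hC2 using hC2
  obtain ⟨Cl, hCl⟩ : ∃ Cl : Finset M, Cl = Θc ∪ (Ξ1.biUnion C1 ∪ Ξ2.biUnion C2) := ⟨_, rfl⟩
  have hClΩ : ∀ c ∈ Cl, c ∈ Ω := by
    intro c hc
    rw [hCl] at hc
    rcases Finset.mem_union.1 hc with hc | hc
    · exact (hΘc c hc).1
    rcases Finset.mem_union.1 hc with hc | hc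
    · obtain ⟨x, hx, hcx⟩ := Finset.mem_biUnion.1 hc
      exact (hC1 x hx).1 c hcx
    · obtain ⟨x, hx, hcx⟩ := Finset.mem_biUnion.1 hc
      exact (hC2 x hx).1 c hcx
  obtain ⟨ω, hωΩ, hωF, hωC⟩ := exists_prim F Ω hFΩ Cl hClΩ fun c hc => hΩF c (hClΩ c hc)
  obtain ⟨L1, hL1⟩ : ∃ L1 : IntermediateField k M,
    L1 = IntermediateField.adjoin k (insert ω (Set.range ξ)) := ⟨_, rfl⟩
  have hLL1 : IntermediateField.adjoin k (Set.range ξ) ≤ L1 := by
    rw [hL1]
    exact IntermediateField.adjoin.mono k _ _ (Set.subset_insert _ _)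
  have hFL1 : F ≤ L1 := hFL.trans hLL1
  have hωL1 : ω ∈ L1 := by
    rw [hL1]
    exact IntermediateField.subset_adjoin k _ (Set.mem_insert _ _)
  have hFω : ∀ x ∈ IntermediateField.adjoin F {ω}, x ∈ L1 := by
    intro x hx
    induction hx using IntermediateField.adjoin_induction with
    | mem x hx =>
      rw [Set.mem_singleton_iff] at hx
      rw [hx]
      exact hωL1
    | algebraMap c => exact hFL1 c.2
    | add x y _ _ hx hy => exact add_mem hx hy
    | inv x _ hx => exact inv_mem hx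
    | mul x y _ _ hx hy => exact mul_mem hx hy
  have hClL1 : ∀ c ∈ Cl, c ∈ L1 := fun c hc => hFω c (hωC c hc)
  have hΞ1L1 : ∀ x ∈ Ξ1, x ∈ L1 := by
    intro x hx
    have h3 := (hC1 x hx).2
    have h4 : IntermediateField.adjoin k ((C1 x : Set M) ∪ Set.range ξ) ≤ L1 := by
      rw [IntermediateField.adjoin_le_iff]
      rintro c (hc | ⟨i, rfl⟩)
      · refine hClL1 c ?_
        rw [hCl]
        exact Finset.mem_union_right _ (Finset.mem_union_left _
          (Finset.mem_biUnion.2 ⟨x, hx, hc⟩))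
      · exact hLL1 (IntermediateField.subset_adjoin k _ ⟨i, rfl⟩)
    exact h4 h3
  have hΞ2L1 : ∀ x ∈ Ξ2, x ∈ IntermediateField.adjoin k (insert θ0 (insert ω (Set.range ξ))) := by
    intro x hx
    have h3 := (hC2 x hx).2
    have h5 : L1 ≤ IntermediateField.adjoin k (insert θ0 (insert ω (Set.range ξ))) := by
      rw [hL1]
      exact IntermediateField.adjoin.mono k _ _ (Set.subset_insert _ _)
    have h4 : IntermediateField.adjoin k ((C2 x : Set M) ∪ insert θ0 (Set.range ξ)) ≤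
        IntermediateField.adjoin k (insert θ0 (insert ω (Set.range ξ))) := by
      rw [IntermediateField.adjoin_le_iff]
      rintro c (hc | rfl | ⟨i, rfl⟩)
      · refine h5 (hClL1 c ?_)
        rw [hCl]
        exact Finset.mem_union_right _ (Finset.mem_union_right _
          (Finset.mem_biUnion.2 ⟨x, hx, hc⟩))
      · exact IntermediateField.subset_adjoin k _ (Set.mem_insert _ _)
      · exact h5 (hLL1 (IntermediateField.subset_adjoin k _ ⟨i, rfl⟩))
    exact h4 h3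
  -- the minimal polynomial
  have hωi : IsIntegral F ω := hωF.isIntegral
  obtain ⟨g0, hg0⟩ : ∃ g0, g0 = minpoly F ω := ⟨_, rfl⟩
  have hg0r : aeval ω g0 = 0 := by rw [hg0]; exact minpoly.aeval F ω
  have hg0d : aeval ω (derivative g0) ≠ 0 := by
    rw [hg0]
    exact (minpoly.irreducible hωi).separable.aeval_derivative_ne_zero (minpoly.aeval F ω)
  obtain ⟨d, hd⟩ : ∃ d, d = g0.natDegree := ⟨_, rfl⟩
  obtain ⟨Θω, hΘω⟩ : ∃ Θω : Finset M, Θω =
    (((Finset.range (d + 1)).image fun j => ((g0.coeff j : F) : M)) ∪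
      {ω, aeval ω (derivative g0)}).filter (fun x => x ≠ 0) := ⟨_, rfl⟩
  have hderΩ : aeval ω (derivative g0) ∈ IntermediateField.adjoin F {ω} := by
    have h3 : aeval ω (derivative g0) ∈ Algebra.adjoin F {ω} := by
      rw [Algebra.adjoin_singleton_eq_range_aeval]
      exact ⟨_, rfl⟩
    exact IntermediateField.algebra_adjoin_le_adjoin F _ h3
  have hFωΩ : ∀ x ∈ IntermediateField.adjoin F {ω}, x ∈ Ω := by
    intro x hx
    induction hx using IntermediateField.adjoin_induction with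
    | mem x hx =>
      rw [Set.mem_singleton_iff] at hx
      rw [hx]
      exact hωΩ
    | algebraMap c => exact hFΩ c.2
    | add x y _ _ hx hy => exact add_mem hx hy
    | inv x _ hx => exact inv_mem hx
    | mul x y _ _ hx hy => exact mul_mem hx hy
  obtain ⟨Θ, hΘ⟩ : ∃ Θ : Finset M, Θ = Θc ∪ Θω := ⟨_, rfl⟩
  have hΘΩ : ∀ ϑ ∈ Θ, ϑ ∈ Ω ∧ ϑ ≠ 0 ∧ ϑ ∈ L1 := by
    intro ϑ hϑ
    rw [hΘ] at hϑ
    rcases Finset.mem_union.1 hϑ with hϑ | hϑ
    · exact ⟨(hΘc ϑ hϑ).1, (hΘc ϑ hϑ).2, hClL1 ϑ (by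
        rw [hCl]
        exact Finset.mem_union_left _ hϑ)⟩
    · rw [hΘω, Finset.mem_filter] at hϑ
      obtain ⟨h3, h4⟩ := hϑ
      rcases Finset.mem_union.1 h3 with h3 | h3
      · obtain ⟨j, -, rfl⟩ := Finset.mem_image.1 h3
        exact ⟨hFΩ (g0.coeff j).2, h4, hFL1 (g0.coeff j).2⟩
      · rcases Finset.mem_insert.1 h3 with h3 | h3
        · rw [h3]
          exact ⟨hωΩ, h3 ▸ h4, hωL1⟩
        · rw [Finset.mem_singleton.1 h3]
          exact ⟨hFωΩ _ hderΩ, hg0d, hFω _ hderΩ⟩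
  -- heights of the constants
  obtain ⟨Θh, Ch, hΘh, hCh⟩ := alg_hgt' α Θ (fun ϑ hϑ => by
    rw [← hF]
    exact hΩF ϑ (hΘΩ ϑ hϑ).1)
  -- the coefficients of `g0`
  have hrep : ∀ j, ∃ G H' : MvPolynomial (Fin N) k, MvPolynomial.aeval ξ H' ≠ 0 ∧
      ((g0.coeff j : F) : M) = MvPolynomial.aeval ξ G / MvPolynomial.aeval ξ H' := by
    intro j
    have h3 : ((g0.coeff j : F) : M) ∈ IntermediateField.adjoin k (Set.range ξ) :=
      hFL (g0.coeff j).2
    obtain ⟨G, H', h4⟩ := (IntermediateField.mem_adjoin_range_iff k ξ _).1 h3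
    by_cases h5 : MvPolynomial.aeval ξ H' = 0
    · refine ⟨0, 1, by rw [map_one]; exact one_ne_zero, ?_⟩
      rw [h4, h5, div_zero, map_zero, zero_div]
    · exact ⟨G, H', h5, h4⟩
  choose Gn Hn hHn hGn using hrep
  obtain ⟨N0, H, hH, hspread⟩ := spread2 ξ (ω := ω) (θ := θ0)
    (Θ1 := ((Θ ∪ Θ.image (fun x => x⁻¹) ∪ Θh ∪ Ξ1 : Finset M) : Set M)) (Θ2 := (Ξ2 : Set M))
    (alg_mono hFL hωF) hθ0 (Finset.finite_toSet _) (Finset.finite_toSet _) (by
      intro ϑ hϑ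
      rw [Finset.mem_coe] at hϑ
      rw [← hL1]
      rcases Finset.mem_union.1 hϑ with hϑ | hϑ
      · rcases Finset.mem_union.1 hϑ with hϑ | hϑ
        · rcases Finset.mem_union.1 hϑ with hϑ | hϑ
          · exact (hΘΩ ϑ hϑ).2.2
          · obtain ⟨x, hx, rfl⟩ := Finset.mem_image.1 hϑ
            exact inv_mem (hΘΩ x hx).2.2
        · have h3 := hΘh ϑ hϑ
          rw [← hF] at h3
          exact hFL1 h3
      · exact hΞ1L1 ϑ hϑ) (fun ϑ hϑ => hΞ2L1 ϑ hϑ)
  refine ⟨Θ, N0, Ch, H * ∏ j ∈ Finset.range (d + 1), Hn j, by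
    rw [hΘ]; exact Finset.subset_union_left, ?_, ?_⟩
  · rw [map_mul, map_prod]
    exact mul_ne_zero hH (Finset.prod_ne_zero_iff.2 fun j _ => hHn j)
  intro E _ _ _ z hz hzH
  rw [map_mul, map_prod] at hzH
  have hzH0 := left_ne_zero_of_mul hzH
  have hzHn : ∀ j ∈ Finset.range (d + 1), MvPolynomial.aeval z (Hn j) ≠ 0 :=
    Finset.prod_ne_zero_iff.1 (right_ne_zero_of_mul hzH)
  obtain ⟨E', i1, i2, i3, i4, i5, K, j1, j2, j3, j4, j5, hrk, T, hTξ, hTL, hT1, hT2, ⟨w, hTw, hw⟩,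
    θ', hθ', htop⟩ := hspread E z hz hzH0
  have hffE' : IsFF k E' := isFF_of_finite (F := E)
  have hffK : IsFF k K := isFF_of_finite (F := E')
  have hmem : ∀ ϑ ∈ Θ, ϑ ∈ ((Θ ∪ Θ.image (fun x => x⁻¹) ∪ Θh ∪ Ξ1 : Finset M) : Set M) := by
    intro ϑ hϑ
    rw [Finset.mem_coe]
    exact Finset.mem_union_left _ (Finset.mem_union_left _ (Finset.mem_union_left _ hϑ))
  have hmem' : ∀ ϑ ∈ Θ, ϑ⁻¹ ∈ ((Θ ∪ Θ.image (fun x => x⁻¹) ∪ Θh ∪ Ξ1 : Finset M) : Set M) := by
    intro ϑ hϑ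
    rw [Finset.mem_coe]
    exact Finset.mem_union_left _ (Finset.mem_union_left _ (Finset.mem_union_right _
      (Finset.mem_image.2 ⟨ϑ, hϑ, rfl⟩)))
  have htex : ∀ ϑ : M, ∃ t : K, ϑ ∈ Θ → T.T ϑ t := by
    intro ϑ
    by_cases h : ϑ ∈ Θ
    · obtain ⟨e, he⟩ := hT1 ϑ (hmem ϑ h)
      exact ⟨_, fun _ => he⟩
    · exact ⟨0, fun h' => absurd h' h⟩
  choose t ht using htex
  have hconst : ∀ ϑ ∈ Θ, T.T ϑ (t ϑ) ∧ t ϑ ≠ 0 ∧ ∀ α' : Fin m → K, (∀ j, T.T (α j) (α' j)) →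
      hgt k (t ϑ) ≤ Ch * ∑ j, hgt k (α' j) := by
    intro ϑ hϑ
    refine ⟨ht ϑ hϑ, T.ne_zero (ht ϑ hϑ) ?_ (hΘΩ ϑ hϑ).2.1, fun α' hα' => ?_⟩
    · obtain ⟨e, he⟩ := hT1 _ (hmem' ϑ hϑ)
      exact ⟨_, he⟩
    · refine hCh K T (fun x hx => ?_) α' hα' ϑ hϑ _ (ht ϑ hϑ)
      obtain ⟨e, he⟩ := hT1 x (by
        rw [Finset.mem_coe]
        exact Finset.mem_union_left _ (Finset.mem_union_right _ hx))
      exact ⟨_, he⟩
  refine ⟨E', i1, i2, i3, i4, i5, hffE', K, j1, j2, j3, j4, j5, hffK, hrk, T, t, hTξ, ?_, hT2,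
    hconst, ⟨θ', hθ', htop⟩, ?_⟩
  · intro x hx
    exact hT1 x (by
      rw [Finset.mem_coe]
      exact Finset.mem_union_right _ hx)
  -- the first step is not ramified
  intro P hP
  let _ : Algebra E K := ((algebraMap E' K).comp (algebraMap E E')).toAlgebra
  have hst : IsScalarTower E E' K := IsScalarTower.of_algebraMap_eq fun _ => rfl
  have hco : ∀ j, ∃ e : E, T.T (algebraMap F M (g0.coeff j)) (algebraMap E K e) := by
    intro j
    by_cases hj : j ∈ Finset.range (d + 1)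
    · have h3 := hTL (Gn j) (Hn j) (hHn j) (hzHn j hj)
      rw [← hGn j] at h3
      exact ⟨_, h3⟩
    · refine ⟨0, ?_⟩
      rw [Finset.mem_range] at hj
      rw [coeff_eq_zero_of_natDegree_lt (by omega), map_zero, map_zero]
      exact T.zero
  obtain ⟨q0, a1, a2, a3⟩ := Sp_lift T (E1 := E) g0 hco
  have hregΘ : ∀ x : M, x ∈ ((Finset.range (d + 1)).image fun j => ((g0.coeff j : F) : M)) ∪
      {ω, aeval ω (derivative g0)} → ∀ x', T.T x x' → Ge P 0 x' := by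
    intro x hx x' hx'
    by_cases h0 : x = 0
    · left
      exact T.eq_zero hx' h0
    · have h3 : x ∈ Θ := by
        rw [hΘ, hΘω]
        exact Finset.mem_union_right _ (Finset.mem_filter.2 ⟨hx, h0⟩)
      rw [T.ext hx' (ht x h3)]
      right
      rw [hP x h3]
  have hq0 : aeval w q0 = 0 := by
    have h4 := T.eq_zero (a2 _ _ hTw) hg0r
    rw [aeval_algebraMap_apply] at h4
    exact (map_eq_zero _).1 h4
  have hq0d : T.T (aeval ω (derivative g0)) (algebraMap E' K (aeval w (derivative q0))) := by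
    have h4 := a3 _ _ hTw
    rwa [aeval_algebraMap_apply] at h4
  have hdΘ : aeval ω (derivative g0) ∈ Θ := by
    rw [hΘ, hΘω]
    exact Finset.mem_union_right _ (Finset.mem_filter.2 ⟨Finset.mem_union_right _ (by simp), hg0d⟩)
  have hdT := T.ext hq0d (ht _ hdΘ)
  have hdne : aeval w (derivative q0) ≠ 0 := by
    intro h0
    rw [h0, map_zero] at hdT
    exact (hconst _ hdΘ).2.1 hdT.symm
  have hdord : P.ord (algebraMap E' K (aeval w (derivative q0))) = 0 := by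
    rw [hdT]
    exact hP _ hdΘ
  refine ram_one (E := E) hw hq0 (under E' P) (fun j => ?_) ?_ hdne ?_
  · rw [← ge_under]
    by_cases hj : j ∈ Finset.range (d + 1)
    · exact hregΘ _ (Finset.mem_union_left _ (Finset.mem_image.2 ⟨j, hj, rfl⟩)) _ (a1 j)
    · have h3 := a1 j
      rw [Finset.mem_range] at hj
      rw [coeff_eq_zero_of_natDegree_lt (by omega), map_zero] at h3
      left
      exact T.uniq h3
  · rw [← ge_under]
    exact hregΘ ω (Finset.mem_union_right _ (by simp)) _ hTw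
  · rw [ord_under] at hdord
    have h3 := (ram_spec (F := E') P).1
    rcases mul_eq_zero.1 hdord with h4 | h4
    · omega
    · exact h4

end Pool.Agent.K4H62.HF
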