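import Pool.Agent.K4H62.HF.Hg
import Pool.Agent.K4H62.HF.IntS

/-!
Specializations of polynomials; the specialization of an etale covering is not ramified.
-/

set_option autoImplicit false
set_option linter.overlappingInstances false
set_option linter.unusedSectionVars false

open FF Pool.Agent.W603.LV Pool.Agent.W603.PV Polynomial
open Pool.Agent.TH466.QG (Sp)

namespace Pool.Agent.K4H62.HF

section lift

variable {k M K : Type} [Field k] [Field M] [Field K] [Algebra k M] [Algebra k K]

theorem Sp_nat (T : Sp k M K) (n : ℕ) : T.T (n : M) (n : K) := by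
  have h := T.const (n : k)
  rw [map_natCast, map_natCast] at h
  exact h

/-- specialization of a polynomial -/
theorem Sp_lift (T : Sp k M K) {F1 E1 : Type} [Field F1] [Algebra F1 M] [Field E1] [Algebra E1 K]
    (p : F1[X]) (h : ∀ j, ∃ t : E1, T.T (algebraMap F1 M (p.coeff j)) (algebraMap E1 K t)) :
    ∃ p' : E1[X], (∀ j, T.T (algebraMap F1 M (p.coeff j)) (algebraMap E1 K (p'.coeff j))) ∧
      (∀ x x', T.T x x' → T.T (aeval x p) (aeval x' p')) ∧
      ∀ x x', T.T x x' → T.T (aeval x (derivative p)) (aeval x' (derivative p')) := by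
  classical
  choose τ hτ using h
  obtain ⟨d, hd⟩ : ∃ d, d = p.natDegree := ⟨_, rfl⟩
  obtain ⟨p', hp'⟩ : ∃ p' : E1[X], p' = ∑ j ∈ Finset.range (d + 1), monomial j (τ j) := ⟨_, rfl⟩
  have hco : ∀ j, p'.coeff j = if j < d + 1 then τ j else 0 := by
    intro j
    rw [hp', finsetSum_coeff]
    simp only [coeff_monomial]
    rw [Finset.sum_ite_eq' (Finset.range (d + 1)) j]
    simp only [Finset.mem_range]
  have hT : ∀ j, T.T (algebraMap F1 M (p.coeff j)) (algebraMap E1 K (p'.coeff j)) := by
    intro j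
    rw [hco]
    split_ifs with h
    · exact hτ j
    · rw [coeff_eq_zero_of_natDegree_lt (by omega), map_zero, map_zero]
      exact T.zero
  have hdeg : p'.natDegree < d + 1 := by
    rw [hp']
    refine lt_of_le_of_lt (natDegree_sum_le_of_forall_le (n := d) _ _ fun j hj => ?_)
      (Nat.lt_succ_self d)
    refine (natDegree_monomial_le _).trans ?_
    have := Finset.mem_range.1 hj
    omega
  have hgen : ∀ (p : F1[X]) (p' : E1[X]) (d : ℕ), p.natDegree < d → p'.natDegree < d →
      (∀ j, T.T (algebraMap F1 M (p.coeff j)) (algebraMap E1 K (p'.coeff j))) →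
      ∀ x x', T.T x x' → T.T (aeval x p) (aeval x' p') := by
    intro p p' d h1 h2 h3 x x' hx
    rw [aeval_eq_sum_range' h1, aeval_eq_sum_range' h2]
    refine T.sum _ fun j _ => ?_
    rw [Algebra.smul_def, Algebra.smul_def]
    exact T.mul (h3 j) (T.pow hx j)
  refine ⟨p', hT, hgen p p' (d + 1) (by omega) hdeg hT, ?_⟩
  refine hgen (derivative p) (derivative p') (d + 1) ?_ ?_ fun j => ?_
  · exact lt_of_le_of_lt (natDegree_derivative_le p) (by omega)
  · exact lt_of_le_of_lt (natDegree_derivative_le p') (by omega)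
  · rw [coeff_derivative, coeff_derivative, map_mul, map_mul]
    have h1 : algebraMap F1 M ((j : F1) + 1) = ((j + 1 : ℕ) : M) := by
      rw [map_add, map_natCast, map_one]
      push_cast
      ring
    have h2 : algebraMap E1 K ((j : E1) + 1) = ((j + 1 : ℕ) : K) := by
      rw [map_add, map_natCast, map_one]
      push_cast
      ring
    rw [h1, h2]
    exact T.mul (hT (j + 1)) (Sp_nat T (j + 1))

end lift

section unr

variable {k : Type} [Field k] [IsAlgClosed k] [CharZero k] {M : Type} [Field M] [Algebra k M]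
  {E : Type} [Field E] [Algebra k E] [IsFF k E] {E' : Type} [Field E'] [Algebra k E']
  [Algebra E E'] [IsScalarTower k E E'] [IsFF k E'] [FiniteDimensional E E']
  {K : Type} [Field K] [Algebra k K] [Algebra E' K] [IsScalarTower k E' K] [IsFF k K]
  [FiniteDimensional E' K] {F1 F2 : Type} [Field F1] [Field F2] [Algebra F1 M] [Algebra F2 M]

/-- **No ramification.** -/
theorem unr_at (T : Sp k M K) (P : Place k K)
    -- the constants
    {ω : M} {g0 : F1[X]} (hg0 : aeval ω g0 = 0) {w : E'} (hTw : T.T ω (algebraMap E' K w))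
    (hw : IntermediateField.adjoin E {w} = ⊤)
    (hco : ∀ j, ∃ t : E, T.T (algebraMap F1 M (g0.coeff j)) (algebraMap E' K (algebraMap E E' t)))
    (hcor : ∀ j t, T.T (algebraMap F1 M (g0.coeff j)) t → Ge P 0 t)
    (hωr : Ge P 0 (algebraMap E' K w))
    (hd : ∀ t, T.T (aeval ω (derivative g0)) t → t ≠ 0 ∧ P.ord t = 0)
    -- the covering
    {p : ℕ} {θ c : Fin p → M} {f r : Fin p → F2[X]} {i0 : Fin p} (hf : ∀ i, aeval (θ i) (f i) = 0)
    (hr : ∀ i, aeval (θ i) (r i) = θ i0)
    (hsum : ∑ i, c i * aeval (θ i) (derivative (f i)) = 1) {θ' c' : Fin p → K}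
    (hθ' : ∀ i, T.T (θ i) (θ' i)) (hc' : ∀ i, T.T (c i) (c' i))
    (htop : IntermediateField.adjoin E' {θ' i0} = ⊤)
    (hcf : ∀ i j, ∃ t : E', T.T (algebraMap F2 M ((f i).coeff j)) (algebraMap E' K t))
    (hcr : ∀ i j, ∃ t : E', T.T (algebraMap F2 M ((r i).coeff j)) (algebraMap E' K t))
    (hfr : ∀ i j t, T.T (algebraMap F2 M ((f i).coeff j)) t → Ge P 0 t)
    (hθr : ∀ i, Ge P 0 (θ' i)) (hcr' : ∀ i, Ge P 0 (c' i)) :
    ∃ x : E, P.ord (algebraMap E' K (algebraMap E E' x)) = 1 := by
  classical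
  -- the polynomial over `E`
  let _ : Algebra E K := ((algebraMap E' K).comp (algebraMap E E')).toAlgebra
  have hst : IsScalarTower E E' K := IsScalarTower.of_algebraMap_eq fun _ => rfl
  obtain ⟨q0, h1, h2, h3⟩ := Sp_lift T (E1 := E) g0 hco
  have hq0 : aeval w q0 = 0 := by
    have h4 := T.eq_zero (h2 _ _ hTw) hg0
    rw [aeval_algebraMap_apply] at h4
    exact (map_eq_zero _).1 h4
  have hq0d : T.T (aeval ω (derivative g0)) (algebraMap E' K (aeval w (derivative q0))) := by
    have h4 := h3 _ _ hTw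
    rwa [aeval_algebraMap_apply] at h4
  obtain ⟨hd1, hd2⟩ := hd _ hq0d
  -- the polynomials over `E'`
  choose q hq1 hq2 hq3 using fun i => Sp_lift T (E1 := E') (f i) (hcf i)
  choose s hs1 hs2 hs3 using fun i => Sp_lift T (E1 := E') (r i) (hcr i)
  have hq0' : ∀ i, aeval (θ' i) (q i) = 0 := fun i => T.eq_zero (hq2 i _ _ (hθ' i)) (hf i)
  have hgen : ∀ i, IntermediateField.adjoin E' {θ' i} = ⊤ := by
    intro i
    have h4 : θ' i0 = aeval (θ' i) (s i) := by
      have h5 := hs2 i _ _ (hθ' i)
      rw [hr] at h5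
      exact T.ext (hθ' i0) h5
    rw [eq_top_iff, ← htop, IntermediateField.adjoin_simple_le_iff, h4]
    have h5 : aeval (θ' i) (s i) ∈ Algebra.adjoin E' {θ' i} := by
      rw [Algebra.adjoin_singleton_eq_range_aeval]
      exact ⟨s i, rfl⟩
    exact IntermediateField.algebra_adjoin_le_adjoin E' _ h5
  have hreg : ∀ i j, Ge P 0 (algebraMap E' K ((q i).coeff j)) := fun i j => hfr i j _ (hq1 i j)
  have hdreg : ∀ i, Ge P 0 (aeval (θ' i) (derivative (q i))) := by
    intro i
    rw [aeval_eq_sum_range]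
    refine Ge.sum _ _ fun j _ => ?_
    rw [Algebra.smul_def, coeff_derivative, map_mul]
    have h4 : Ge P 0 (algebraMap E' K ((j : E') + 1)) := by
      have := Ge.natCast (P := P) (j + 1)
      rw [map_add, map_natCast, map_one]
      push_cast at this
      exact this
    have h5 := ((hreg i (j + 1)).mul h4).mul ((hθr i).pow j)
    simpa using h5
  have hsum' : ∑ i, c' i * aeval (θ' i) (derivative (q i)) = 1 := by
    have h4 := T.sum (Finset.univ : Finset (Fin p)) fun i _ =>
      T.mul (hc' i) (hq3 i _ _ (hθ' i))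
    rw [hsum] at h4
    exact T.ext h4 T.one
  obtain ⟨i, hi⟩ : ∃ i, ¬ Ge P 1 (aeval (θ' i) (derivative (q i))) := by
    by_contra hcon
    push Not at hcon
    have h4 : Ge P 1 (∑ i, c' i * aeval (θ' i) (derivative (q i))) :=
      Ge.sum _ _ fun i _ => by
        have := (hcr' i).mul (hcon i)
        rwa [zero_add] at this
    rw [hsum'] at h4
    rcases h4 with h4 | h4
    · exact one_ne_zero h4
    · rw [P.ord_one] at h4
      omega
  unfold Ge at hi
  push Not at hi
  have h4 := (hdreg i).resolve_left hi.1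
  exact unram P hw hq0 (fun j => hcor j _ (h1 j)) hωr
    (fun h0 => hd1 (by rw [h0, map_zero])) hd2 (hgen i) (hq0' i) (hreg i) (hθr i) hi.1 (by omega)

end unr

section supp

variable {k K : Type} [Field k] [Field K] [Algebra k K] [CharZero k] [IsFF k K] [IsAlgClosed k]

/-- the number of the zeros and poles -/
theorem supp_card (f : K) : ∃ T : Finset (Place k K), (∀ P, P.ord f ≠ 0 ↔ P ∈ T) ∧
    (T.card : ℤ) ≤ 2 * hgt k f := by
  classical
  obtain ⟨T, hT⟩ : ∃ T : Finset (Place k K), ∀ P, P.ord f ≠ 0 ↔ P ∈ T :=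
    ⟨(finite_support (k := k) f).toFinset, fun P => by simp⟩
  refine ⟨T, hT, ?_⟩
  have e1 : hgt k f = ∑ P ∈ T, max (-P.ord f) 0 := hgt_finset _ T fun P hP => (hT P).1 hP
  have e2 : hgt k f⁻¹ = ∑ P ∈ T, max (-P.ord f⁻¹) 0 := hgt_finset _ T fun P hP => by
    rw [P.ord_inv] at hP
    exact (hT P).1 fun h => hP (by rw [h, neg_zero])
  have e3 : ∑ P ∈ T, |P.ord f| = hgt k f + hgt k f⁻¹ := by
    rw [e1, e2, ← Finset.sum_add_distrib]
    refine Finset.sum_congr rfl fun P _ => ?_
    rw [P.ord_inv, neg_neg]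
    rcases le_or_gt 0 (P.ord f) with h | h
    · rw [abs_of_nonneg h, max_eq_right (by omega), max_eq_left h, zero_add]
    · rw [abs_of_neg h, max_eq_left (by omega), max_eq_right h.le, add_zero]
  have e4 : (T.card : ℤ) ≤ ∑ P ∈ T, |P.ord f| := by
    rw [Finset.card_eq_sum_ones]
    push_cast
    refine Finset.sum_le_sum fun P hP => ?_
    have := abs_pos.2 ((hT P).2 hP)
    omega
  rw [e3, hgt_inv] at e4
  linarith

end supp

section alg

variable {k M : Type} [Field k] [Field M] [Algebra k M]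

theorem alg_trans' (F : IntermediateField k M) (Ω : IntermediateField k M) (R : Set M)
    (hΩ : ∀ c ∈ Ω, IsAlgebraic F c) (hR : ∀ r ∈ R, IsAlgebraic F r) {x : M}
    (hx : IsAlgebraic (IntermediateField.adjoin Ω R) x) : IsAlgebraic F x := by
  classical
  obtain ⟨A, hA⟩ : ∃ A : IntermediateField F M, A = algebraicClosure F M := ⟨_, rfl⟩
  have hmem : ∀ z : M, z ∈ A ↔ IsAlgebraic F z := fun z => by
    rw [hA]
    exact mem_algebraicClosure_iff
  have h1 : ∀ z ∈ IntermediateField.adjoin Ω R, z ∈ A := by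
    intro z hz
    induction hz using IntermediateField.adjoin_induction with
    | mem z hz => exact (hmem z).2 (hR z hz)
    | algebraMap c => exact (hmem _).2 (hΩ _ c.2)
    | add x y _ _ hx hy => exact add_mem hx hy
    | inv x _ hx => exact inv_mem hx
    | mul x y _ _ hx hy => exact mul_mem hx hy
  obtain ⟨p, hp0, hp⟩ := hx
  let φ : IntermediateField.adjoin Ω R →+* A :=
    (algebraMap (IntermediateField.adjoin Ω R) M).codRestrict A.toSubfield fun z => h1 z z.2
  have h2 : IsAlgebraic A x := by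
    refine ⟨p.map φ, ?_, ?_⟩
    · rw [Ne, Polynomial.map_eq_zero]
      exact hp0
    · rw [Polynomial.aeval_def, Polynomial.eval₂_map]
      exact hp
  have h3 : Algebra.IsAlgebraic F A := by
    rw [hA]
    infer_instance
  exact h2.restrictScalars F

end alg

end Pool.Agent.K4H62.HF
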