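import Pool.Agent.K4H62.HF.TDefs
import Pool.Agent.K4H62.HF.Unr

/-!
Projective curves of genus at least two; finite morphisms; extensions of homomorphisms.
-/

set_option autoImplicit false
set_option linter.overlappingInstances false
set_option linter.unusedSectionVars false

open FF Pool.Agent.W603.LV Pool.Agent.W603.PV
open Pool.Agent.TH466.QG

namespace Pool.Agent.K4H62.HF

theorem finite_ff {k E0 E : Type} [Field k] [Field E0] [Field E] [Algebra k E0] [Algebra k E]
    [Algebra E0 E] [IsScalarTower k E0 E] [IsFF k E0] [h : IsFF k E] : FiniteDimensional E0 E := by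
  obtain ⟨x, hx⟩ := IsFF.exists_transcendental (k := k) (K := E0)
  have hx' : Transcendental k (algebraMap E0 E x) :=
    (transcendental_algebraMap_iff (algebraMap E0 E).injective).2 hx
  have h0 : Algebra.IsAlgebraic (IntermediateField.adjoin k {algebraMap E0 E x}) E :=
    IsFF.isAlgebraic hx'
  have hmem : ∀ z ∈ IntermediateField.adjoin k {algebraMap E0 E x},
      z ∈ (algebraMap E0 E).fieldRange := by
    intro z hz
    induction hz using IntermediateField.adjoin_induction with
    | mem z hz =>
      rw [Set.mem_singleton_iff] at hz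
      rw [hz]
      exact ⟨x, rfl⟩
    | algebraMap c => exact ⟨algebraMap k E0 c, (IsScalarTower.algebraMap_apply k E0 E c).symm⟩
    | add x y _ _ hx hy => exact add_mem hx hy
    | inv x _ hx => exact inv_mem hx
    | mul x y _ _ hx hy => exact mul_mem hx hy
  have h1 : Algebra.IsAlgebraic E0 E := by
    constructor
    intro z
    obtain ⟨p, hp0, hp⟩ := h0.isAlgebraic z
    choose f hf using fun c : IntermediateField.adjoin k {algebraMap E0 E x} => hmem c c.2
    classical
    refine ⟨∑ i ∈ Finset.range (p.natDegree + 1), Polynomial.monomial i (f (p.coeff i)), ?_, ?_⟩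
    · intro h2
      have h3 := congrArg (fun q => Polynomial.coeff q p.natDegree) h2
      simp only [Polynomial.finsetSum_coeff, Polynomial.coeff_monomial,
        Polynomial.coeff_zero] at h3
      rw [Finset.sum_ite_eq' (Finset.range (p.natDegree + 1)) p.natDegree] at h3
      rw [if_pos (by simp)] at h3
      have h4 := hf (p.coeff p.natDegree)
      rw [h3, map_zero] at h4
      have h5 : p.coeff p.natDegree = 0 := Subtype.ext h4.symm
      exact hp0 (Polynomial.leadingCoeff_eq_zero.1 h5)
    · rw [Polynomial.aeval_eq_sum_range] at hp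
      rw [map_sum, ← hp]
      refine Finset.sum_congr rfl fun i _ => ?_
      rw [Polynomial.aeval_monomial, hf, Algebra.smul_def]
      rfl
  have h2 := h.ess
  have h3 : Algebra.EssFiniteType E0 E := Algebra.EssFiniteType.of_comp k E0 E
  have h4 := IntermediateField.fg_top E0 E
  obtain ⟨s, hs⟩ := h4
  have h5 : FiniteDimensional E0 (IntermediateField.adjoin E0 (s : Set E)) :=
    IntermediateField.finiteDimensional_adjoin (fun x _ => (h1.isAlgebraic x).isIntegral)
  rw [hs] at h5
  exact IntermediateField.topEquiv.toLinearEquiv.finiteDimensional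

section curve

variable {k B0 E0 E : Type} [Field k] [IsAlgClosed k] [CharZero k] [CommRing B0] [Field E0]
  [Field E] [Algebra k B0] [Algebra k E0] [Algebra k E] [Algebra B0 E0] [IsScalarTower k B0 E0]
  [IsFF k E0]

theorem kernel_alg (hinj : Function.Injective (algebraMap B0 E0)) (φ : B0 →ₐ[k] E)
    {c : B0} (hc : c ≠ 0) (hφc : φ c = 0) (b : B0) : IsAlgebraic k (φ b) := by
  classical
  by_cases hb : IsAlgebraic k (algebraMap B0 E0 b)
  · obtain ⟨p, hp0, hp⟩ := hb
    refine ⟨p, hp0, ?_⟩
    have h1 : Polynomial.aeval (algebraMap B0 E0 b) p = algebraMap B0 E0 (Polynomial.aeval b p) :=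
      Polynomial.aeval_algebraMap_apply E0 b p
    rw [h1] at hp
    have h2 : Polynomial.aeval b p = 0 := hinj (hp.trans (map_zero _).symm)
    rw [Polynomial.aeval_algHom_apply, h2, map_zero]
  · have hb' : Transcendental k (algebraMap B0 E0 b) := hb
    have hc' : algebraMap B0 E0 c ≠ 0 := fun h0 => hc (hinj (h0.trans (map_zero _).symm))
    have halg := (IsFF.isAlgebraic hb').isAlgebraic (algebraMap B0 E0 c)
    obtain ⟨F, hF⟩ : ∃ F : IntermediateField k E0,
      F = IntermediateField.adjoin k {algebraMap B0 E0 b} := ⟨_, rfl⟩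
    rw [← hF] at halg
    have hbF : algebraMap B0 E0 b ∈ F := by
      rw [hF]
      exact IntermediateField.subset_adjoin k _ rfl
    obtain ⟨α0, hα0⟩ : ∃ α0 : Fin 1 → F, ∀ i, (α0 i : E0) = algebraMap B0 E0 b :=
      ⟨fun _ => ⟨_, hbF⟩, fun _ => rfl⟩
    have htop : IntermediateField.adjoin k (Set.range α0) = ⊤ := by
      subst hF
      apply IntermediateField.lift_injective
      rw [IntermediateField.lift_adjoin, IntermediateField.lift_top]
      congr 1
      ext t
      constructor
      · rintro ⟨_, ⟨j, rfl⟩, rfl⟩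
        exact hα0 j
      · intro ht
        rw [Set.mem_singleton_iff] at ht
        exact ⟨α0 0, ⟨0, rfl⟩, (hα0 0).trans ht.symm⟩
    have hae : ∀ G : MvPolynomial (Fin 1) k, ((MvPolynomial.aeval α0 G : F) : E0) =
        algebraMap B0 E0 (MvPolynomial.aeval (fun _ => b) G) := by
      intro G
      have h1 := MvPolynomial.aeval_algebraMap_apply (R := k) E0 α0 G
      have h2 := MvPolynomial.aeval_algebraMap_apply (R := k) E0 (fun _ : Fin 1 => b) G
      have h3 : (algebraMap F E0 ∘ α0) = (algebraMap B0 E0 ∘ fun _ : Fin 1 => b) := funext hα0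
      rw [h3, h2] at h1
      exact h1.symm
    obtain ⟨p, hp⟩ : ∃ p, p = minpoly F (algebraMap B0 E0 c) := ⟨_, rfl⟩
    obtain ⟨H, hH, hG⟩ := exists_den htop (S := (↑p.coeffs : Set F)) (Finset.finite_toSet _)
    have hG' : ∀ j, ∃ G : MvPolynomial (Fin 1) k,
        p.coeff j * MvPolynomial.aeval α0 H = MvPolynomial.aeval α0 G := by
      intro j
      by_cases h0 : p.coeff j = 0
      · exact ⟨0, by rw [h0, map_zero]; simp⟩
      · obtain ⟨G, hG⟩ := hG _ (Polynomial.coeff_mem_coeffs h0)
        exact ⟨G, by rw [← hG]⟩
    choose G hGj using hG'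
    have hp0 : p.coeff 0 ≠ 0 := by
      rw [hp]
      exact minpoly.coeff_zero_ne_zero halg.isIntegral hc'
    have hrel : ∑ j ∈ Finset.range (p.natDegree + 1),
        MvPolynomial.aeval (fun _ : Fin 1 => b) (G j) * c ^ j = 0 := by
      apply hinj
      rw [map_zero, map_sum]
      have h1 : Polynomial.aeval (algebraMap B0 E0 c) p = 0 := by
        rw [hp]
        exact minpoly.aeval F _
      rw [Polynomial.aeval_eq_sum_range] at h1
      have h2 : ∑ j ∈ Finset.range (p.natDegree + 1), algebraMap B0 E0
          (MvPolynomial.aeval (fun _ : Fin 1 => b) (G j) * c ^ j) =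
          ((MvPolynomial.aeval α0 H : F) : E0) *
          ∑ j ∈ Finset.range (p.natDegree + 1), p.coeff j • (algebraMap B0 E0 c) ^ j := by
        rw [Finset.mul_sum]
        refine Finset.sum_congr rfl fun j _ => ?_
        rw [map_mul, map_pow, ← hae, ← hGj, Algebra.smul_def]
        change (((p.coeff j : F) : E0) * _) * _ = _ * (((p.coeff j : F) : E0) * _)
        ring
      rw [h2, h1, mul_zero]
    by_contra hcon
    have htr : Transcendental k (φ b) := hcon
    have h1 : AlgebraicIndependent k (fun _ : Fin 1 => φ b) := by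
      rw [algebraicIndependent_unique_type_iff]
      exact htr
    have h2 := congrArg φ hrel
    rw [map_sum, map_zero, Finset.sum_range_succ'] at h2
    have h3 : ∀ j, φ (MvPolynomial.aeval (fun _ : Fin 1 => b) (G (j + 1)) * c ^ (j + 1)) = 0 := by
      intro j
      rw [map_mul, map_pow, hφc, pow_succ, mul_zero, mul_zero]
    rw [Finset.sum_eq_zero fun j _ => h3 j, zero_add, pow_zero, mul_one] at h2
    have h4 : φ (MvPolynomial.aeval (fun _ : Fin 1 => b) (G 0)) =
        MvPolynomial.aeval (fun _ : Fin 1 => φ b) (G 0) := by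
      rw [MvPolynomial.comp_aeval_apply]
    rw [h4] at h2
    have h5 : G 0 = 0 := by
      apply h1
      change MvPolynomial.aeval _ (G 0) = MvPolynomial.aeval _ 0
      rw [h2, map_zero]
    have h6 := hGj 0
    rw [h5, map_zero] at h6
    exact mul_ne_zero hp0 hH h6

variable [IsFF k E]

/-- Projective curves of genus at least two. -/
theorem curve_bound [IsFractionRing B0 E0] (hg : 0 < canDeg k E0) (φ : B0 →ₐ[k] E) (b : B0) :
    hgt k (φ b) ≤ hgt k (algebraMap B0 E0 b) * max (canDeg k E) 0 := by
  classical
  have hinj : Function.Injective (algebraMap B0 E0) := IsFractionRing.injective B0 E0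
  by_cases hφ : Function.Injective φ
  · let j : E0 →+* E := IsFractionRing.lift hφ
    let _ : Algebra E0 E := j.toAlgebra
    have hj : ∀ x : B0, algebraMap E0 E (algebraMap B0 E0 x) = φ x := fun x =>
      IsFractionRing.lift_algebraMap (K := E0) hφ x
    have hst : IsScalarTower k E0 E := IsScalarTower.of_algebraMap_eq fun c => by
      rw [IsScalarTower.algebraMap_apply k B0 E0, hj, AlgHom.commutes]
    have hfin : FiniteDimensional E0 E := finite_ff (k := k)
    have h1 := canDeg_ext (k := k) (E := E0) (K := E)
    have h2 : 0 ≤ disc k E0 E := by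
      unfold disc
      refine finsum_nonneg fun P => ?_
      have := (ram_spec (F := E0) P).1
      omega
    have h3 := hgt_algebraMap (k := k) (F := E0) (L := E) (algebraMap B0 E0 b)
    rw [hj] at h3
    rw [h3]
    have h4 : (0 : ℤ) ≤ Module.finrank E0 E := Int.natCast_nonneg _
    have h5 : (Module.finrank E0 E : ℤ) ≤ max (canDeg k E) 0 := by
      refine le_trans ?_ (le_max_left _ _)
      rw [h1]
      nlinarith
    have h6 := hgt_nonneg (k := k) (algebraMap B0 E0 b)
    nlinarith
  · obtain ⟨c, hc, hφc⟩ : ∃ c : B0, c ≠ 0 ∧ φ c = 0 := by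
      by_contra hcon
      push Not at hcon
      apply hφ
      rw [injective_iff_map_eq_zero]
      intro c h0
      by_contra hc
      exact hcon c hc h0
    rw [hgt_algebraic (kernel_alg hinj φ hc hφc b)]
    exact mul_nonneg (hgt_nonneg _) (le_max_right _ _)

end curve

end Pool.Agent.K4H62.HF
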