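import Pool.Agent.K4H62.HF.Defs

/-!
The Lang-Vojta conjecture with a linear bound, and towers of fibrations: the definitions.
-/

set_option autoImplicit false
set_option linter.overlappingInstances false

open FF Pool.Agent.W603.LV

namespace Pool.Agent.K4H62.HF

/-- **The Lang-Vojta conjecture with a linear bound** for the affine variety `X = Spec R`: there is a
proper closed subset `g = 0` of `X` such that for each regular function `b` on `X` there is a number
`A` such that for all morphisms `f` from smooth affine curves `C` (function field `E`, places at
infinity `S`) to `X`, given by homomorphisms `φ` of the rings of functions, whose image is not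
contained in `g = 0`, the degree of `b ∘ f` is at most `A max (2 g - 2 + s, 0)`. -/
def LangVojta (k R : Type) [Field k] [CommRing R] [Algebra k R] : Prop :=
  ∃ g : R, g ≠ 0 ∧ ∀ b : R, ∃ A : ℕ, ∀ (E : Type) [Field E] [Algebra k E] [IsFF k E]
    (S : Finset (Place k E)) (φ : R →ₐ[k] E), (∀ b, ∀ P ∉ S, 0 ≤ P.ord (φ b)) → φ g ≠ 0 →
      hgt k (φ b) ≤ A * max (canDeg k E + S.card) 0

/-- **The linear bound for projective varieties** `Y` with the affine open subset `Spec B0`: there is
a proper closed subset `g = 0` such that for each regular function `b` on `Spec B0` there is a number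
`A` such that for all morphisms `f` from smooth projective curves of genus `g` to `Y` whose image
meets the complement of `g = 0` in `Spec B0`, the degree of `b ∘ f` is at most
`A max (2 g - 2, 0)`. -/
def Demailly (k B0 : Type) [Field k] [CommRing B0] [Algebra k B0] : Prop :=
  ∃ g : B0, g ≠ 0 ∧ ∀ b : B0, ∃ A : ℕ, ∀ (E : Type) [Field E] [Algebra k E] [IsFF k E]
    (φ : B0 →ₐ[k] E), φ g ≠ 0 → hgt k (φ b) ≤ A * max (canDeg k E) 0

/-- `Spec B` is the preimage of the affine open subset `Spec B0` of a variety `Y` under a dominant
morphism from the affine variety `Spec R` to `Y`: the ring `B` is contained in the field of fractions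
of `R`, with a common denominator `h`, and generated by the images of `R` and `B0`. -/
structure Chart (k R B0 B : Type) [Field k] [CommRing R] [CommRing B0] [CommRing B] [Algebra k R]
    [Algebra k B] [Algebra R B] [Algebra B0 B] : Prop where
  inj : Function.Injective (algebraMap R B)
  loc : ∃ h : R, h ≠ 0 ∧ ∀ b : B, ∃ (n : ℕ) (r : R), algebraMap R B h ^ n * b = algebraMap R B r
  gen : Algebra.adjoin k (Set.range (algebraMap R B) ∪ Set.range (algebraMap B0 B)) = ⊤

/-- `Spec B → Spec B0` is a fibration of affine varieties in hyperbolic affine curves. -/
def Fibration (k B0 B : Type) [Field k] [CommRing B0] [CommRing B] [Algebra k B0] [Algebra k B]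
    [Algebra B0 B] : Prop :=
  Algebra.FiniteType k B0 ∧ Algebra.FiniteType k B ∧ IsScalarTower k B0 B ∧
    ∃ (M : Type) (_ : Field M) (_ : Algebra k M) (_ : Algebra B0 M) (_ : Algebra B M)
      (_ : IsScalarTower k B M) (_ : IsScalarTower B0 B M) (Ω : IntermediateField k M),
      HyperbolicFibres B0 B Ω

/-- **The relative height inequality**, for a dominant morphism `X → Y` of varieties; `Spec B0` is an
affine open subset of `Y` and `Spec B` is its preimage in `X`. For generators `a` of the ring `B0`
there is a proper closed subset `g = 0` of `X` such that for each regular function `b` on `Spec B`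
there is a number `A` such that for all morphisms `f` from smooth affine curves (function field `E`,
places at infinity `S`) to `X`, whose image meets the complement of `g = 0` in `Spec B`,
`deg (b ∘ f) ≤ A (max (2 g - 2 + s, 0) + ∑ deg (a j ∘ f))`. The morphism `f` is given by a
homomorphism `φ`; at the places not in `S` all functions in `B` are regular on the curve, or the
place is mapped to the complement of `Spec B0` in `Y` and some `a j` has a pole. -/
def RelativeBound (k B0 B : Type) [Field k] [CommRing B0] [CommRing B] [Algebra k B0]
    [Algebra k B] [Algebra B0 B] : Prop :=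
  ∀ (m : ℕ) (a : Fin m → B0), Algebra.adjoin k (Set.range a) = ⊤ →
    ∃ g : B, g ≠ 0 ∧ ∀ b : B, ∃ A : ℕ, ∀ (E : Type) [Field E] [Algebra k E] [IsFF k E]
      (S : Finset (Place k E)) (φ : B →ₐ[k] E),
      (∀ P ∉ S, (∀ b, 0 ≤ P.ord (φ b)) ∨ ∃ j, P.ord (φ (algebraMap B0 B (a j))) < 0) →
      φ g ≠ 0 → hgt k (φ b) ≤ A * (max (canDeg k E + S.card) 0 +
        ∑ j, hgt k (φ (algebraMap B0 B (a j))))

/-- Towers of affine varieties: a point; `Spec B` is affine, and has a dominant morphism to a variety
in the class which is finite over the generic point (the ramification is arbitrary), or a fibration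
in hyperbolic affine curves; `Spec R` is affine, and is a fibration in hyperbolic affine curves over
a projective curve of geometric genus at least two, with the function field `E` and the affine open
subset `Spec B0`, whose preimage is `Spec B`. -/
inductive Tower (k : Type) [Field k] : (B : Type) → [CommRing B] → [Algebra k B] → Prop
  | point : Tower k k
  | finite (B0 B : Type) [CommRing B0] [CommRing B] [IsDomain B] [Algebra k B0] [Algebra k B]
      [Algebra.FiniteType k B] [Algebra B0 B] [IsScalarTower k B0 B] :
      Tower k B0 → Function.Injective (algebraMap B0 B) → Algebra.IsAlgebraic B0 B → Tower k B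
  | curve (B0 B : Type) [CommRing B0] [CommRing B] [Algebra k B0] [Algebra k B] [Algebra B0 B] :
      Tower k B0 → Fibration k B0 B → Tower k B
  | projective (R B0 B E : Type) [CommRing R] [CommRing B0] [CommRing B] [Field E]
      [Algebra k R] [Algebra k B0] [Algebra k B] [Algebra k E] [Algebra R B] [Algebra B0 B]
      [Algebra B0 E] [IsScalarTower k R B] [IsScalarTower k B0 E] [IsFractionRing B0 E]
      [IsFF k E] : 0 < canDeg k E → Fibration k B0 B → Chart k R B0 B → Tower k R

end Pool.Agent.K4H62.HF
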