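import Pool.Agent.K4H62.HF.TBase
import Pool.Agent.K4H62.HF.Main3

/-!
The conjecture of Lang and Vojta for towers of fibrations in hyperbolic affine curves.
-/

set_option autoImplicit false
set_option linter.overlappingInstances false
set_option linter.unusedSectionVars false

open FF Pool.Agent.W603.LV Pool.Agent.W603.PV

namespace Pool.Agent.K4H62.HF

/-- **The relative height inequality**, for maps to a variety which is fibred over a variety `Y` with
the affine open subset `Spec B0`. -/
theorem relative' {k B0 B M : Type} [Field k] [IsAlgClosed k] [CharZero k] [CommRing B0]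
    [CommRing B] [Field M] [Algebra k B0] [Algebra k B] [Algebra.FiniteType k B] [Algebra k M]
    [Algebra B0 B] [Algebra B0 M] [Algebra B M] [IsScalarTower k B0 B] [IsScalarTower k B M]
    [IsScalarTower B0 B M] {Ω : IntermediateField k M} (h : HyperbolicFibres B0 B Ω) {m : ℕ}
    (a : Fin m → B0) (ha : Algebra.adjoin k (Set.range a) = ⊤) :
    ∃ g : B, g ≠ 0 ∧ ∀ b : B, ∃ A : ℕ, ∀ (E : Type) [Field E] [Algebra k E] [IsFF k E]
      (S : Finset (Place k E)) (φ : B →ₐ[k] E),
      (∀ P ∉ S, (∀ b, 0 ≤ P.ord (φ b)) ∨ ∃ j, P.ord (φ (algebraMap B0 B (a j))) < 0) →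
      φ g ≠ 0 → hgt k (φ b) ≤ A * (max (canDeg k E + S.card) 0 +
          ∑ j, hgt k (φ (algebraMap B0 B (a j)))) := by
  classical
  obtain ⟨g, hg, hA⟩ := relative h a ha
  refine ⟨g, hg, fun b => ?_⟩
  obtain ⟨A, hA⟩ := hA b
  refine ⟨A * 3, ?_⟩
  intro E _ _ _ S φ hS hφg
  choose T hT1 hT2 using fun j => supp_card (k := k) (φ (algebraMap B0 B (a j)))
  obtain ⟨S', hS'⟩ : ∃ S' : Finset (Place k E), S' = S ∪ Finset.univ.biUnion T := ⟨_, rfl⟩
  have h1 := hA E S' φ (by
    intro b P hP
    rw [hS'] at hP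
    rcases hS P (fun h0 => hP (Finset.mem_union_left _ h0)) with h1 | ⟨j, hj⟩
    · exact h1 b
    · exact absurd (Finset.mem_union_right _ (Finset.mem_biUnion.2
        ⟨j, Finset.mem_univ j, (hT1 j P).1 hj.ne⟩)) hP) hφg
  have h2 : (S'.card : ℤ) ≤ S.card + 2 * ∑ j, hgt k (φ (algebraMap B0 B (a j))) := by
    have e1 : (S'.card : ℤ) ≤ S.card + (Finset.univ.biUnion T).card := by
      rw [hS']
      exact_mod_cast Finset.card_union_le _ _
    have e2 : ((Finset.univ.biUnion T).card : ℤ) ≤ ∑ j, ((T j).card : ℤ) := by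
      exact_mod_cast Finset.card_biUnion_le
    have e3 : ∑ j, ((T j).card : ℤ) ≤ ∑ j, 2 * hgt k (φ (algebraMap B0 B (a j))) :=
      Finset.sum_le_sum fun j _ => hT2 j
    rw [← Finset.mul_sum] at e3
    linarith
  have h3 : 0 ≤ ∑ j, hgt k (φ (algebraMap B0 B (a j))) :=
    Finset.sum_nonneg fun _ _ => hgt_nonneg _
  have h4 : 0 ≤ max (canDeg k E + (S.card : ℤ)) 0 := le_max_right _ _
  have h5 : max (canDeg k E + (S'.card : ℤ)) 0 ≤ max (canDeg k E + (S.card : ℤ)) 0 +
      2 * ∑ j, hgt k (φ (algebraMap B0 B (a j))) := by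
    refine max_le ?_ (by linarith)
    have := le_max_left (canDeg k E + (S.card : ℤ)) 0
    linarith
  refine h1.trans ?_
  push_cast
  rw [mul_assoc]
  exact mul_le_mul_of_nonneg_left (by linarith) (Int.natCast_nonneg _)

section steps

variable {k B0 B : Type} [Field k] [IsAlgClosed k] [CharZero k] [CommRing B0] [CommRing B]
  [Algebra k B0] [Algebra k B]

theorem exists_gens (k B0 : Type) [Field k] [CommRing B0] [Algebra k B0]
    [h : Algebra.FiniteType k B0] :
    ∃ (m : ℕ) (a : Fin m → B0), Algebra.adjoin k (Set.range a) = ⊤ := by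
  obtain ⟨N, π, hπ⟩ := Algebra.FiniteType.iff_quotient_mvPolynomial''.1 h
  refine ⟨N, fun i => π (MvPolynomial.X i), ?_⟩
  rw [Algebra.adjoin_range_eq_range_aeval, eq_top_iff]
  rintro b -
  obtain ⟨G, rfl⟩ := hπ b
  refine ⟨G, ?_⟩
  have e : MvPolynomial.aeval (fun i => π (MvPolynomial.X i)) = π := by
    apply MvPolynomial.algHom_ext
    intro i
    rw [MvPolynomial.aeval_X]
  change MvPolynomial.aeval (fun i => π (MvPolynomial.X i)) G = π G
  rw [e]

theorem point_step : LangVojta k k := by
  refine ⟨1, one_ne_zero, fun b => ⟨0, ?_⟩⟩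
  intro E _ _ _ S φ _ _
  have h1 : φ b = algebraMap k E b := φ.commutes b
  rw [h1, hgt_algebraic (isAlgebraic_algebraMap b)]
  simp

/-- finite morphisms -/
theorem finite_step [IsDomain B] [Algebra.FiniteType k B] [Algebra B0 B] [IsScalarTower k B0 B]
    (h : LangVojta k B0) (hinj : Function.Injective (algebraMap B0 B))
    (halg : Algebra.IsAlgebraic B0 B) : LangVojta k B := by
  classical
  obtain ⟨g0, hg0, hA⟩ := h
  choose A hA using hA
  obtain ⟨N, x, hx⟩ := exists_gens k B
  choose p hp0 hp using fun i => halg.isAlgebraic (x i)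
  have hl0 : ∀ i, algebraMap B0 B (p i).leadingCoeff ≠ 0 := fun i h0 =>
    hp0 i (Polynomial.leadingCoeff_eq_zero.1 (hinj (h0.trans (map_zero _).symm)))
  refine ⟨algebraMap B0 B g0 * ∏ i, algebraMap B0 B (p i).leadingCoeff, ?_, ?_⟩
  · exact mul_ne_zero (fun h0 => hg0 (hinj (h0.trans (map_zero _).symm)))
      (Finset.prod_ne_zero_iff.2 fun i _ => hl0 i)
  intro b
  have hb : b ∈ Algebra.adjoin k (Set.range x) := by
    rw [hx]
    exact Algebra.mem_top
  rw [Algebra.adjoin_range_eq_range_aeval] at hb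
  obtain ⟨G, rfl⟩ := hb
  refine ⟨G.totalDegree * ∑ i, ∑ j ∈ Finset.range ((p i).natDegree + 1), A ((p i).coeff j), ?_⟩
  intro E _ _ _ S φ hreg hφ
  rw [map_mul, map_prod] at hφ
  have hφ0 := left_ne_zero_of_mul hφ
  have hφl : ∀ i, φ (algebraMap B0 B (p i).leadingCoeff) ≠ 0 := fun i =>
    Finset.prod_ne_zero_iff.1 (right_ne_zero_of_mul hφ) i (Finset.mem_univ i)
  let φ0 : B0 →ₐ[k] E := φ.comp (IsScalarTower.toAlgHom k B0 B)
  have h0 : ∀ c : B0, hgt k (φ (algebraMap B0 B c)) ≤ A c * max (canDeg k E + S.card) 0 :=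
    fun c => hA c E S φ0 (fun b P hP => hreg _ P hP) hφ0
  have hxi : ∀ i, hgt k (φ (x i)) ≤
      (∑ j ∈ Finset.range ((p i).natDegree + 1), A ((p i).coeff j) : ℕ) *
        max (canDeg k E + S.card) 0 := by
    intro i
    have hrel : ∑ j ∈ Finset.range ((p i).natDegree + 1),
        φ (algebraMap B0 B ((p i).coeff j)) * φ (x i) ^ j = 0 := by
      have h1 := congrArg φ (hp i)
      rw [Polynomial.aeval_eq_sum_range, map_sum, map_zero] at h1
      rw [← h1]
      refine Finset.sum_congr rfl fun j _ => ?_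
      rw [Algebra.smul_def, map_mul, map_pow]
    have h1 := hgt_root (k := k) (fun j => φ (algebraMap B0 B ((p i).coeff j))) (hφl i) _ hrel
    have h2 : hgt k (φ (algebraMap B0 B ((p i).coeff (p i).natDegree))) +
        ∑ j ∈ Finset.range (p i).natDegree, hgt k (φ (algebraMap B0 B ((p i).coeff j))) =
        ∑ j ∈ Finset.range ((p i).natDegree + 1),
          hgt k (φ (algebraMap B0 B ((p i).coeff j))) := by
      rw [Finset.sum_range_succ, add_comm]
    rw [h2] at h1
    refine h1.trans ((Finset.sum_le_sum fun j _ => h0 _).trans ?_)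
    rw [← Finset.sum_mul]
    push_cast
    exact le_rfl
  change hgt k (φ (MvPolynomial.aeval x G)) ≤ _
  have h3 : φ (MvPolynomial.aeval x G) = MvPolynomial.aeval (fun i => φ (x i)) G := by
    rw [MvPolynomial.comp_aeval_apply]
  rw [h3]
  refine (hgt_mvpoly (k := k) _ G).trans ?_
  push_cast
  rw [mul_assoc]
  refine mul_le_mul_of_nonneg_left ?_ (Int.natCast_nonneg _)
  refine (Finset.sum_le_sum fun i _ => hxi i).trans ?_
  rw [← Finset.sum_mul]
  push_cast
  exact le_rfl

variable {M : Type} [Field M] [Algebra k M] [Algebra B0 B] [Algebra B0 M] [Algebra B M]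
  [IsScalarTower k B0 B] [IsScalarTower k B M] [IsScalarTower B0 B M]
  {Ω : IntermediateField k M}

/-- **Fibrations over affine varieties.** -/
theorem curve_step [Algebra.FiniteType k B0] [Algebra.FiniteType k B]
    (h : HyperbolicFibres B0 B Ω) (h0 : LangVojta k B0) : LangVojta k B := by
  classical
  obtain ⟨m, a, ha⟩ := exists_gens k B0
  obtain ⟨g1, hg1, hA1⟩ := relative' h a ha
  obtain ⟨g0, hg0, hA0⟩ := h0
  choose A0 hA0 using hA0
  have hdom : ∀ x y : B, x ≠ 0 → y ≠ 0 → x * y ≠ 0 := by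
    intro x y hx hy h0
    have h1 := congrArg (algebraMap B M) h0
    rw [map_mul, map_zero] at h1
    rcases mul_eq_zero.1 h1 with h2 | h2
    · exact hx (h.inj (h2.trans (map_zero _).symm))
    · exact hy (h.inj (h2.trans (map_zero _).symm))
  refine ⟨g1 * algebraMap B0 B g0, hdom _ _ hg1 fun h1 => hg0 (h.inj0
    (h1.trans (map_zero _).symm)), ?_⟩
  intro b
  obtain ⟨A1, hA1⟩ := hA1 b
  refine ⟨A1 * (1 + ∑ j, A0 (a j)), ?_⟩
  intro E _ _ _ S φ hreg hφ
  rw [map_mul] at hφ
  let φ0 : B0 →ₐ[k] E := φ.comp (IsScalarTower.toAlgHom k B0 B)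
  have h1 : ∀ c : B0, hgt k (φ (algebraMap B0 B c)) ≤ A0 c * max (canDeg k E + S.card) 0 :=
    fun c => hA0 c E S φ0 (fun b P hP => hreg _ P hP) (right_ne_zero_of_mul hφ)
  refine (hA1 E S φ (fun P hP => Or.inl fun b => hreg b P hP) (left_ne_zero_of_mul hφ)).trans ?_
  push_cast
  rw [mul_assoc]
  refine mul_le_mul_of_nonneg_left ?_ (Int.natCast_nonneg _)
  have h2 := Finset.sum_le_sum fun j (_ : j ∈ Finset.univ) => h1 (a j)
  rw [← Finset.sum_mul] at h2
  linarith

end steps

section chart

variable {k R B0 B E : Type} [Field k] [CommRing R] [CommRing B0] [CommRing B] [Field E]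
  [Algebra k R] [Algebra k B] [Algebra R B] [Algebra B0 B] [IsScalarTower k R B] [Algebra k E]

/-- homomorphisms extend to the chart -/
theorem exists_extend (hinj : Function.Injective (algebraMap R B)) {h : R}
    (hloc : ∀ b : B, ∃ (n : ℕ) (r : R), algebraMap R B h ^ n * b = algebraMap R B r)
    (φ : R →ₐ[k] E) (hφ : φ h ≠ 0) :
    ∃ φ' : B →ₐ[k] E, ∀ r, φ' (algebraMap R B r) = φ r := by
  classical
  have key : ∀ b : B, ∃ x : E, ∀ (n : ℕ) (r : R), algebraMap R B h ^ n * b = algebraMap R B r →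
      φ h ^ n * x = φ r := by
    intro b
    obtain ⟨n, r, hr⟩ := hloc b
    refine ⟨φ r / φ h ^ n, fun m r' hr' => ?_⟩
    have h1 : h ^ m * r = h ^ n * r' := by
      apply hinj
      rw [map_mul, map_mul, map_pow, map_pow, ← hr, ← hr']
      ring
    have h2 := congrArg φ h1
    rw [map_mul, map_mul, map_pow, map_pow] at h2
    have h3 : φ h ^ n ≠ 0 := pow_ne_zero _ hφ
    rw [mul_div_assoc', div_eq_iff h3, h2]
    ring
  choose f hf using key
  have hfr : ∀ r, f (algebraMap R B r) = φ r := by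
    intro r
    have := hf (algebraMap R B r) 0 r (by rw [pow_zero, one_mul])
    rwa [pow_zero, one_mul] at this
  have hmul : ∀ x y, f (x * y) = f x * f y := by
    intro x y
    obtain ⟨n, r, hr⟩ := hloc x
    obtain ⟨n', r', hr'⟩ := hloc y
    have h1 := hf x n r hr
    have h2 := hf y n' r' hr'
    have h3 := hf (x * y) (n + n') (r * r') (by
      rw [map_mul, ← hr, ← hr', pow_add]
      ring)
    rw [map_mul, ← h1, ← h2, pow_add] at h3
    have h4 : φ h ^ n * φ h ^ n' ≠ 0 := mul_ne_zero (pow_ne_zero _ hφ) (pow_ne_zero _ hφ)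
    apply mul_left_cancel₀ h4
    rw [h3]
    ring
  have hadd : ∀ x y, f (x + y) = f x + f y := by
    intro x y
    obtain ⟨n, r, hr⟩ := hloc x
    obtain ⟨n', r', hr'⟩ := hloc y
    have h1 := hf x n r hr
    have h2 := hf y n' r' hr'
    have h3 := hf (x + y) (n + n') (h ^ n' * r + h ^ n * r') (by
      rw [map_add, map_mul, map_mul, map_pow, map_pow, ← hr, ← hr', pow_add]
      ring)
    rw [map_add, map_mul, map_mul, map_pow, map_pow, ← h1, ← h2, pow_add] at h3
    have h4 : φ h ^ n * φ h ^ n' ≠ 0 := mul_ne_zero (pow_ne_zero _ hφ) (pow_ne_zero _ hφ)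
    apply mul_left_cancel₀ h4
    rw [h3]
    ring
  have h1 : f 1 = 1 := by
    have := hfr 1
    rwa [map_one, map_one] at this
  have h0 : f 0 = 0 := by
    have := hfr 0
    rwa [map_zero, map_zero] at this
  let f' : B →+* E :=
    { toFun := f
      map_one' := h1
      map_mul' := hmul
      map_zero' := h0
      map_add' := hadd }
  have hc : ∀ c : k, f' (algebraMap k B c) = algebraMap k E c := by
    intro c
    change f (algebraMap k B c) = _
    rw [IsScalarTower.algebraMap_apply k R B, hfr, AlgHom.commutes]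
  exact ⟨{ f' with commutes' := hc }, hfr⟩

end chart

section projective

variable {k R B0 B M : Type} [Field k] [IsAlgClosed k] [CharZero k] [CommRing R] [CommRing B0]
  [CommRing B] [Field M] [Algebra k R] [Algebra k B0] [Algebra k B] [Algebra.FiniteType k B0]
  [Algebra.FiniteType k B] [Algebra k M] [Algebra R B] [Algebra B0 B] [Algebra B0 M]
  [Algebra B M] [IsScalarTower k R B] [IsScalarTower k B0 B] [IsScalarTower k B M]
  [IsScalarTower B0 B M] {Ω : IntermediateField k M}

/-- **Fibrations over projective varieties.** -/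
theorem projective_step (h0 : Demailly k B0) (h : HyperbolicFibres B0 B Ω)
    (hc : Chart k R B0 B) : LangVojta k R := by
  classical
  obtain ⟨m, a, ha⟩ := exists_gens k B0
  obtain ⟨g1, hg1, hA1⟩ := relative' h a ha
  obtain ⟨g0, hg0, hA0⟩ := h0
  choose A0 hA0 using hA0
  obtain ⟨d, hd0, hloc⟩ := hc.loc
  have hdom : ∀ x y : B, x ≠ 0 → y ≠ 0 → x * y ≠ 0 := by
    intro x y hx hy h0
    have h1 := congrArg (algebraMap B M) h0
    rw [map_mul, map_zero] at h1
    rcases mul_eq_zero.1 h1 with h2 | h2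
    · exact hx (h.inj (h2.trans (map_zero _).symm))
    · exact hy (h.inj (h2.trans (map_zero _).symm))
  have hdB : algebraMap R B d ≠ 0 := fun h1 => hd0 (hc.inj (h1.trans (map_zero _).symm))
  have hpow : ∀ n : ℕ, algebraMap R B d ^ n ≠ 0 := by
    intro n
    induction n with
    | zero =>
      rw [pow_zero]
      intro h1
      apply hg1
      calc g1 = g1 * 1 := (mul_one _).symm
        _ = 0 := by rw [h1, mul_zero]
    | succ n ih =>
      rw [pow_succ]
      exact hdom _ _ ih hdB
  obtain ⟨n, r, hr⟩ := hloc (g1 * algebraMap B0 B g0)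
  have hgB : g1 * algebraMap B0 B g0 ≠ 0 :=
    hdom _ _ hg1 fun h1 => hg0 (h.inj0 (h1.trans (map_zero _).symm))
  refine ⟨d * r, ?_, ?_⟩
  · intro h1
    have h2 := congrArg (algebraMap R B) h1
    rw [map_mul, map_zero, ← hr] at h2
    exact hdom _ _ hdB (hdom _ _ (hpow n) hgB) h2
  intro b
  obtain ⟨A1, hA1⟩ := hA1 (algebraMap R B b)
  refine ⟨A1 * (1 + ∑ j, A0 (a j)), ?_⟩
  intro E _ _ _ S φ hreg hφ
  rw [map_mul] at hφ
  obtain ⟨φ', hφ'⟩ := exists_extend hc.inj hloc φ (left_ne_zero_of_mul hφ)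
  have hφ2 : φ' (g1 * algebraMap B0 B g0) ≠ 0 := by
    intro h1
    have h2 := congrArg φ' hr
    rw [map_mul, h1, mul_zero, hφ'] at h2
    exact right_ne_zero_of_mul hφ h2.symm
  rw [map_mul] at hφ2
  let φ0 : B0 →ₐ[k] E := φ'.comp (IsScalarTower.toAlgHom k B0 B)
  have h1 : ∀ c : B0, hgt k (φ' (algebraMap B0 B c)) ≤ A0 c * max (canDeg k E + S.card) 0 := by
    intro c
    refine (hA0 c E φ0 (right_ne_zero_of_mul hφ2)).trans ?_
    refine mul_le_mul_of_nonneg_left ?_ (Int.natCast_nonneg _)
    refine max_le_max ?_ le_rfl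
    have : (0 : ℤ) ≤ S.card := Int.natCast_nonneg _
    linarith
  have h2 : ∀ P ∉ S, (∀ b, 0 ≤ P.ord (φ' b)) ∨ ∃ j, P.ord (φ' (algebraMap B0 B (a j))) < 0 := by
    intro P hP
    by_cases hj : ∃ j, P.ord (φ' (algebraMap B0 B (a j))) < 0
    · exact Or.inr hj
    left
    push Not at hj
    have e1 : ∀ c : B0, Ge P 0 (φ' (algebraMap B0 B c)) := by
      intro c
      have hmem : c ∈ Algebra.adjoin k (Set.range a) := by
        rw [ha]
        exact Algebra.mem_top
      induction hmem using Algebra.adjoin_induction with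
      | mem x hx =>
        obtain ⟨j, rfl⟩ := hx
        exact Or.inr (hj j)
      | algebraMap c =>
        rw [← IsScalarTower.algebraMap_apply k B0 B, AlgHom.commutes]
        exact Ge.const c
      | add x y _ _ hx hy =>
        rw [map_add, map_add]
        exact hx.add hy
      | mul x y _ _ hx hy =>
        rw [map_mul, map_mul]
        have := hx.mul hy
        rwa [add_zero] at this
    have e2 : ∀ b : B, Ge P 0 (φ' b) := by
      intro b
      have hmem : b ∈ Algebra.adjoin k
          (Set.range (algebraMap R B) ∪ Set.range (algebraMap B0 B)) := by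
        rw [hc.gen]
        exact Algebra.mem_top
      induction hmem using Algebra.adjoin_induction with
      | mem x hx =>
        rcases hx with ⟨r, rfl⟩ | ⟨c, rfl⟩
        · rw [hφ']
          exact Or.inr (hreg r P hP)
        · exact e1 c
      | algebraMap c =>
        rw [AlgHom.commutes]
        exact Ge.const c
      | add x y _ _ hx hy =>
        rw [map_add]
        exact hx.add hy
      | mul x y _ _ hx hy =>
        rw [map_mul]
        have := hx.mul hy
        rwa [add_zero] at this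
    intro b
    rcases e2 b with h3 | h3
    · rw [h3, P.ord_zero]
    · exact h3
  have h3 := hA1 E S φ' h2 (left_ne_zero_of_mul hφ2)
  rw [hφ'] at h3
  refine h3.trans ?_
  push_cast
  rw [mul_assoc]
  refine mul_le_mul_of_nonneg_left ?_ (Int.natCast_nonneg _)
  have h4 := Finset.sum_le_sum fun j (_ : j ∈ Finset.univ) => h1 (a j)
  rw [← Finset.sum_mul] at h4
  linarith

end projective

theorem demailly_curve {k B0 E0 : Type} [Field k] [IsAlgClosed k] [CharZero k] [CommRing B0]
    [Field E0] [Algebra k B0] [Algebra k E0] [Algebra B0 E0] [IsScalarTower k B0 E0]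
    [IsFractionRing B0 E0] [IsFF k E0] (hg : 0 < canDeg k E0) : Demailly k B0 := by
  have : Nontrivial B0 := (algebraMap B0 E0).domain_nontrivial
  refine ⟨1, one_ne_zero, fun b => ⟨(hgt k (algebraMap B0 E0 b)).toNat, ?_⟩⟩
  intro E _ _ _ φ _
  rw [Int.toNat_of_nonneg (hgt_nonneg _)]
  exact curve_bound hg φ b

section named

variable {k B0 B : Type} [Field k] [IsAlgClosed k] [CharZero k] [CommRing B0] [CommRing B]
  [Algebra k B0] [Algebra k B] [Algebra B0 B]

theorem relativeBound (h : Fibration k B0 B) : RelativeBound k B0 B := by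
  obtain ⟨h1, h2, h3, M, i1, i2, i3, i4, i5, i6, Ω, h⟩ := h
  exact fun m a ha => relative' h a ha

theorem affine_base (h : Fibration k B0 B) (h0 : LangVojta k B0) : LangVojta k B := by
  obtain ⟨h1, h2, h3, M, i1, i2, i3, i4, i5, i6, Ω, h⟩ := h
  exact curve_step h h0

theorem projective_base {R : Type} [CommRing R] [Algebra k R] [Algebra R B] [IsScalarTower k R B]
    (h : Fibration k B0 B) (hc : Chart k R B0 B) (h0 : Demailly k B0) : LangVojta k R := by
  obtain ⟨h1, h2, h3, M, i1, i2, i3, i4, i5, i6, Ω, h⟩ := h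
  exact projective_step h0 h hc

end named

/-- **The conjecture of Lang and Vojta for towers.** -/
theorem tower {k : Type} [Field k] [IsAlgClosed k] [CharZero k] {B : Type} [i1 : CommRing B]
    [i2 : Algebra k B] (h : Tower k B) : LangVojta k B := by
  induction h with
  | point => exact point_step
  | finite B0 B h0 hinj halg ih => exact finite_step ih hinj halg
  | curve B0 B h0 h ih => exact affine_base h ih
  | projective R B0 B E hg h hc => exact projective_base h hc (demailly_curve (E0 := E) hg)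

end Pool.Agent.K4H62.HF
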