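import Pool.Agent.W603.LV.Loc

/-! Wronskians of families with the same span, and lower bounds for their orders. -/

set_option autoImplicit false

open FF Pool.Agent.W603.LV

namespace Pool.Agent.K4H62.HF

section span

variable {k K : Type} [Field k] [Field K] [Algebra k K]

theorem iter_smul (D : Derivation k K K) (r : ℕ) (c : k) (x : K) :
    (⇑D)^[r] (c • x) = c • (⇑D)^[r] x := by
  induction r with
  | zero => rfl
  | succ r ih => simp only [Function.iterate_succ_apply', ih, D.map_smul]

/-- the Wronskian of a family in the span of another one -/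
theorem wr_of_span (D : Derivation k K K) {m : ℕ} (f g : Fin m → K)
    (h : ∀ i, f i ∈ Submodule.span k (Set.range g)) :
    ∃ c : k, wr D f = algebraMap k K c * wr D g := by
  have h1 : ∀ i, ∃ c : Fin m → k, ∑ j, c j • g j = f i := fun i =>
    (Submodule.mem_span_range_iff_exists_fun k).1 (h i)
  choose P hP using h1
  refine ⟨(Matrix.of P).det, ?_⟩
  have h2 : wm (n := m) D f = ((Matrix.of P).map (algebraMap k K)) * wm (n := m) D g := by
    ext i r
    rw [Matrix.mul_apply]
    change (⇑D)^[(r : ℕ)] (f i) = ∑ j, algebraMap k K (P i j) * (⇑D)^[(r : ℕ)] (g j)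
    rw [← hP i, iter_sum]
    refine Finset.sum_congr rfl fun j _ => ?_
    rw [iter_smul, Algebra.smul_def]
  unfold wr
  rw [h2, Matrix.det_mul]
  congr 1
  exact (RingHom.map_det (algebraMap k K) (Matrix.of P)).symm

end span

section lower

variable {k K : Type} [Field k] [Field K] [Algebra k K] [CharZero k] [IsFF k K] [IsAlgClosed k]

/-- Lower bounds for the order of a Wronskian. -/
theorem wr_lower (P : Place k K) {D : Derivation k K K} (hD : D ≠ 0) {m : ℕ} (f : Fin m → K)
    (c0 : ℤ) (a : Fin m → ℕ) (hf : ∀ i, Ge P (c0 + a i) (f i)) (hW : wr D f ≠ 0) :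
    tri m * vo P D + m * c0 ≤ P.ord (wr D f) ∧
    tri m * vo P D + m * c0 + ∑ i, (a i : ℤ) - tri m ≤ P.ord (wr D f) := by
  classical
  set π := unif P with hπd
  have hπ : P.ord π = 1 := ord_unif P
  have hπ0 : π ≠ 0 := by
    intro h
    rw [h, P.ord_zero] at hπ; omega
  have hu0 : D π ≠ 0 := der_pi_ne_zero hD P hπ
  set u := D π with hu
  set δ : Derivation k K K := u⁻¹ • D with hδd
  have hδ : δ π = 1 := by
    rw [hδd, Derivation.coe_smul, Pi.smul_apply, smul_eq_mul, ← hu, inv_mul_cancel₀ hu0]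
  have hDδ : D = u • δ := by
    rw [hδd, smul_smul, mul_inv_cancel₀ hu0, one_smul]
  set c := π ^ c0 with hc
  have hcn : c ≠ 0 := zpow_ne_zero _ hπ0
  have hcord : P.ord c = c0 := by rw [hc, P.ord_zpow, hπ, mul_one]
  set g : Fin m → K := fun l => f l / c with hg
  have hfg : f = fun l => c * g l := by
    funext l
    simp only [hg]; field_simp
  have h2 : wr D f = (∏ r : Fin m, u ^ (r : ℕ) * c) * wr δ g := by
    conv_lhs => rw [hDδ, hfg]
    exact wr_change δ u c g
  have hWg : wr δ g ≠ 0 := by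
    intro h0
    rw [h0, mul_zero] at h2
    exact hW h2
  have hprod0 : (∏ r : Fin m, u ^ (r : ℕ) * c) ≠ 0 :=
    Finset.prod_ne_zero_iff.2 fun r _ => mul_ne_zero (pow_ne_zero _ hu0) hcn
  have hprod : P.ord (∏ r : Fin m, u ^ (r : ℕ) * c) = tri m * vo P D + m * c0 := by
    have h3 : ∀ s : Finset (Fin m), P.ord (∏ r ∈ s, u ^ (r : ℕ) * c) =
        ∑ r ∈ s, (((r : ℕ) : ℤ) * vo P D + c0) := by
      intro s
      induction s using Finset.induction_on with
      | empty => simpa using P.ord_one
      | insert a s ha ih =>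
        rw [Finset.prod_insert ha, Finset.sum_insert ha, P.ord_mul
          (mul_ne_zero (pow_ne_zero _ hu0) hcn)
          (Finset.prod_ne_zero_iff.2 fun r _ => mul_ne_zero (pow_ne_zero _ hu0) hcn), ih,
          P.ord_mul (pow_ne_zero _ hu0) hcn, P.ord_pow, hcord]
        rfl
    rw [h3, Finset.sum_add_distrib, ← Finset.sum_mul]
    simp [tri]
  have hgG : ∀ l, Ge P (a l : ℤ) (g l) := by
    intro l
    refine Ge.of_mul' (h := c) (m := c0) hcn hcord ?_
    have h4 : c * g l = f l := by
      simp only [hg]; field_simp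
    rw [h4, add_comm]
    exact hf l
  have hL0 : Ge P 0 (wr δ g) := by
    unfold wr
    refine ge_det P _ _ (fun i r => ((a i - (r : ℕ) : ℕ) : ℤ)) (fun i r => ?_) (fun σ => ?_)
    · exact ge_iter P hπ hδ (hgG i) r
    · exact Finset.sum_nonneg fun i _ => Int.natCast_nonneg _
  have hL1 : Ge P (∑ l, (a l : ℤ) - tri m) (wr δ g) := by
    unfold wr
    refine ge_det P _ _ (fun i r => ((a i - (r : ℕ) : ℕ) : ℤ)) (fun i r => ?_) (fun σ => ?_)
    · exact ge_iter P hπ hδ (hgG i) r
    · have hσ : ∑ l, (a l : ℤ) = ∑ i, (a (σ i) : ℤ) := (Equiv.sum_comp σ (fun i => (a i : ℤ))).symm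
      rw [hσ]
      unfold tri
      rw [← Finset.sum_sub_distrib]
      refine Finset.sum_le_sum fun i _ => ?_
      omega
  have h5 := hL0.resolve_left hWg
  have h6 := hL1.resolve_left hWg
  rw [h2, P.ord_mul hprod0 hWg, hprod]
  constructor <;> linarith

end lower

end Pool.Agent.K4H62.HF
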